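import Pool.Agent.Helper620_Tuning.Basic

/-!
# Tuning: the polynomial `P₂` when its critical point is fixed
-/

set_option autoImplicit false

open Polynomial Set Filter Topology Metric

namespace Pool.Agent.Helper620_Tuning

namespace Inner

variable {d : ℕ} (I : Inner d)

/-- the polynomial `P₂` is unicritical -/
theorem exists_form (hd : 2 ≤ d) :
    ∃ b : ℂ, b ≠ 0 ∧ ∀ z, I.P.eval z = b * (z - I.c) ^ d + I.P.eval I.c := by
  have hdeg : I.P.natDegree = d := I.degree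
  have hder : I.P.derivative.natDegree = d - 1 := by rw [natDegree_derivative, hdeg]
  have hne : I.P.derivative ≠ 0 := by
    intro h; rw [h] at hder; simp at hder; omega
  have hsp := IsAlgClosed.splits I.P.derivative
  have hroots : I.P.derivative.roots = Multiset.replicate (d - 1) I.c := by
    rw [Multiset.eq_replicate]
    refine ⟨by rw [← hsp.natDegree_eq_card_roots, hder], ?_⟩
    intro x hx
    rw [mem_roots hne] at hx
    exact (I.critical x).mp hx
  have hprod := hsp.eq_prod_roots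
  rw [hroots, Multiset.map_replicate, Multiset.prod_replicate] at hprod
  set l := I.P.derivative.leadingCoeff with hl
  have hl0 : l ≠ 0 := leadingCoeff_ne_zero.mpr hne
  have hd0 : (d:ℂ) ≠ 0 := by
    have : d ≠ 0 := by omega
    exact_mod_cast this
  have h1 : derivative (I.P - C (l / d) * (X - C I.c) ^ d) = 0 := by
    rw [derivative_sub, derivative_C_mul, derivative_X_sub_C_pow, hprod, sub_eq_zero]
    rw [← mul_assoc]
    congr 1
    rw [← C_mul, div_mul_cancel₀ _ hd0]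
  have h2 := eq_C_of_derivative_eq_zero h1
  have h3 : ∀ z, I.P.eval z = (l / d) * (z - I.c) ^ d +
      (I.P - C (l / d) * (X - C I.c) ^ d).coeff 0 := by
    intro z
    have h4 := congrArg (fun q => q.eval z) h2
    simp only [eval_sub, eval_mul, eval_C, eval_pow, eval_X] at h4
    linear_combination h4
  refine ⟨l / d, div_ne_zero hl0 hd0, fun z => ?_⟩
  rw [h3 z, h3 I.c]
  have : d ≠ 0 := by omega
  simp [this]

/-- The closed ray of angle `arg u` contains the points of the ray. -/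
theorem mem_closedRay {u : ℂ} {r : ℝ} (hr : 1 < r) : I.κ (I.ψ (r * u)) ∈ I.closedRay u :=
  subset_closure ⟨r, hr, rfl⟩

theorem κ_norm (v : ℂ) : ‖I.κ v‖ = ‖v / I.a‖ / (1 + ‖v / I.a‖) := by
  have h : 0 < 1 + ‖v / I.a‖ := by positivity
  unfold κ
  rw [norm_div, Complex.norm_real, Real.norm_of_nonneg h.le]

theorem κ_norm_lt (v : ℂ) : ‖I.κ v‖ < 1 := by
  rw [κ_norm, div_lt_one (by positivity)]
  linarith

theorem κ_cont : Continuous I.κ := by
  unfold κ
  apply Continuous.div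
  · fun_prop
  · fun_prop
  · intro x
    have h : 0 < 1 + ‖x / I.a‖ := by positivity
    exact_mod_cast h.ne'

theorem κ_κinv {w : ℂ} (hw : ‖w‖ < 1) : I.κ (I.κinv w) = w := by
  have h1 : 0 < 1 - ‖w‖ := by linarith
  have h2 : I.κinv w / I.a = w / (1 - ‖w‖ : ℝ) := by
    unfold κinv
    rw [mul_div_assoc, mul_comm, div_mul_cancel₀ _ I.a_ne]
  unfold κ
  rw [h2, norm_div, Complex.norm_real, Real.norm_of_nonneg h1.le]
  have h3 : 1 + ‖w‖ / (1 - ‖w‖) = 1 / (1 - ‖w‖) := by field_simp; ring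
  rw [h3]
  have h4 : ((1 - ‖w‖ : ℝ) : ℂ) ≠ 0 := by exact_mod_cast h1.ne'
  push_cast at h4 ⊢
  field_simp

theorem κinv_κ (v : ℂ) : I.κinv (I.κ v) = v := by
  have h1 : 0 < 1 + ‖v / I.a‖ := by positivity
  unfold κinv
  rw [κ_norm]
  have h3 : 1 - ‖v / I.a‖ / (1 + ‖v / I.a‖) = 1 / (1 + ‖v / I.a‖) := by field_simp; ring
  rw [h3]
  unfold κ
  have h4 : ((1 + ‖v / I.a‖ : ℝ) : ℂ) ≠ 0 := by exact_mod_cast h1.ne'
  have h5 := I.a_ne
  push_cast at h4 ⊢
  field_simp

theorem κ_inj : Function.Injective I.κ := fun x y h => by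
  rw [← I.κinv_κ x, ← I.κinv_κ y, h]

section fixed

variable (hd : 2 ≤ d) (hfix : I.P.eval I.c = I.c)

include hd hfix

/-- the Böttcher parametrisation is affine -/
theorem ψ_eq {w : ℂ} (hw : 1 < ‖w‖) : I.ψ w = I.c + I.a * w := by
  obtain ⟨b, hb0, hb⟩ := I.exists_form hd
  rw [hfix] at hb
  have ha := I.a_ne
  have hd0 : d ≠ 0 := by omega
  set g : ℂ → ℂ := fun w => (I.ψ w - I.c) / w with hg
  have hne0 : ∀ w : ℂ, 1 < ‖w‖ → w ≠ 0 := by
    intro w hw h; rw [h, norm_zero] at hw; linarith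
  have hpow : ∀ w : ℂ, 1 < ‖w‖ → 1 < ‖w ^ d‖ := by
    intro w hw
    rw [norm_pow]
    exact one_lt_pow₀ hw hd0
  have hgd : ∀ w : ℂ, 1 < ‖w‖ → g (w ^ d) = b * g w ^ d := by
    intro w hw
    have h1 := I.ψ_conj w hw
    rw [hb] at h1
    have h2 := hne0 w hw
    have h3 := hne0 _ (hpow w hw)
    have h4 : I.ψ (w ^ d) - I.c = b * (I.ψ w - I.c) ^ d := by rw [← h1]; ring
    simp only [hg]
    rw [h4, div_pow, mul_div_assoc]
  have hlim : Tendsto g (Bornology.cobounded ℂ) (𝓝 I.a) := by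
    have h1 : Tendsto (fun w : ℂ => I.ψ w / w - I.c * w⁻¹) (Bornology.cobounded ℂ)
        (𝓝 (I.a - I.c * 0)) := I.ψ_lim.sub (tendsto_const_nhds.mul tendsto_inv₀_cobounded)
    rw [mul_zero, sub_zero] at h1
    refine h1.congr ?_
    intro w
    simp only [hg]
    rw [sub_div, div_eq_mul_inv I.c]
  have hpowlim : Tendsto (fun w : ℂ => w ^ d) (Bornology.cobounded ℂ) (Bornology.cobounded ℂ) := by
    rw [← tendsto_norm_atTop_iff_cobounded]
    simp_rw [norm_pow]
    exact (tendsto_pow_atTop hd0).comp tendsto_norm_cobounded_atTop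
  have hbig : ∀ᶠ w in Bornology.cobounded ℂ, 1 < ‖w‖ :=
    (tendsto_norm_cobounded_atTop (E := ℂ)).eventually (eventually_gt_atTop 1)
  have hab : I.a = b * I.a ^ d := by
    have h1 : Tendsto (fun w => g (w ^ d)) (Bornology.cobounded ℂ) (𝓝 I.a) := hlim.comp hpowlim
    have h2 : Tendsto (fun w => b * g w ^ d) (Bornology.cobounded ℂ) (𝓝 (b * I.a ^ d)) :=
      tendsto_const_nhds.mul (hlim.pow d)
    refine tendsto_nhds_unique h1 (h2.congr' ?_)
    filter_upwards [hbig] with w hw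
    rw [hgd w hw]
  -- the normalised quotient
  set G : ℂ → ℂ := fun w => g w / I.a with hG
  have hGd : ∀ w : ℂ, 1 < ‖w‖ → G (w ^ d) = G w ^ d := by
    intro w hw
    show g (w ^ d) / I.a = (g w / I.a) ^ d
    rw [hgd w hw, div_pow (g w) I.a, div_eq_div_iff ha (pow_ne_zero _ ha)]
    linear_combination (-(g w ^ d)) * hab
  have hGlim : Tendsto G (Bornology.cobounded ℂ) (𝓝 1) := by
    have := hlim.div_const I.a
    rwa [div_self ha] at this
  have hGit : ∀ (n : ℕ) (w : ℂ), 1 < ‖w‖ → G (w ^ (d ^ n)) = G w ^ (d ^ n) := by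
    intro n
    induction n with
    | zero => intro w _; simp
    | succ n ih =>
      intro w hw
      have h1 : 1 < ‖w ^ (d ^ n)‖ := by
        rw [norm_pow]; exact one_lt_pow₀ hw (pow_ne_zero _ hd0)
      rw [pow_succ, pow_mul, hGd _ h1, ih w hw, pow_mul]
  have hGnorm : ∀ w : ℂ, 1 < ‖w‖ → ‖G w‖ = 1 := by
    intro w hw
    have h1 : Tendsto (fun n : ℕ => w ^ (d ^ n)) atTop (Bornology.cobounded ℂ) := by
      rw [← tendsto_norm_atTop_iff_cobounded]
      simp_rw [norm_pow]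
      exact (tendsto_pow_atTop_atTop_of_one_lt hw).comp
        (tendsto_pow_atTop_atTop_of_one_lt (by omega))
    have h2 : Tendsto (fun n : ℕ => ‖G w‖ ^ (d ^ n)) atTop (𝓝 1) := by
      have h3 := (hGlim.comp h1).norm
      rw [norm_one] at h3
      refine h3.congr fun n => ?_
      simp only [Function.comp_apply]
      rw [hGit n w hw, norm_pow]
    have h4 : Tendsto (fun n : ℕ => d ^ n) atTop atTop :=
      tendsto_pow_atTop_atTop_of_one_lt (by omega)
    rcases lt_trichotomy ‖G w‖ 1 with h | h | h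
    · have h5 := (tendsto_pow_atTop_nhds_zero_of_lt_one (norm_nonneg _) h).comp h4
      have := tendsto_nhds_unique h2 h5
      norm_num at this
    · exact h
    · have h5 := (tendsto_pow_atTop_atTop_of_one_lt h).comp h4
      exact absurd h5 (not_tendsto_atTop_of_tendsto_nhds h2)
  have hGdiff : DifferentiableOn ℂ G {w | 1 < ‖w‖} := by
    simp only [hG, hg]
    apply DifferentiableOn.div_const
    apply DifferentiableOn.div
    · exact I.ψ_diff.sub_const _
    · exact differentiableOn_id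
    · intro w hw; exact hne0 w hw
  -- a half plane
  have hG1 : G w = 1 := by
    have hw0 : 0 < ‖w‖ := by linarith
    set H : Set ℂ := {z | ‖w‖ < (z * (starRingEnd ℂ) w).re} with hH
    have hHsub : H ⊆ {z | 1 < ‖z‖} := by
      intro z hz
      have h1 : ‖w‖ < (z * (starRingEnd ℂ) w).re := hz
      have h2 : (z * (starRingEnd ℂ) w).re ≤ ‖z‖ * ‖w‖ := by
        refine (Complex.re_le_norm _).trans ?_
        rw [norm_mul, Complex.norm_conj]
      have h3 : 1 * ‖w‖ < ‖z‖ * ‖w‖ := by linarith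
      exact lt_of_mul_lt_mul_right h3 hw0.le
    have hHc : Convex ℝ H := by
      intro x hx y hy s t hs ht hst
      have hx1 : ‖w‖ < (x * (starRingEnd ℂ) w).re := hx
      have hy1 : ‖w‖ < (y * (starRingEnd ℂ) w).re := hy
      show ‖w‖ < ((s • x + t • y) * (starRingEnd ℂ) w).re
      have h1 : ((s • x + t • y) * (starRingEnd ℂ) w).re =
          s * (x * (starRingEnd ℂ) w).re + t * (y * (starRingEnd ℂ) w).re := by
        simp only [Complex.real_smul, add_mul, Complex.add_re, mul_assoc, Complex.re_ofReal_mul]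
      rw [h1]
      have h2 : ‖w‖ = s * ‖w‖ + t * ‖w‖ := by rw [← add_mul, hst, one_mul]
      rcases hs.eq_or_lt with h3 | h3
      · rw [← h3] at hst ⊢
        rw [zero_add] at hst
        rw [hst]; linarith
      · have h4 : s * ‖w‖ < s * (x * (starRingEnd ℂ) w).re := by gcongr
        have h5 : t * ‖w‖ ≤ t * (y * (starRingEnd ℂ) w).re := by gcongr
        linarith
    have hHo : IsOpen H := isOpen_lt continuous_const
      (Complex.continuous_re.comp (continuous_id.mul continuous_const))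
    have hwH : ∀ t : ℝ, 1 ≤ t → (t:ℂ) * w ∈ H := by
      intro t ht
      show ‖w‖ < ((t:ℂ) * w * (starRingEnd ℂ) w).re
      rw [mul_assoc, Complex.mul_conj, Complex.re_ofReal_mul, Complex.ofReal_re,
        Complex.normSq_eq_norm_sq]
      nlinarith
    have hw1 : w ∈ H := by
      have := hwH 1 le_rfl
      simpa using this
    have hmax : IsMaxOn (norm ∘ G) H w := by
      intro z hz
      show ‖G z‖ ≤ ‖G w‖
      rw [hGnorm z (hHsub hz), hGnorm w hw]
    have hconst := Complex.eqOn_of_isPreconnected_of_isMaxOn_norm hHc.isPreconnected hHo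
      (hGdiff.mono hHsub) hw1 hmax
    have h1 : Tendsto (fun n : ℕ => ((n + 1 : ℝ) : ℂ) * w) atTop (Bornology.cobounded ℂ) := by
      rw [← tendsto_norm_atTop_iff_cobounded]
      have h2 : ∀ n : ℕ, ‖((n + 1 : ℝ) : ℂ) * w‖ = (n + 1 : ℝ) * ‖w‖ := by
        intro n
        rw [norm_mul, Complex.norm_real, Real.norm_of_nonneg (by positivity)]
      simp_rw [h2]
      exact (tendsto_atTop_add_const_right _ _ tendsto_natCast_atTop_atTop).atTop_mul_const hw0
    have h2 := hGlim.comp h1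
    have h3 : Tendsto (fun n : ℕ => G w) atTop (𝓝 1) := by
      refine h2.congr fun n => ?_
      simp only [Function.comp_apply]
      have := hconst (hwH (n + 1 : ℝ) (by linarith [(Nat.cast_nonneg n : (0:ℝ) ≤ n)]))
      simpa using this
    exact tendsto_nhds_unique tendsto_const_nhds h3
  have h1 : (I.ψ w - I.c) / w / I.a = 1 := hG1
  rw [div_div, div_eq_one_iff_eq (mul_ne_zero (hne0 w hw) ha)] at h1
  linear_combination h1

theorem b_eq : ∃ b : ℂ, b * I.a ^ d = I.a ∧ ∀ z, I.P.eval z = b * (z - I.c) ^ d + I.c := by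
  obtain ⟨b, hb0, hb⟩ := I.exists_form hd
  rw [hfix] at hb
  refine ⟨b, ?_, hb⟩
  have h1 : (1:ℝ) < ‖(2:ℂ)‖ := by norm_num
  have hd0 : d ≠ 0 := by omega
  have h2 : 1 < ‖(2:ℂ) ^ d‖ := by rw [norm_pow]; exact one_lt_pow₀ h1 hd0
  have h3 := I.ψ_conj 2 h1
  rw [I.ψ_eq hd hfix h1, I.ψ_eq hd hfix h2, hb] at h3
  have h4 : (2:ℂ) ^ d ≠ 0 := pow_ne_zero _ (by norm_num)
  apply mul_right_cancel₀ h4
  linear_combination h3

theorem eval_affine (x : ℂ) : I.P.eval (I.c + I.a * x) = I.c + I.a * x ^ d := by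
  obtain ⟨b, hb, hb2⟩ := I.b_eq hd hfix
  rw [hb2]
  linear_combination x ^ d * hb

end fixed

/-- Collapse of the outside of the closed unit disc. -/
noncomputable def S (x : ℂ) : ℂ := x / (max 1 ‖x‖ : ℝ)

/-- The collapsing map of the closed disc, for `P₂` with fixed critical point. -/
noncomputable def s (w : ℂ) : ℂ :=
  (w - (1 - ‖w‖ : ℝ) * (I.c / I.a)) / (max (1 - ‖w‖) ‖w - (1 - ‖w‖ : ℝ) * (I.c / I.a)‖ : ℝ)

theorem s_denom_pos {w : ℂ} (hw : ‖w‖ ≤ 1) :
    0 < max (1 - ‖w‖) ‖w - (1 - ‖w‖ : ℝ) * (I.c / I.a)‖ := by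
  rcases hw.lt_or_eq with h | h
  · exact lt_of_lt_of_le (by linarith) (le_max_left _ _)
  · rw [h]; simp [h]

theorem s_cont : ContinuousOn I.s (closedBall 0 1) := by
  unfold s
  apply ContinuousOn.div
  · fun_prop
  · fun_prop
  · intro w hw
    rw [mem_closedBall_zero_iff] at hw
    have := I.s_denom_pos hw
    exact_mod_cast this.ne'

theorem s_norm_le {w : ℂ} (hw : ‖w‖ ≤ 1) : ‖I.s w‖ ≤ 1 := by
  unfold s
  have h := I.s_denom_pos hw
  rw [norm_div, Complex.norm_real, Real.norm_of_nonneg h.le, div_le_one h]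
  exact le_max_right _ _

theorem s_sphere {w : ℂ} (hw : ‖w‖ = 1) : I.s w = w := by
  unfold s
  rw [hw]
  simp [hw]

theorem s_κ (v : ℂ) : I.s (I.κ v) = S ((v - I.c) / I.a) := by
  have h1 : 0 < 1 + ‖v / I.a‖ := by positivity
  have h3 : 1 - ‖I.κ v‖ = 1 / (1 + ‖v / I.a‖) := by rw [κ_norm]; field_simp; ring
  have h4 : I.κ v - (1 - ‖I.κ v‖ : ℝ) * (I.c / I.a) = ((v - I.c) / I.a) / (1 + ‖v / I.a‖ : ℝ) := by
    rw [h3]
    unfold κ
    have h4 : ((1 + ‖v / I.a‖ : ℝ) : ℂ) ≠ 0 := by exact_mod_cast h1.ne'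
    have h5 := I.a_ne
    push_cast at h4 ⊢
    field_simp
  have h5 : ‖((v - I.c) / I.a) / ((1 + ‖v / I.a‖ : ℝ) : ℂ)‖ =
      ‖(v - I.c) / I.a‖ / (1 + ‖v / I.a‖) := by
    rw [norm_div ((v - I.c) / I.a) ((1 + ‖v / I.a‖ : ℝ) : ℂ), Complex.norm_real,
      Real.norm_of_nonneg h1.le]
  unfold s
  rw [h4, h3, h5]
  have h6 : max (1 / (1 + ‖v / I.a‖)) (‖(v - I.c) / I.a‖ / (1 + ‖v / I.a‖)) =
      max 1 ‖(v - I.c) / I.a‖ / (1 + ‖v / I.a‖) := by
    rw [max_div_div_right h1.le]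
  rw [h6]
  unfold S
  have h7 : ((1 + ‖v / I.a‖ : ℝ) : ℂ) ≠ 0 := by exact_mod_cast h1.ne'
  rw [Complex.ofReal_div, div_div_div_cancel_right₀ h7]

theorem S_of_le {x : ℂ} (hx : ‖x‖ ≤ 1) : S x = x := by
  unfold S; rw [max_eq_left hx]; simp

theorem S_of_ge {x : ℂ} (hx : 1 ≤ ‖x‖) : S x = x / (‖x‖ : ℝ) := by
  unfold S; rw [max_eq_right hx]

theorem S_pow {d : ℕ} (x : ℂ) : S (x ^ d) = S x ^ d := by
  rcases le_total ‖x‖ 1 with h | h
  · rw [S_of_le h, S_of_le (by rw [norm_pow]; exact pow_le_one₀ (norm_nonneg _) h)]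
  · rw [S_of_ge h, S_of_ge (by rw [norm_pow]; exact one_le_pow₀ h), div_pow, norm_pow]
    push_cast; rfl

theorem s_of_lt {w : ℂ} (hw : ‖w‖ < 1) : I.s w = S ((I.κinv w - I.c) / I.a) := by
  rw [← I.s_κ, I.κ_κinv hw]

theorem s_mem_closedRay {w : ℂ} (hw : ‖w‖ ≤ 1) (hd : 2 ≤ d) (hfix : I.P.eval I.c = I.c)
    (hs : ‖I.s w‖ = 1) : w ∈ I.closedRay (I.s w) := by
  rcases hw.lt_or_eq with h | h
  · -- interior point
    set x := (I.κinv w - I.c) / I.a with hx
    have hsx : I.s w = S x := I.s_of_lt h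
    have hwx : w = I.κ (I.c + I.a * x) := by
      rw [hx, mul_div_cancel₀ _ I.a_ne, add_sub_cancel, I.κ_κinv h]
    have hx1 : 1 ≤ ‖x‖ := by
      by_contra hcon
      push Not at hcon
      rw [hsx, S_of_le hcon.le] at hs
      linarith
    have hx0 : ((‖x‖ : ℝ) : ℂ) ≠ 0 := by
      have : 0 < ‖x‖ := by linarith
      exact_mod_cast this.ne'
    rw [hsx, S_of_ge hx1]
    set u := x / (‖x‖ : ℝ) with hu
    have hun : ‖u‖ = 1 := by
      rw [hu, norm_div, Complex.norm_real, Real.norm_of_nonneg (norm_nonneg _), div_self]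
      exact_mod_cast hx0
    have hxu : x = (‖x‖ : ℝ) * u := by rw [hu, mul_div_cancel₀ _ hx0]
    have hcont : Tendsto (fun r : ℝ => I.κ (I.c + I.a * (r * u))) (𝓝[>] ‖x‖) (𝓝 w) := by
      have h1 : Continuous (fun r : ℝ => I.κ (I.c + I.a * (r * u))) := by
        apply I.κ_cont.comp; fun_prop
      have h2 := h1.tendsto ‖x‖
      rw [← hxu, ← hwx] at h2
      exact h2.mono_left nhdsWithin_le_nhds
    apply mem_closure_of_tendsto hcont
    filter_upwards [self_mem_nhdsWithin] with r hr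
    have hr1 : 1 < r := lt_of_le_of_lt hx1 hr
    refine ⟨r, hr1, ?_⟩
    dsimp only
    rw [I.ψ_eq hd hfix]
    rw [norm_mul, hun, Complex.norm_real, Real.norm_of_nonneg (by linarith)]
    linarith
  · rw [I.s_sphere h]
    -- boundary point
    have hcont : Tendsto (fun r : ℝ => (w + (I.c / I.a) * (r⁻¹ : ℝ)) /
        ((r⁻¹ + ‖w + (I.c / I.a) * (r⁻¹ : ℝ)‖ : ℝ) : ℂ)) atTop (𝓝 w) := by
      have h1 : Tendsto (fun r : ℝ => r⁻¹) atTop (𝓝 0) := tendsto_inv_atTop_zero
      have h2 : Continuous (fun t : ℝ => w + (I.c / I.a) * (t : ℂ)) := by fun_prop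
      have h3 : Tendsto (fun r : ℝ => w + (I.c / I.a) * (r⁻¹ : ℝ)) atTop (𝓝 w) := by
        have := (h2.tendsto 0).comp h1
        simpa [Function.comp_def] using this
      have h4 : Tendsto (fun r : ℝ => ((r⁻¹ + ‖w + (I.c / I.a) * (r⁻¹ : ℝ)‖ : ℝ) : ℂ)) atTop
          (𝓝 ((0 + ‖w‖ : ℝ) : ℂ)) := by
        exact (Complex.continuous_ofReal.tendsto _).comp (h1.add h3.norm)
      have h5 := h3.div h4 (by rw [h]; norm_num)
      rw [h] at h5
      have h6 : w / ((0 + 1 : ℝ) : ℂ) = w := by norm_num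
      rw [h6] at h5
      exact h5
    apply mem_closure_of_tendsto hcont
    filter_upwards [eventually_gt_atTop 1] with r hr
    refine ⟨r, hr, ?_⟩
    dsimp only
    have hr0 : 0 < r := by linarith
    rw [I.ψ_eq hd hfix]
    · unfold κ
      have ha := I.a_ne
      have hrc : (r:ℂ) ≠ 0 := by exact_mod_cast hr0.ne'
      have h6 : (I.c + I.a * (r * w)) / I.a = r * (w + (I.c / I.a) * (r⁻¹ : ℝ)) := by
        push_cast; field_simp; ring
      rw [h6, norm_mul, Complex.norm_real, Real.norm_of_nonneg hr0.le]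
      have h7 : 1 + r * ‖w + (I.c / I.a) * (r⁻¹ : ℝ)‖ =
          r * (r⁻¹ + ‖w + (I.c / I.a) * (r⁻¹ : ℝ)‖) := by field_simp
      rw [h7, Complex.ofReal_mul, mul_div_mul_left _ _ hrc]
    · rw [norm_mul, h, Complex.norm_real, Real.norm_of_nonneg (by linarith)]
      linarith

theorem s_of_mem_closedRay {w u : ℂ} (hd : 2 ≤ d) (hfix : I.P.eval I.c = I.c)
    (hu : ‖u‖ = 1) (hw : w ∈ I.closedRay u) : ‖w‖ ≤ 1 ∧ I.s w = u := by
  have h1 : IsClosed {w | ‖w‖ ≤ 1 ∧ I.s w = u} := by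
    have h2 := I.s_cont.preimage_isClosed_of_isClosed isClosed_closedBall
      (isClosed_singleton (x := u))
    convert h2 using 1
    ext x
    simp
  refine closure_minimal ?_ h1 hw
  rintro _ ⟨r, hr, rfl⟩
  have hr1 : (1:ℝ) < r := hr
  refine ⟨(I.κ_norm_lt _).le, ?_⟩
  dsimp only
  have h3 : ‖(r:ℂ) * u‖ = r := by
    rw [norm_mul, hu, Complex.norm_real, Real.norm_of_nonneg (by linarith), mul_one]
  rw [I.ψ_eq hd hfix (by rw [h3]; exact hr1), I.s_κ, add_sub_cancel_left, mul_comm I.a,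
    mul_div_cancel_right₀ _ I.a_ne, S_of_ge (by rw [h3]; exact hr1.le), h3]
  have : (r:ℂ) ≠ 0 := by exact_mod_cast (by linarith : (0:ℝ) < r).ne'
  rw [mul_div_cancel_left₀ _ this]

theorem s_inj {w w' : ℂ} (hw : ‖w‖ ≤ 1) (hw' : ‖w'‖ ≤ 1) (h : I.s w = I.s w')
    (hlt : ‖I.s w‖ < 1) : w = w' := by
  have h1 : ‖w‖ < 1 := by
    rcases hw.lt_or_eq with h1 | h1
    · exact h1
    · rw [I.s_sphere h1, h1] at hlt; linarith
  have h2 : ‖w'‖ < 1 := by
    rcases hw'.lt_or_eq with h2 | h2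
    · exact h2
    · rw [h, I.s_sphere h2, h2] at hlt; linarith
  rw [I.s_of_lt h1] at h hlt
  rw [I.s_of_lt h2] at h
  have key : ∀ x : ℂ, ‖S x‖ < 1 → S x = x := by
    intro x hx
    rcases le_total ‖x‖ 1 with h3 | h3
    · exact S_of_le h3
    · exfalso
      rw [S_of_ge h3, norm_div, Complex.norm_real, Real.norm_of_nonneg (norm_nonneg _),
        div_self (by linarith)] at hx
      linarith
  have h4 := key _ hlt
  rw [h] at hlt
  have h5 := key _ hlt
  rw [h4, h5] at h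
  have h6 : I.κinv w = I.κinv w' := by
    have ha := I.a_ne
    field_simp at h
    linear_combination h
  rw [← I.κ_κinv h1, ← I.κ_κinv h2, h6]

theorem s_surj (t : ℂ) (ht : ‖t‖ ≤ 1) : ∃ w, ‖w‖ ≤ 1 ∧ I.s w = t := by
  refine ⟨I.κ (I.c + I.a * t), (I.κ_norm_lt _).le, ?_⟩
  rw [I.s_κ, add_sub_cancel_left, mul_comm I.a, mul_div_cancel_right₀ _ I.a_ne, S_of_le ht]

theorem disc_norm_le {w : ℂ} (hw : ‖w‖ ≤ 1) : ‖I.disc w‖ ≤ 1 := by
  unfold disc
  split_ifs
  · exact (I.κ_norm_lt _).le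
  · rw [norm_pow]; exact pow_le_one₀ (norm_nonneg _) hw

theorem s_disc {w : ℂ} (hw : ‖w‖ ≤ 1) (hd : 2 ≤ d) (hfix : I.P.eval I.c = I.c) :
    I.s (I.disc w) = I.s w ^ d := by
  unfold disc
  split_ifs with h
  · rw [I.s_κ, I.s_of_lt h, ← S_pow]
    congr 1
    set x := (I.κinv w - I.c) / I.a with hx
    have h1 : I.κinv w = I.c + I.a * x := by
      rw [hx, mul_div_cancel₀ _ I.a_ne, add_sub_cancel]
    rw [h1, I.eval_affine hd hfix, add_sub_cancel_left, mul_comm I.a,
      mul_div_cancel_right₀ _ I.a_ne]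
  · have h1 : ‖w‖ = 1 := le_antisymm hw (not_lt.mp h)
    rw [I.s_sphere h1, I.s_sphere (by rw [norm_pow, h1, one_pow])]

/-- the radius of a disc which contains the inner ends of the rays -/
noncomputable def ρ : ℝ := (1 + ‖I.c / I.a‖) / (2 + ‖I.c / I.a‖)

theorem ρ_lt : I.ρ < 1 := by
  unfold ρ
  rw [div_lt_one (by positivity)]
  linarith

theorem ρ_nonneg : 0 ≤ I.ρ := by
  unfold ρ; positivity

theorem exists_inner_end {u : ℂ} (hd : 2 ≤ d) (hfix : I.P.eval I.c = I.c) (hu : ‖u‖ = 1) :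
    ∃ w ∈ closedBall (0:ℂ) I.ρ, w ∈ I.closedRay u := by
  refine ⟨I.κ (I.c + I.a * u), ?_, ?_⟩
  · rw [mem_closedBall_zero_iff, κ_norm]
    have h1 : ‖(I.c + I.a * u) / I.a‖ ≤ 1 + ‖I.c / I.a‖ := by
      have h2 : (I.c + I.a * u) / I.a = I.c / I.a + u := by
        have := I.a_ne
        field_simp
      rw [h2]
      have := norm_add_le (I.c / I.a) u
      rw [hu] at this
      linarith
    unfold ρ
    rw [div_le_div_iff₀ (by positivity) (by positivity)]
    nlinarith [norm_nonneg ((I.c + I.a * u) / I.a), norm_nonneg (I.c / I.a)]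
  · have h1 : I.s (I.κ (I.c + I.a * u)) = u := by
      rw [I.s_κ, add_sub_cancel_left, mul_comm I.a, mul_div_cancel_right₀ _ I.a_ne,
        S_of_le hu.le]
    have h2 := I.s_mem_closedRay (I.κ_norm_lt (I.c + I.a * u)).le hd hfix (by rw [h1, hu])
    rwa [h1] at h2

end Inner

end Pool.Agent.Helper620_Tuning
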