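import Pool.Agent.Helper620_Tuning.Next
import Pool.Agent.Helper620_Tuning.FixedInner

/-!
# Tuning with a polynomial `P₂` whose critical point is fixed: the collapsing map
-/

set_option autoImplicit false

open Polynomial Set Filter Topology Metric

namespace Pool.Agent.Helper620_Tuning

namespace Outer

variable {O : Outer} (I : Inner O.d)

open Classical in
/-- the collapsing map of the plane -/
noncomputable def Ψ (z : ℂ) : ℂ :=
  if h : ∃ n, O.IsCopy n (connectedComponentIn O.bas z) then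
    O.sec h.choose (connectedComponentIn O.bas z) (I.s (O.coord ((ev O.P)^[h.choose] z)))
  else z

theorem Ψ_off {z : ℂ} (hz : z ∉ O.bas) : Ψ I z = z := by
  unfold Ψ
  rw [dif_neg]
  rintro ⟨n, hn⟩
  obtain ⟨y, hy⟩ := hn.nonempty
  rw [connectedComponentIn_eq_empty hz] at hy
  exact hy

theorem coord_norm {n : ℕ} {U : Set ℂ} (hU : O.IsCopy n U) {z : ℂ} (hz : z ∈ closure U) :
    ‖O.coord ((ev O.P)^[n] z)‖ ≤ 1 := by
  have := hU.coord_mem hz
  rwa [mem_closedBall_zero_iff] at this

theorem coord_norm_eq {n : ℕ} {U : Set ℂ} (hU : O.IsCopy n U) {z : ℂ} (hz : z ∈ closure U)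
    (hz2 : z ∉ U) : ‖O.coord ((ev O.P)^[n] z)‖ = 1 := by
  apply le_antisymm (coord_norm hU hz)
  by_contra h
  push Not at h
  apply hz2
  rw [← hU.coord_mem_ball_iff hz, mem_ball_zero_iff]
  exact h

theorem notMem_bas {n : ℕ} {U : Set ℂ} (hU : O.IsCopy n U) {z : ℂ} (hz : z ∈ closure U)
    (hz2 : z ∉ U) : z ∉ O.bas := fun h => hz2 (hU.closure_inter hz h)

theorem Ψ_copy {n : ℕ} {U : Set ℂ} (hU : O.IsCopy n U) {z : ℂ} (hz : z ∈ closure U) :
    Ψ I z = O.sec n U (I.s (O.coord ((ev O.P)^[n] z))) := by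
  by_cases hz2 : z ∈ U
  · have h1 := hU.eq_comp hz2
    have h2 : ∃ m, O.IsCopy m (connectedComponentIn O.bas z) := ⟨n, by rw [h1]; exact hU⟩
    unfold Ψ
    rw [dif_pos h2]
    have h3 := h2.choose_spec
    generalize h2.choose = m at h3
    rw [h1] at h3 ⊢
    rw [h3.unique hU]
  · rw [Ψ_off I (notMem_bas hU hz hz2), I.s_sphere (coord_norm_eq hU hz hz2), hU.sec_coord hz]

theorem s_mem {n : ℕ} {U : Set ℂ} (hU : O.IsCopy n U) {z : ℂ} (hz : z ∈ closure U) :
    I.s (O.coord ((ev O.P)^[n] z)) ∈ closedBall (0:ℂ) 1 := by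
  rw [mem_closedBall_zero_iff]
  exact I.s_norm_le (coord_norm hU hz)

theorem Ψ_mem {n : ℕ} {U : Set ℂ} (hU : O.IsCopy n U) {z : ℂ} (hz : z ∈ closure U) :
    Ψ I z ∈ closure U := by
  rw [Ψ_copy I hU hz]
  exact hU.sec_mem (s_mem I hU hz)

variable (hfix : I.P.eval I.c = I.c)

include hfix

theorem rel_imp (z z' : ℂ) (h : Rel O I z z') : Ψ I z = Ψ I z' := by
  obtain ⟨n, U, hU, hz, hz', u, hu, h1, h2⟩ := h
  rw [Ψ_copy I hU hz, Ψ_copy I hU hz', (I.s_of_mem_closedRay O.two_le_d hfix hu h1).2,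
    (I.s_of_mem_closedRay O.two_le_d hfix hu h2).2]

theorem mk_eq {z : ℂ} (hz : Ψ I z ∉ O.bas) :
    Quot.mk (Rel O I) z = Quot.mk (Rel O I) (Ψ I z) := by
  by_cases hb : z ∈ O.bas
  · obtain ⟨n, hU⟩ := exists_copy hb
    set U := connectedComponentIn O.bas z with hUdef
    have hzU : z ∈ U := mem_connectedComponentIn hb
    have hzc := subset_closure hzU
    have h1 := Ψ_copy I hU hzc
    have h2 := s_mem I hU hzc
    have h3 : ‖I.s (O.coord ((ev O.P)^[n] z))‖ = 1 := by
      rw [mem_closedBall_zero_iff] at h2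
      apply le_antisymm h2
      by_contra hcon
      push Not at hcon
      apply hz
      rw [h1]
      exact hU.sub_bas ((hU.sec_mem_iff (by rw [mem_closedBall_zero_iff]; exact h2)).mpr
        (by rw [mem_ball_zero_iff]; exact hcon))
    apply Quot.sound
    refine ⟨n, U, hU, hzc, Ψ_mem I hU hzc, _, h3, ?_, ?_⟩
    · exact I.s_mem_closedRay (coord_norm hU hzc) O.two_le_d hfix h3
    · rw [h1, hU.coord_sec h2]
      have h4 := I.s_mem_closedRay (w := I.s (O.coord ((ev O.P)^[n] z))) h3.le O.two_le_d hfix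
        (by rw [I.s_sphere h3, h3])
      rwa [I.s_sphere h3] at h4
  · rw [Ψ_off I hb]

theorem imp_mk {z z' : ℂ} (h : Ψ I z = Ψ I z') :
    Quot.mk (Rel O I) z = Quot.mk (Rel O I) z' := by
  by_cases hb : Ψ I z ∈ O.bas
  · have hz : z ∈ O.bas := by
      by_contra hcon
      rw [Ψ_off I hcon] at hb
      exact hcon hb
    have hz' : z' ∈ O.bas := by
      by_contra hcon
      rw [h, Ψ_off I hcon] at hb
      exact hcon hb
    obtain ⟨n, hU⟩ := exists_copy hz
    obtain ⟨n', hU'⟩ := exists_copy hz'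
    set U := connectedComponentIn O.bas z with hUdef
    set U' := connectedComponentIn O.bas z' with hUdef'
    have hzU : z ∈ closure U := subset_closure (mem_connectedComponentIn hz)
    have hzU' : z' ∈ closure U' := subset_closure (mem_connectedComponentIn hz')
    have h1 : Ψ I z ∈ U := hU.closure_inter (Ψ_mem I hU hzU) hb
    have h2 : Ψ I z ∈ U' := by
      rw [h]
      exact hU'.closure_inter (Ψ_mem I hU' hzU') (by rwa [← h])
    have h3 : U = U' := hU.eq_of_inter hU' h1 h2
    rw [← h3] at hU' hzU'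
    have h4 := hU.unique hU'
    rw [← h4] at hU'
    have h5 := h
    rw [Ψ_copy I hU hzU, Ψ_copy I hU hzU'] at h5
    have h6 := hU.sec_injOn (s_mem I hU hzU) (s_mem I hU hzU') h5
    have h7 : ‖I.s (O.coord ((ev O.P)^[n] z))‖ < 1 := by
      rw [Ψ_copy I hU hzU, hU.sec_mem_iff (s_mem I hU hzU)] at h1
      rwa [mem_ball_zero_iff] at h1
    have h8 := I.s_inj (coord_norm hU hzU) (coord_norm hU hzU') h6 h7
    rw [hU.coord_injOn hzU hzU' h8]
  · rw [mk_eq I hfix hb, h, ← mk_eq I hfix (by rwa [← h])]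

omit hfix in
theorem Ψ_surj : Function.Surjective (Ψ (O := O) I) := by
  intro y
  by_cases hb : y ∈ O.bas
  · obtain ⟨n, hU⟩ := exists_copy hb
    set U := connectedComponentIn O.bas y with hUdef
    have hy : y ∈ closure U := subset_closure (mem_connectedComponentIn hb)
    obtain ⟨w, hw, hw2⟩ := I.s_surj _ (coord_norm hU hy)
    have hw' : w ∈ closedBall (0:ℂ) 1 := by rwa [mem_closedBall_zero_iff]
    refine ⟨O.sec n U w, ?_⟩
    rw [Ψ_copy I hU (hU.sec_mem hw'), hU.coord_sec hw', hw2, hU.sec_coord hy]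
  · exact ⟨y, Ψ_off I hb⟩

omit hfix in
theorem Ψ_contOn {n : ℕ} {U : Set ℂ} (hU : O.IsCopy n U) : ContinuousOn (Ψ I) (closure U) := by
  have h1 : ContinuousOn (fun z => O.sec n U (I.s (O.coord ((ev O.P)^[n] z)))) (closure U) := by
    apply hU.sec_cont.comp _ (fun z hz => s_mem I hU hz)
    exact I.s_cont.comp hU.coord_cont (fun z hz => hU.coord_mem hz)
  exact h1.congr fun z hz => Ψ_copy I hU hz

omit hfix in
theorem Ψ_cont (hnull : O.Null) : Continuous (Ψ (O := O) I) := by
  rw [continuous_iff_continuousAt]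
  intro z
  by_cases hb : z ∈ O.bas
  · obtain ⟨n, hU⟩ := exists_copy hb
    exact ((Ψ_contOn I hU).mono subset_closure).continuousAt
      (hU.isOpen.mem_nhds (mem_connectedComponentIn hb))
  · rw [Metric.continuousAt_iff']
    intro ε hε
    have hF := hnull (ε / 2) (by linarith)
    have h1 : ∀ᶠ x in 𝓝 z, ∀ U ∈ {U : Set ℂ | (∃ n, O.IsCopy n U) ∧ ε / 2 ≤ Metric.diam U},
        x ∈ U → dist (Ψ I x) (Ψ I z) < ε := by
      rw [eventually_all_finite hF]
      rintro U ⟨⟨n, hU⟩, -⟩
      by_cases hz : z ∈ closure U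
      · have h2 := Metric.continuousWithinAt_iff'.mp (Ψ_contOn I hU z hz) ε hε
        rw [eventually_nhdsWithin_iff] at h2
        filter_upwards [h2] with x hx hxU
        exact hx (subset_closure hxU)
      · filter_upwards [isClosed_closure.isOpen_compl.mem_nhds hz] with x hx hxU
        exact absurd (subset_closure hxU) hx
    filter_upwards [h1, ball_mem_nhds z (show 0 < ε / 2 by linarith)] with x hx hx2
    rw [mem_ball] at hx2
    by_cases hxb : x ∈ O.bas
    · obtain ⟨n, hU⟩ := exists_copy hxb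
      set U := connectedComponentIn O.bas x with hUdef
      have hxU : x ∈ U := mem_connectedComponentIn hxb
      by_cases hd : ε / 2 ≤ Metric.diam U
      · exact hx U ⟨⟨n, hU⟩, hd⟩ hxU
      · push Not at hd
        rw [Ψ_off I hb]
        have h3 : dist (Ψ I x) x ≤ Metric.diam (closure U) :=
          Metric.dist_le_diam_of_mem hU.isCompact_closure.isBounded
            (Ψ_mem I hU (subset_closure hxU)) (subset_closure hxU)
        rw [Metric.diam_closure] at h3
        have h4 := dist_triangle (Ψ I x) x z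
        linarith
    · rw [Ψ_off I hb, Ψ_off I hxb]
      linarith

omit hfix in
theorem Ψ_bound : ∃ M, ∀ z, dist (Ψ (O := O) I z) z ≤ M := by
  obtain ⟨R, hR⟩ := filledJulia_bdd O.two_le_degree
  refine ⟨2 * max R 0, fun z => ?_⟩
  have h0 : (0:ℝ) ≤ max R 0 := le_max_right _ _
  by_cases hb : z ∈ O.bas
  · obtain ⟨n, hU⟩ := exists_copy hb
    set U := connectedComponentIn O.bas z with hUdef
    have hzU : z ∈ U := mem_connectedComponentIn hb
    have h1 : ∀ x ∈ closure U, ‖x‖ ≤ max R 0 := by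
      intro x hx
      have h2 : closure U ⊆ closedBall (0:ℂ) (max R 0) := by
        apply closure_minimal _ isClosed_closedBall
        intro y hy
        rw [mem_closedBall_zero_iff]
        exact (hR y (O.bas_sub_filled (hU.sub_bas hy))).trans (le_max_left _ _)
      have := h2 hx
      rwa [mem_closedBall_zero_iff] at this
    rw [dist_eq_norm]
    have h2 := h1 _ (Ψ_mem I hU (subset_closure hzU))
    have h3 := h1 _ (subset_closure hzU)
    have h4 := norm_sub_le (Ψ I z) z
    linarith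
  · rw [Ψ_off I hb, dist_self]; linarith

omit hfix in
theorem Ψ_closed (hnull : O.Null) : IsClosedMap (Ψ (O := O) I) := by
  have h1 : IsProperMap (Ψ (O := O) I) := by
    rw [isProperMap_iff_tendsto_cocompact]
    refine ⟨Ψ_cont I hnull, ?_⟩
    rw [← Metric.cobounded_eq_cocompact, ← tendsto_norm_atTop_iff_cobounded]
    obtain ⟨M, hM⟩ := Ψ_bound (O := O) I
    have h2 : Tendsto (fun z : ℂ => ‖z‖ - M) (Bornology.cobounded ℂ) atTop :=
      tendsto_atTop_add_const_right _ _ tendsto_norm_cobounded_atTop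
    refine tendsto_atTop_mono (fun z => ?_) h2
    have h3 := hM z
    rw [dist_comm, dist_eq_norm] at h3
    have h4 := norm_sub_norm_le z (Ψ I z)
    linarith
  exact h1.isClosedMap

omit hfix in
theorem Ψ_next {z : ℂ} (hz : z ∉ closure O.B) : Ψ I (ev O.P z) = ev O.P (Ψ I z) := by
  by_cases hb : z ∈ O.bas
  · obtain ⟨n, hU⟩ := exists_copy hb
    set U := connectedComponentIn O.bas z with hUdef
    have hzU : z ∈ U := mem_connectedComponentIn hb
    cases n with
    | zero =>
      exfalso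
      have := hU.iter_mem hzU
      exact hz (subset_closure (by simpa using this))
    | succ n =>
      have hV := hU.next hzU
      set V := connectedComponentIn O.bas (ev O.P z) with hV'
      have hzV : ev O.P z ∈ V := mem_connectedComponentIn (O.iter_mem_bas hb 1)
      rw [Ψ_copy I hV (subset_closure hzV), Ψ_copy I hU (subset_closure hzU),
        hU.sec_next hV hzU hzV (s_mem I hU (subset_closure hzU)), ← Function.iterate_succ_apply]
  · rw [Ψ_off I hb]
    have h1 : ev O.P z ∉ O.bas := iter_notMem_bas hb 1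
    rw [Ψ_off I h1]

theorem Ψ_tmap (z : ℂ) : Ψ I (tmap O I z) = ev O.P (Ψ I z) := by
  by_cases hz : z ∈ closure O.B
  · have h0 : ‖O.coord z‖ ≤ 1 := by
      have := O.coord_mem hz
      rwa [mem_closedBall_zero_iff] at this
    have hd := I.disc_norm_le h0
    obtain ⟨h1, h2⟩ := tmap_closure I hz hd
    rw [Ψ_copy I isCopy_B1 h1, h2, O.coord_β (by rwa [mem_closedBall_zero_iff]),
      I.s_disc h0 O.two_le_d hfix, Ψ_copy I O.isCopy_B hz]
    have h3 : I.s (O.coord ((ev O.P)^[0] z)) ∈ closedBall (0:ℂ) 1 := s_mem I O.isCopy_B hz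
    rw [sec_zero h3, ev_β h3]
    rfl
  · rw [tmap_off I hz, Ψ_next I hz]

/-- If the components of the basin form a null family, the tuned map is conjugate to `P₁`. -/
theorem conj_of_null (hnull : O.Null) : TunedConj O I O.P := by
  let h0 : Quot (Rel O I) → ℂ := Quot.lift (Ψ I) (rel_imp I hfix)
  have h1 : ∀ z, h0 (Quot.mk _ z) = Ψ I z := fun z => rfl
  have hcont : Continuous h0 := continuous_quot_lift _ (Ψ_cont I hnull)
  have hclosed : IsClosedMap h0 := by
    intro A hA
    have h2 : h0 '' A = Ψ I '' (Quot.mk (Rel O I) ⁻¹' A) := by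
      ext y
      constructor
      · rintro ⟨q, hq, rfl⟩
        obtain ⟨z, rfl⟩ := Quot.exists_rep q
        exact ⟨z, hq, rfl⟩
      · rintro ⟨z, hz, rfl⟩
        exact ⟨Quot.mk _ z, hz, rfl⟩
    rw [h2]
    exact Ψ_closed I hnull _ (hA.preimage continuous_quot_mk)
  have hbij : Function.Bijective h0 := by
    constructor
    · intro p q hpq
      obtain ⟨z, rfl⟩ := Quot.exists_rep p
      obtain ⟨z', rfl⟩ := Quot.exists_rep q
      exact imp_mk I hfix hpq
    · intro y
      obtain ⟨z, hz⟩ := Ψ_surj (O := O) I y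
      exact ⟨Quot.mk _ z, hz⟩
  have hhom : IsHomeomorph h0 := isHomeomorph_iff_continuous_isClosedMap_bijective.mpr
    ⟨hcont, hclosed, hbij⟩
  refine ⟨hhom.homeomorph, fun z => ?_⟩
  show Ψ I (tmap O I z) = O.P.eval (Ψ I z)
  exact Ψ_tmap I hfix z

/-- If the quotient space is Hausdorff, the components of the basin form a null family. -/
theorem null_of_t2 [T2Space (Quot (Rel O I))] : O.Null := by
  intro ε hε
  by_contra hinf
  have hinf' : {U : Set ℂ | (∃ n, O.IsCopy n U) ∧ ε ≤ Metric.diam U}.Infinite := hinf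
  let e := hinf'.natEmbedding
  set V : ℕ → Set ℂ := fun j => (e j : Set ℂ) with hV
  have hVinj : Function.Injective V := fun i j hij => e.injective (Subtype.ext hij)
  have hV2 : ∀ j, (∃ n, O.IsCopy n (V j)) ∧ ε ≤ Metric.diam (V j) := fun j => (e j).2
  choose n hn using fun j => (hV2 j).1
  have hdiam : ∀ j, ε ≤ Metric.diam (V j) := fun j => (hV2 j).2
  -- the cores shrink
  have hcore : ∀ δ > 0, ∀ᶠ j in atTop, ∀ x ∈ closedBall (0:ℂ) I.ρ, ∀ y ∈ closedBall (0:ℂ) I.ρ,
      dist (O.sec (n j) (V j) x) (O.sec (n j) (V j) y) < δ := by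
    intro δ hδ
    have h1 := (finite_core (O := O) I.ρ_lt hδ).preimage (hVinj.injOn (s := univ ∩ V ⁻¹'
      {U : Set ℂ | ∃ n, O.IsCopy n U ∧ ∃ x ∈ closedBall (0:ℂ) I.ρ, ∃ y ∈ closedBall (0:ℂ) I.ρ,
      δ ≤ dist (O.sec n U x) (O.sec n U y)})|>.mono (by simp))
    rw [← Nat.cofinite_eq_atTop]
    filter_upwards [h1.compl_mem_cofinite] with j hj x hx y hy
    by_contra hcon
    push Not at hcon
    exact hj ⟨n j, hn j, x, hx, y, hy, hcon⟩
  -- far points on the boundary
  have hfar : ∀ j, ∃ u : ℂ, ‖u‖ = 1 ∧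
      ε / 4 ≤ dist (O.sec (n j) (V j) u) (O.sec (n j) (V j) 0) := by
    intro j
    by_contra hcon
    push Not at hcon
    have h1 : DiffContOnCl ℂ (fun w => O.sec (n j) (V j) w - O.sec (n j) (V j) 0)
        (ball (0:ℂ) 1) := by
      refine ⟨(hn j).sec_diff.sub_const _, ?_⟩
      rw [closure_ball _ one_ne_zero]
      exact (hn j).sec_cont.sub continuousOn_const
    have h2 : ∀ w ∈ closedBall (0:ℂ) 1,
        dist (O.sec (n j) (V j) w) (O.sec (n j) (V j) 0) ≤ ε / 4 := by
      intro w hw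
      rw [dist_eq_norm]
      apply Complex.norm_le_of_forall_mem_frontier_norm_le isBounded_ball h1
      · intro u hu
        rw [frontier_ball _ one_ne_zero, mem_sphere_zero_iff_norm] at hu
        rw [← dist_eq_norm]
        exact (hcon u hu).le
      · rwa [closure_ball _ one_ne_zero]
    have h3 : Metric.diam (V j) ≤ ε / 2 := by
      apply Metric.diam_le_of_forall_dist_le (by linarith)
      intro x hx y hy
      rw [← (hn j).sec_coord (subset_closure hx), ← (hn j).sec_coord (subset_closure hy)]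
      have h4 := h2 _ ((hn j).coord_mem (subset_closure hx))
      have h5 := h2 _ ((hn j).coord_mem (subset_closure hy))
      rw [dist_comm] at h5
      have h6 := dist_triangle (O.sec (n j) (V j) (O.coord ((ev O.P)^[n j] x)))
        (O.sec (n j) (V j) 0) (O.sec (n j) (V j) (O.coord ((ev O.P)^[n j] y)))
      linarith
    linarith [hdiam j]
  choose u hu1 hu2 using hfar
  choose w hw1 hw2 using fun j => I.exists_inner_end (u := u j) O.two_le_d hfix (hu1 j)
  -- extraction of a limit
  obtain ⟨R, hR⟩ := filledJulia_bdd O.two_le_degree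
  have hbd : ∀ j, ∀ x ∈ closure (V j), x ∈ closedBall (0:ℂ) R := by
    intro j x hx
    have h2 : closure (V j) ⊆ closedBall (0:ℂ) R := by
      apply closure_minimal _ isClosed_closedBall
      intro y hy
      rw [mem_closedBall_zero_iff]
      exact hR y (O.bas_sub_filled ((hn j).sub_bas hy))
    exact h2 hx
  have h0b : (0:ℂ) ∈ closedBall (0:ℂ) 1 := mem_closedBall_self zero_le_one
  have hub : ∀ j, u j ∈ closedBall (0:ℂ) 1 := fun j => by
    rw [mem_closedBall_zero_iff]; exact (hu1 j).le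
  have hwb : ∀ j, w j ∈ closedBall (0:ℂ) 1 := fun j =>
    closedBall_subset_closedBall I.ρ_lt.le (hw1 j)
  have hcomp : IsCompact (closedBall (0:ℂ) R ×ˢ closedBall (0:ℂ) R) :=
    (isCompact_closedBall _ _).prod (isCompact_closedBall _ _)
  obtain ⟨⟨x, p⟩, -, φ, hφ, hlim⟩ := hcomp.tendsto_subseq
    (x := fun j => (O.sec (n j) (V j) (u j), O.sec (n j) (V j) 0))
    (fun j => ⟨hbd j _ ((hn j).sec_mem (hub j)), hbd j _ ((hn j).sec_mem h0b)⟩)
  have hx : Tendsto (fun j => O.sec (n (φ j)) (V (φ j)) (u (φ j))) atTop (𝓝 x) :=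
    (continuous_fst.tendsto _).comp hlim
  have hp : Tendsto (fun j => O.sec (n (φ j)) (V (φ j)) 0) atTop (𝓝 p) :=
    (continuous_snd.tendsto _).comp hlim
  have hq : Tendsto (fun j => O.sec (n (φ j)) (V (φ j)) (w (φ j))) atTop (𝓝 p) := by
    apply hp.congr_dist
    rw [Metric.tendsto_atTop]
    intro δ hδ
    obtain ⟨N, hN⟩ := eventually_atTop.mp (hφ.tendsto_atTop.eventually (hcore δ hδ))
    refine ⟨N, fun j hj => ?_⟩
    rw [Real.dist_0_eq_abs, abs_of_nonneg dist_nonneg]
    exact hN j hj 0 (mem_closedBall_self I.ρ_nonneg) _ (hw1 _)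
  have hxp : ε / 4 ≤ dist x p := by
    apply ge_of_tendsto (hx.dist hp)
    exact Eventually.of_forall fun j => hu2 _
  -- the limits are off the basin
  have hxb : x ∉ O.bas := by
    have h1 : IsClosed (O.bas)ᶜ := O.isOpen_bas.isClosed_compl
    apply h1.mem_of_tendsto hx
    apply Eventually.of_forall
    intro j
    apply notMem_bas (hn _) ((hn _).sec_mem (hub _))
    rw [(hn _).sec_mem_iff (hub _), mem_ball_zero_iff, hu1]
    exact lt_irrefl _
  have hpb : p ∉ O.bas := by
    intro hb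
    obtain ⟨m, hW⟩ := exists_copy hb
    have h1 := hp.eventually (hW.isOpen.mem_nhds (mem_connectedComponentIn hb))
    obtain ⟨N, hN⟩ := eventually_atTop.mp h1
    have h2 : ∀ j ≥ N, V (φ j) = connectedComponentIn O.bas p := by
      intro j hj
      apply (hn _).eq_of_inter hW _ (hN j hj)
      rw [(hn _).sec_mem_iff h0b]
      exact mem_ball_self one_pos
    have h3 := (h2 N le_rfl).trans (h2 (N + 1) (by omega)).symm
    have h4 := hφ.injective (hVinj h3)
    omega
  have hmk : Quot.mk (Rel O I) x = Quot.mk (Rel O I) p := by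
    have h1 : Tendsto (fun j => Quot.mk (Rel O I) (O.sec (n (φ j)) (V (φ j)) (u (φ j)))) atTop
        (𝓝 (Quot.mk _ x)) := (continuous_quot_mk.tendsto _).comp hx
    have h2 : Tendsto (fun j => Quot.mk (Rel O I) (O.sec (n (φ j)) (V (φ j)) (w (φ j)))) atTop
        (𝓝 (Quot.mk _ p)) := (continuous_quot_mk.tendsto _).comp hq
    refine tendsto_nhds_unique h1 (h2.congr fun j => ?_)
    apply Quot.sound
    refine ⟨n (φ j), V (φ j), hn _, (hn _).sec_mem (hwb _), (hn _).sec_mem (hub _), u (φ j),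
      hu1 _, ?_, ?_⟩
    · rw [(hn _).coord_sec (hwb _)]; exact hw2 _
    · rw [(hn _).coord_sec (hub _)]
      have h4 := I.s_mem_closedRay (w := u (φ j)) (hu1 _).le O.two_le_d hfix
        (by rw [I.s_sphere (hu1 _), hu1])
      rwa [I.s_sphere (hu1 _)] at h4
  have h1 : Ψ I x = Ψ I p := congrArg (Quot.lift (Ψ I) (rel_imp I hfix)) hmk
  rw [Ψ_off I hxb, Ψ_off I hpb] at h1
  rw [h1, dist_self] at hxp
  linarith

end Outer

end Pool.Agent.Helper620_Tuning
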