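import Pool.Agent.Helper620_Tuning.Branch
import Pool.Agent.Helper620_Tuning.Collapse

/-!
# The basin components shrink if the other critical orbits stay away from `B`
-/

set_option autoImplicit false

open Polynomial Set Filter Topology Metric

namespace Pool.Agent.Helper620_Tuning

namespace Outer

variable {O : Outer}

theorem exists_crit {m : ℕ} {z : ℂ} (h : deriv ((ev O.P)^[m]) z = 0) :
    ∃ i < m, O.P.derivative.eval ((ev O.P)^[i] z) = 0 := by
  induction m with
  | zero => simp at h
  | succ m ih =>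
    rw [Function.iterate_succ'] at h
    rw [deriv_comp z ((ev_diff O.P) _) ((ev_iter_diff O.P m) z)] at h
    rcases mul_eq_zero.mp h with h1 | h1
    · refine ⟨m, by omega, ?_⟩
      have : deriv (ev O.P) ((ev O.P)^[m] z) = O.P.derivative.eval ((ev O.P)^[m] z) := by
        unfold ev
        exact O.P.deriv
      rw [← this]; exact h1
    · obtain ⟨i, hi, h2⟩ := ih h1
      exact ⟨i, by omega, h2⟩

theorem orbit_ω_finite : (range fun n : ℕ => (ev O.P)^[n] O.ω).Finite := by
  have h1 : (range fun n : ℕ => (ev O.P)^[n] O.ω) ⊆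
      (fun n : ℕ => (ev O.P)^[n] O.ω) '' (Finset.range O.k) := by
    rintro _ ⟨n, rfl⟩
    refine ⟨n % O.k, by simpa using Nat.mod_lt _ O.k_pos, ?_⟩
    have h2 : Function.IsPeriodicPt (ev O.P) O.k O.ω := iter_k_ω
    exact h2.iterate_mod_apply n
  exact ((Finset.finite_toSet _).image _).subset h1

theorem exists_free_ball (haway : ∀ c, O.P.derivative.eval c = 0 → c ≠ O.ω →
      Disjoint (closure (range fun n : ℕ => (ev O.P)^[n] c)) (closure O.B))
    {v : ℂ} (hv : ‖v‖ = 1) : ∃ ρ > 0, ∀ (m : ℕ) (z : ℂ), (ev O.P)^[m] z ∈ ball (O.β v) ρ →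
      deriv ((ev O.P)^[m]) z ≠ 0 := by
  have hvb : v ∈ closedBall (0:ℂ) 1 := by rw [mem_closedBall_zero_iff, hv]
  have hvB : O.β v ∉ O.B := by
    intro h2
    have h3 := O.coord_mem_ball h2
    rw [O.coord_β hvb, mem_ball_zero_iff, hv] at h3
    exact lt_irrefl _ h3
  have hvbas : O.β v ∉ O.bas := fun hb =>
    hvB (O.isCopy_B.closure_inter (O.β_mem_closure hvb) hb)
  have hne : O.P.derivative ≠ 0 := by
    intro h
    have := natDegree_derivative O.P
    rw [h, natDegree_zero] at this
    have := O.two_le_degree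
    omega
  set F : Set ℂ := ⋃ c ∈ O.P.derivative.roots.toFinset,
    closure (range fun n : ℕ => (ev O.P)^[n] c) with hF
  have hFc : IsClosed F := by
    apply Set.Finite.isClosed_biUnion (Finset.finite_toSet _)
    intro c _
    exact isClosed_closure
  have hvF : O.β v ∈ Fᶜ := by
    rw [mem_compl_iff, hF, mem_iUnion₂]
    rintro ⟨c, hc, hcv⟩
    by_cases hcω : c = O.ω
    · rw [hcω, orbit_ω_finite.isClosed.closure_eq] at hcv
      obtain ⟨n, hn⟩ := hcv
      apply hvbas
      rw [← hn]
      exact O.iter_mem_bas O.ω_mem_bas n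
    · have hc' : O.P.derivative.eval c = 0 := by
        rw [Multiset.mem_toFinset, mem_roots hne] at hc
        exact hc
      exact Set.disjoint_left.mp (haway c hc' hcω) hcv (O.β_mem_closure hvb)
  obtain ⟨ρ, hρ, hρs⟩ := Metric.isOpen_iff.mp hFc.isOpen_compl _ hvF
  refine ⟨ρ, hρ, fun m z hz hder => ?_⟩
  obtain ⟨i, hi, hcrit⟩ := exists_crit hder
  apply hρs hz
  rw [hF, mem_iUnion₂]
  refine ⟨(ev O.P)^[i] z, ?_, subset_closure ⟨m - i, ?_⟩⟩
  · rw [Multiset.mem_toFinset, mem_roots hne]
    exact hcrit
  · dsimp only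
    rw [← Function.iterate_add_apply, Nat.sub_add_cancel hi.le]

/-- If the orbits of the critical points other than `ω` do not accumulate on the closure of `B`,
the components of the basin form a null family. -/
theorem null_of_away (haway : ∀ c, O.P.derivative.eval c = 0 → c ≠ O.ω →
      Disjoint (closure (range fun n : ℕ => (ev O.P)^[n] c)) (closure O.B)) : O.Null := by
  apply null_of_shrink
  intro v hv
  obtain ⟨ρ, hρ, hcrit⟩ := exists_free_ball haway hv
  exact shrink_at hv hρ hcrit

end Outer

end Pool.Agent.Helper620_Tuning
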