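import Pool.Agent.Helper620_Tuning.Defs

/-!
# Tuning: basic facts on the basin and its components
-/

set_option autoImplicit false

open Polynomial Set Filter Topology Metric

namespace Pool.Agent.Helper620_Tuning

theorem ev_cont (P : ℂ[X]) : Continuous (ev P) := P.continuous

theorem ev_iter_cont (P : ℂ[X]) (n : ℕ) : Continuous (ev P)^[n] := (ev_cont P).iterate n

theorem ev_diff (P : ℂ[X]) : Differentiable ℂ (ev P) := P.differentiable

theorem ev_iter_diff (P : ℂ[X]) (n : ℕ) : Differentiable ℂ (ev P)^[n] := by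
  induction n with
  | zero => exact differentiable_id
  | succ n ih =>
    rw [Function.iterate_succ']
    exact (ev_diff P).comp ih

theorem ev_iter_eq (P : ℂ[X]) (n : ℕ) (z : ℂ) :
    (ev P)^[n] z = ((fun q : ℂ[X] => P.comp q)^[n] X).eval z := by
  induction n with
  | zero => simp
  | succ n ih =>
    rw [Function.iterate_succ_apply', Function.iterate_succ_apply', ih]
    simp [ev, eval_comp]

theorem iter_natDegree (P : ℂ[X]) (n : ℕ) :
    ((fun q : ℂ[X] => P.comp q)^[n] X).natDegree = P.natDegree ^ n := by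
  induction n with
  | zero => simp
  | succ n ih =>
    rw [Function.iterate_succ_apply', natDegree_comp, ih, pow_succ, mul_comm]

/-- Escape radius. -/
theorem esc_radius {P : ℂ[X]} (hP : 2 ≤ P.natDegree) :
    ∃ R : ℝ, 1 ≤ R ∧ ∀ z : ℂ, R ≤ ‖z‖ → 2 * ‖z‖ ≤ ‖ev P z‖ := by
  have hdeg : 0 < P.divX.degree := by
    rw [← natDegree_pos_iff_degree_pos, natDegree_divX_eq_natDegree_tsub_one]
    omega
  have h1 := tendsto_norm_atTop P.divX hdeg (l := Filter.comap (fun z : ℂ => ‖z‖) Filter.atTop)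
    (z := fun z => z) Filter.tendsto_comap
  have h2 := h1.eventually (Filter.eventually_ge_atTop (3:ℝ))
  rw [Filter.eventually_comap] at h2
  obtain ⟨R1, hR1⟩ := Filter.eventually_atTop.mp h2
  refine ⟨max 1 (max R1 ‖P.coeff 0‖), le_max_left _ _, ?_⟩
  intro z hz
  have hz1 : R1 ≤ ‖z‖ := le_trans ((le_max_left _ _).trans (le_max_right _ _)) hz
  have hz2 : ‖P.coeff 0‖ ≤ ‖z‖ := le_trans ((le_max_right _ _).trans (le_max_right _ _)) hz
  have h3 := hR1 ‖z‖ hz1 z rfl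
  have h4 : ev P z = P.divX.eval z * z + P.coeff 0 := by
    unfold ev
    conv_lhs => rw [← divX_mul_X_add P]
    rw [eval_add, eval_mul, eval_X, eval_C]
  rw [h4]
  have h5 : ‖P.divX.eval z * z‖ - ‖P.coeff 0‖ ≤ ‖P.divX.eval z * z + P.coeff 0‖ := by
    have := norm_sub_norm_le (P.divX.eval z * z) (-P.coeff 0)
    rwa [norm_neg, sub_neg_eq_add] at this
  rw [norm_mul] at h5
  have h6 : 3 * ‖z‖ ≤ ‖P.divX.eval z‖ * ‖z‖ := by gcongr
  linarith

theorem esc_iter {P : ℂ[X]} {R : ℝ} (hR : 1 ≤ R) (h : ∀ z : ℂ, R ≤ ‖z‖ → 2 * ‖z‖ ≤ ‖ev P z‖)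
    {z : ℂ} (hz : R ≤ ‖z‖) (k : ℕ) : R * 2 ^ k ≤ ‖(ev P)^[k] z‖ := by
  induction k with
  | zero => simpa using hz
  | succ k ih =>
    rw [Function.iterate_succ_apply']
    have h1 : R ≤ ‖(ev P)^[k] z‖ := by
      have : (1:ℝ) ≤ 2 ^ k := one_le_pow₀ (by norm_num)
      nlinarith
    have h2 := h _ h1
    rw [pow_succ]
    linarith

theorem filledJulia_iff {P : ℂ[X]} {R : ℝ} (hR : 1 ≤ R)
    (h : ∀ z : ℂ, R ≤ ‖z‖ → 2 * ‖z‖ ≤ ‖ev P z‖) (z : ℂ) :
    z ∈ filledJulia P ↔ ∀ n : ℕ, ‖(ev P)^[n] z‖ ≤ R := by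
  constructor
  · rintro ⟨M, hM⟩ n
    by_contra hcon
    push Not at hcon
    obtain ⟨k, hk⟩ := pow_unbounded_of_one_lt M (show (1:ℝ) < 2 by norm_num)
    have h1 := esc_iter hR h hcon.le k
    rw [← Function.iterate_add_apply] at h1
    have h2 := hM (k + n)
    have : (0:ℝ) < 2 ^ k := by positivity
    nlinarith
  · intro hz
    exact ⟨R, hz⟩

theorem filledJulia_bdd {P : ℂ[X]} (hP : 2 ≤ P.natDegree) : ∃ R : ℝ, ∀ z ∈ filledJulia P, ‖z‖ ≤ R := by
  obtain ⟨R, hR, h⟩ := esc_radius hP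
  exact ⟨R, fun z hz => (filledJulia_iff hR h z).mp hz 0⟩

theorem filledJulia_closed {P : ℂ[X]} (hP : 2 ≤ P.natDegree) : IsClosed (filledJulia P) := by
  obtain ⟨R, hR, h⟩ := esc_radius hP
  have : filledJulia P = ⋂ n : ℕ, {z | ‖(ev P)^[n] z‖ ≤ R} := by
    ext z
    rw [filledJulia_iff hR h, Set.mem_iInter]
    rfl
  rw [this]
  exact isClosed_iInter fun n => isClosed_le (ev_iter_cont P n).norm continuous_const

namespace Outer

variable (O : Outer)

/-- The map `P₁`. -/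
def f : ℂ → ℂ := ev O.P

theorem coord_mem {z : ℂ} (hz : z ∈ closure O.B) : O.coord z ∈ closedBall (0:ℂ) 1 := by
  have : z ∈ O.β '' closedBall 0 1 := by rw [O.β_closedBall]; exact hz
  exact Function.invFunOn_mem this

theorem β_coord {z : ℂ} (hz : z ∈ closure O.B) : O.β (O.coord z) = z := by
  have : z ∈ O.β '' closedBall 0 1 := by rw [O.β_closedBall]; exact hz
  exact Function.invFunOn_eq this

theorem coord_β {w : ℂ} (hw : w ∈ closedBall (0:ℂ) 1) : O.coord (O.β w) = w := by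
  have h : O.β w ∈ closure O.B := by
    rw [B, ← O.β_closedBall]; exact mem_image_of_mem _ hw
  exact O.β_inj (O.coord_mem h) hw (O.β_coord h)

theorem β_mem_closure {w : ℂ} (hw : w ∈ closedBall (0:ℂ) 1) : O.β w ∈ closure O.B := by
  rw [B, ← O.β_closedBall]; exact mem_image_of_mem _ hw

theorem β_mem {w : ℂ} (hw : w ∈ ball (0:ℂ) 1) : O.β w ∈ O.B := by
  rw [B, ← O.β_ball]; exact mem_image_of_mem _ hw

theorem coord_mem_ball {z : ℂ} (hz : z ∈ O.B) : O.coord z ∈ ball (0:ℂ) 1 := by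
  have h : z ∈ O.β '' ball 0 1 := by rw [O.β_ball]; exact hz
  obtain ⟨w, hw, rfl⟩ := h
  rwa [O.coord_β (ball_subset_closedBall hw)]

theorem coord_mem_sphere {z : ℂ} (hz : z ∈ closure O.B) (hz' : z ∉ O.B) : ‖O.coord z‖ = 1 := by
  have h1 := O.coord_mem hz
  rw [mem_closedBall_zero_iff] at h1
  by_contra h2
  apply hz'
  rw [← O.β_coord hz]
  exact O.β_mem (by rw [mem_ball_zero_iff]; exact lt_of_le_of_ne h1 h2)

theorem isCompact_closure_B : IsCompact (closure O.B) := by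
  rw [B, ← O.β_closedBall]
  exact (isCompact_closedBall _ _).image_of_continuousOn O.β_cont

/-- The internal coordinate is continuous. -/
theorem coord_cont : ContinuousOn O.coord (closure O.B) := by
  rw [continuousOn_iff_isClosed]
  intro t ht
  refine ⟨O.β '' (t ∩ closedBall 0 1), ?_, ?_⟩
  · have : IsCompact (t ∩ closedBall (0:ℂ) 1) := (isCompact_closedBall _ _).inter_left ht
    exact (this.image_of_continuousOn (O.β_cont.mono inter_subset_right)).isClosed
  · ext z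
    constructor
    · rintro ⟨h1, h2⟩
      exact ⟨⟨O.coord z, ⟨h1, O.coord_mem h2⟩, O.β_coord h2⟩, h2⟩
    · rintro ⟨⟨w, ⟨h1, h2⟩, rfl⟩, h3⟩
      refine ⟨?_, h3⟩
      show O.coord (O.β w) ∈ t
      rwa [O.coord_β h2]

theorem ω_mem_bas : O.ω ∈ O.bas := by
  refine ⟨0, ?_⟩
  have h : ∀ n : ℕ, (ev O.P)^[O.k * n + 0] O.ω = O.ω := by
    intro n
    have h1 : Function.IsPeriodicPt (ev O.P) O.k O.ω := by
      rw [← O.period]; exact Function.isPeriodicPt_minimalPeriod _ _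
    rw [add_zero]
    exact (h1.mul_const n)
  simp_rw [h]
  exact tendsto_const_nhds

theorem ω_mem : O.ω ∈ O.B := mem_connectedComponentIn O.ω_mem_bas

theorem B_sub_bas : O.B ⊆ O.bas := connectedComponentIn_subset _ _

theorem isPreconnected_B : IsPreconnected O.B := isPreconnected_connectedComponentIn

theorem isOpen_B : IsOpen O.B := by
  rw [B, ← O.β_ball]
  have h1 : AnalyticOnNhd ℂ O.β (ball 0 1) := O.β_diff.analyticOnNhd isOpen_ball
  rcases h1.is_constant_or_isOpen (convex_ball (0:ℂ) 1).isPreconnected with ⟨w, hw⟩ | h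
  · exfalso
    have h0 : (0:ℂ) ∈ ball (0:ℂ) 1 := mem_ball_self one_pos
    have h2 : (1/2:ℂ) ∈ ball (0:ℂ) 1 := by
      rw [mem_ball_zero_iff]; norm_num
    have := O.β_inj (ball_subset_closedBall h0) (ball_subset_closedBall h2)
      ((hw _ h0).trans (hw _ h2).symm)
    norm_num at this
  · exact h _ Subset.rfl isOpen_ball

theorem β_iter {w : ℂ} (hw : w ∈ closedBall (0:ℂ) 1) (m : ℕ) :
    (ev O.P)^[O.k * m] (O.β w) = O.β (w ^ (O.d ^ m)) := by
  induction m with
  | zero => simp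
  | succ m ih =>
    have h1 : w ^ (O.d ^ m) ∈ closedBall (0:ℂ) 1 := by
      rw [mem_closedBall_zero_iff] at hw ⊢
      rw [norm_pow]
      exact pow_le_one₀ (norm_nonneg _) hw
    rw [Nat.mul_succ, Nat.add_comm, Function.iterate_add_apply, ih, O.β_conj _ h1, ← pow_mul,
      pow_succ]

theorem β_zero : O.β 0 = O.ω := by
  have h1 : O.ω ∈ O.β '' ball 0 1 := by rw [O.β_ball]; exact O.ω_mem
  obtain ⟨w, hw, hw2⟩ := h1
  have hw1 := ball_subset_closedBall hw
  have h2 : (ev O.P)^[O.k] O.ω = O.ω := by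
    rw [← O.period]; exact Function.isPeriodicPt_minimalPeriod _ _
  rw [← hw2, O.β_conj w hw1] at h2
  have h3 : w ^ O.d ∈ closedBall (0:ℂ) 1 := by
    rw [mem_closedBall_zero_iff] at hw1 ⊢
    rw [norm_pow]
    exact pow_le_one₀ (norm_nonneg _) hw1
  have h4 := O.β_inj h3 hw1 h2
  have h5 : w = 0 := by
    by_contra hne
    have h6 : ‖w‖ ^ O.d = ‖w‖ := by rw [← norm_pow, h4]
    have h7 : 0 < ‖w‖ := norm_pos_iff.mpr hne
    have h8 : ‖w‖ < 1 := by rwa [mem_ball_zero_iff] at hw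
    have h9 : ‖w‖ ^ O.d ≤ ‖w‖ ^ 2 := pow_le_pow_of_le_one h7.le h8.le O.two_le_d
    nlinarith
  rw [← hw2, h5]

theorem mem_bas_iff {z : ℂ} : z ∈ O.bas ↔ ∃ n : ℕ, (ev O.P)^[n] z ∈ O.B := by
  constructor
  · rintro ⟨j, hj⟩
    obtain ⟨n, hn⟩ := (hj.eventually (O.isOpen_B.mem_nhds O.ω_mem)).exists
    exact ⟨_, hn⟩
  · rintro ⟨n, hn⟩
    refine ⟨n, ?_⟩
    have h1 := O.coord_mem_ball hn
    have h2 := O.β_coord (subset_closure hn)
    have h3 : ∀ m, (ev O.P)^[O.k * m + n] z = O.β ((O.coord ((ev O.P)^[n] z)) ^ (O.d ^ m)) := by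
      intro m
      rw [Function.iterate_add_apply, ← O.β_iter (ball_subset_closedBall h1) m, h2]
    simp_rw [h3]
    rw [← O.β_zero]
    have h4 : Tendsto (fun m : ℕ => (O.coord ((ev O.P)^[n] z)) ^ (O.d ^ m)) atTop (𝓝 0) := by
      have h5 : Tendsto (fun m : ℕ => O.d ^ m) atTop atTop :=
        tendsto_pow_atTop_atTop_of_one_lt (by have := O.two_le_d; omega)
      exact (tendsto_pow_atTop_nhds_zero_of_norm_lt_one (by rwa [mem_ball_zero_iff] at h1)).comp h5
    have h6 : ContinuousAt O.β 0 :=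
      (O.β_cont 0 (mem_closedBall_self zero_le_one)).continuousAt (closedBall_mem_nhds 0 one_pos)
    exact h6.tendsto.comp h4

theorem bas_eq : O.bas = ⋃ n : ℕ, (ev O.P)^[n] ⁻¹' O.B := by
  ext z; rw [O.mem_bas_iff]; simp

theorem isOpen_bas : IsOpen O.bas := by
  rw [O.bas_eq]
  exact isOpen_iUnion fun n => O.isOpen_B.preimage (ev_iter_cont _ n)

theorem iter_mem_bas {z : ℂ} (hz : z ∈ O.bas) (n : ℕ) : (ev O.P)^[n] z ∈ O.bas := by
  obtain ⟨j, hj⟩ := hz
  -- use the characterisation with `B`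
  rw [O.mem_bas_iff]
  have hz' : z ∈ O.bas := ⟨j, hj⟩
  obtain ⟨m, hm⟩ := O.mem_bas_iff.mp hz'
  -- go to a multiple of the period beyond `n`
  refine ⟨O.k * n + m - n, ?_⟩
  have hk := O.k_pos
  have h1 : n ≤ O.k * n + m := by
    have : n ≤ O.k * n := Nat.le_mul_of_pos_left n hk
    omega
  rw [← Function.iterate_add_apply, Nat.sub_add_cancel h1, Function.iterate_add_apply]
  have h2 := O.coord_mem_ball hm
  rw [← O.β_coord (subset_closure hm), O.β_iter (ball_subset_closedBall h2)]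
  apply O.β_mem
  rw [mem_ball_zero_iff] at h2 ⊢
  rw [norm_pow]
  exact pow_lt_one₀ (norm_nonneg _) h2 (pow_pos (by have := O.two_le_d; omega) _).ne'

theorem bas_sub_filled : O.bas ⊆ filledJulia O.P := by
  intro z hz
  obtain ⟨R, hR, h⟩ := esc_radius O.two_le_degree
  rw [filledJulia_iff hR h]
  intro n
  by_contra hcon
  push Not at hcon
  obtain ⟨j, hj⟩ := hz
  have h1 := hj.norm
  have h2 : ∀ᶠ m : ℕ in atTop, ‖(ev O.P)^[O.k * m + j] z‖ ≤ ‖O.ω‖ + 1 :=
    h1.eventually (Iic_mem_nhds (by linarith))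
  obtain ⟨M, hM⟩ := eventually_atTop.mp h2
  obtain ⟨q, hq⟩ := pow_unbounded_of_one_lt (‖O.ω‖ + 1) (show (1:ℝ) < 2 by norm_num)
  have h3 := hM (M + n + q) (by omega)
  have hk := O.k_pos
  have h4 : n + q ≤ O.k * (M + n + q) + j := by
    have : M + n + q ≤ O.k * (M + n + q) := Nat.le_mul_of_pos_left _ hk
    omega
  obtain ⟨e, he⟩ := Nat.exists_eq_add_of_le h4
  rw [he, show n + q + e = (q + e) + n by ring, Function.iterate_add_apply] at h3
  have h5 := esc_iter hR h hcon.le (q + e)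
  have h6 : (2:ℝ) ^ q ≤ 2 ^ (q + e) := pow_le_pow_right₀ (by norm_num) (by omega)
  have h7 : (1:ℝ) * 2 ^ (q + e) ≤ R * 2 ^ (q + e) := by gcongr
  linarith

end Outer

end Pool.Agent.Helper620_Tuning
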