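import Pool.Agent.Helper620_Tuning.Necessity
import Pool.Agent.W746.LD.Koebe

/-!
# Inverse branches and shrinking of the components of the basin
-/

set_option autoImplicit false

open Polynomial Set Filter Topology Metric

namespace Pool.Agent.Helper620_Tuning

theorem ev_proper {P : ℂ[X]} (hP : 2 ≤ P.natDegree) : IsProperMap (ev P) := by
  rw [isProperMap_iff_tendsto_cocompact]
  refine ⟨ev_cont P, ?_⟩
  rw [← Metric.cobounded_eq_cocompact, ← tendsto_norm_atTop_iff_cobounded]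
  obtain ⟨R, hR, h⟩ := esc_radius hP
  refine tendsto_atTop_mono' _ ?_ (tendsto_norm_cobounded_atTop (E := ℂ))
  filter_upwards [(tendsto_norm_cobounded_atTop (E := ℂ)).eventually (eventually_ge_atTop R)]
    with z hz
  have := h z hz
  have h0 : 0 ≤ ‖z‖ := norm_nonneg _
  linarith

theorem iter_proper {P : ℂ[X]} (hP : 2 ≤ P.natDegree) (m : ℕ) : IsProperMap ((ev P)^[m]) := by
  induction m with
  | zero => exact isProperMap_id
  | succ m ih =>
    rw [Function.iterate_succ']
    exact (ev_proper hP).comp ih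

namespace Outer

variable {O : Outer}

theorem local_inj {m : ℕ} {z : ℂ} (h : deriv ((ev O.P)^[m]) z ≠ 0) :
    ∃ N : Set ℂ, IsOpen N ∧ z ∈ N ∧ InjOn ((ev O.P)^[m]) N := by
  have h1 : HasStrictDerivAt ((ev O.P)^[m]) (deriv ((ev O.P)^[m]) z) z :=
    ((ev_iter_diff O.P m).differentiableOn.analyticOnNhd isOpen_univ z (mem_univ _)).hasStrictDerivAt
  have h2 := h1.hasStrictFDerivAt_equiv h
  exact ⟨(h2.toOpenPartialHomeomorph _).source, (h2.toOpenPartialHomeomorph _).open_source,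
    h2.mem_toOpenPartialHomeomorph_source, (h2.toOpenPartialHomeomorph _).injOn⟩

/-- an iterate is a covering over an open set without critical values -/
theorem branch_cover {m : ℕ} {V : Set ℂ}
    (hcrit : ∀ z, (ev O.P)^[m] z ∈ V → deriv ((ev O.P)^[m]) z ≠ 0) :
    IsCoveringMap (V.restrictPreimage ((ev O.P)^[m])) := by
  have hopen : IsOpenMap (V.restrictPreimage ((ev O.P)^[m])) :=
    (iter_isOpenMap (O := O) m).restrictPreimage V
  have hcont : Continuous (V.restrictPreimage ((ev O.P)^[m])) :=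
    (ev_iter_cont O.P m).restrictPreimage
  rw [isCoveringMap_iff_isCoveringMapOn_univ]
  apply ((iter_proper O.two_le_degree m).isClosedMap.restrictPreimage V).isCoveringMapOn_of_isLocalHomeomorphOn
  · rintro ⟨b, hb⟩ _
    have h1 := fiber_finite (O := O) m b
    have h2 : (V.restrictPreimage ((ev O.P)^[m]) ⁻¹' {⟨b, hb⟩}) ⊆
        Subtype.val ⁻¹' ((ev O.P)^[m] ⁻¹' {b}) := by
      intro x hx
      simp only [mem_preimage, mem_singleton_iff] at hx ⊢
      exact congrArg Subtype.val hx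
    exact (h1.preimage Subtype.val_injective.injOn).subset h2
  · rw [preimage_univ]
    have h3 : IsLocalHomeomorph (V.restrictPreimage ((ev O.P)^[m])) := by
      rw [isLocalHomeomorph_iff_isOpenEmbedding_restrict]
      rintro ⟨x, hx⟩
      obtain ⟨N, hN1, hN2, hN3⟩ := local_inj (hcrit x hx)
      refine ⟨Subtype.val ⁻¹' N, (hN1.preimage continuous_subtype_val).mem_nhds hN2, ?_⟩
      apply IsOpenEmbedding.of_continuous_injective_isOpenMap
      · exact hcont.comp continuous_subtype_val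
      · rintro ⟨a, ha⟩ ⟨b, hb⟩ hab
        have h1 : (ev O.P)^[m] a = (ev O.P)^[m] b := congrArg Subtype.val hab
        have h2 := hN3 ha hb h1
        exact Subtype.ext (Subtype.ext h2)
      · exact hopen.comp (hN1.preimage continuous_subtype_val).isOpenMap_subtype_val
    exact h3.isLocalHomeomorphOn

/-- inverse branches on a disc without critical values -/
theorem exists_branch {m : ℕ} {x z0 : ℂ} {r : ℝ}
    (hcrit : ∀ z, (ev O.P)^[m] z ∈ ball x r → deriv ((ev O.P)^[m]) z ≠ 0)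
    (hz0 : (ev O.P)^[m] z0 ∈ ball x r) :
    ∃ G : ℂ → ℂ, ContinuousOn G (ball x r) ∧ (∀ y ∈ ball x r, (ev O.P)^[m] (G y) = y) ∧
      G ((ev O.P)^[m] z0) = z0 ∧ DifferentiableOn ℂ G (ball x r) ∧
      ∀ (T : Set ℂ) (b σ : ℂ → ℂ), IsPreconnected T → ContinuousOn b T → ContinuousOn σ T →
        (∀ w ∈ T, b w ∈ ball x r) → (∀ w ∈ T, (ev O.P)^[m] (σ w) = b w) →
        ∀ w0 ∈ T, G (b w0) = σ w0 → ∀ w ∈ T, G (b w) = σ w := by
  classical
  have hr : (ball x r).Nonempty := ⟨_, hz0⟩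
  have : ContractibleSpace (ball x r) := (convex_ball x r).contractibleSpace hr
  have : LocallyPathConnectedSpace (ball x r) := isOpen_ball.locallyPathConnectedSpace
  have hcov := branch_cover (O := O) (m := m) hcrit
  obtain ⟨L, ⟨hL1, hL2⟩, -⟩ := hcov.existsUnique_continuousMap_lifts
    (ContinuousMap.id (ball x r)) ⟨_, hz0⟩ (⟨z0, hz0⟩ : (ev O.P)^[m] ⁻¹' ball x r) rfl
  have hL3 : ∀ y : ball x r, (ev O.P)^[m] (L y : ℂ) = y := fun y =>
    congrArg Subtype.val (congrFun hL2 y)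
  set G : ℂ → ℂ := fun y => if hy : y ∈ ball x r then (L ⟨y, hy⟩ : ℂ) else 0 with hG
  have hGy : ∀ y (hy : y ∈ ball x r), G y = L ⟨y, hy⟩ := fun y hy => by simp only [hG, dif_pos hy]
  have hGc : ContinuousOn G (ball x r) := by
    rw [continuousOn_iff_continuous_domRestrict]
    have h1 : Continuous fun w : ball x r => (L w : ℂ) := continuous_subtype_val.comp L.continuous
    convert h1 using 1
    funext w
    simp only [Set.domRestrict_apply]
    exact hGy w w.2
  have hGf : ∀ y ∈ ball x r, (ev O.P)^[m] (G y) = y := fun y hy => by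
    rw [hGy y hy]; exact hL3 ⟨y, hy⟩
  refine ⟨G, hGc, hGf, ?_, ?_, ?_⟩
  · rw [hGy _ hz0, hL1]
  · intro y hy
    apply DifferentiableAt.differentiableWithinAt
    have hd : deriv ((ev O.P)^[m]) (G y) ≠ 0 := hcrit _ (by rw [hGf y hy]; exact hy)
    have h1 : HasStrictDerivAt ((ev O.P)^[m]) (deriv ((ev O.P)^[m]) (G y)) (G y) :=
      ((ev_iter_diff O.P m).differentiableOn.analyticOnNhd isOpen_univ _
        (mem_univ _)).hasStrictDerivAt
    have h2 : ContinuousAt G y := hGc.continuousAt (isOpen_ball.mem_nhds hy)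
    have h4 := h1.hasStrictFDerivAt_equiv hd
    set e := h4.toOpenPartialHomeomorph _ with he
    have hes : G y ∈ e.source := h4.mem_toOpenPartialHomeomorph_source
    have hef : ∀ z, e z = (ev O.P)^[m] z := fun z => rfl
    have h5 : ∀ᶠ t in 𝓝 y, G t = e.symm t := by
      have h6 : ∀ᶠ t in 𝓝 y, G t ∈ e.source := h2.eventually (e.open_source.mem_nhds hes)
      filter_upwards [h6, isOpen_ball.mem_nhds hy] with t ht ht2
      conv_rhs => rw [← hGf t ht2]
      rw [← hef, e.left_inv ht]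
    refine DifferentiableAt.congr_of_eventuallyEq ?_ h5
    have h9 := h1.to_localInverse hd
    rw [hGf y hy] at h9
    exact h9.hasDerivAt.differentiableAt
  · intro T b σ hT hb hσ hbT hσb w0 hw0 h0 w hw
    have : PreconnectedSpace T := Subtype.preconnectedSpace hT
    let g1 : T → (ev O.P)^[m] ⁻¹' ball x r := fun t => L ⟨b t, hbT t t.2⟩
    let g2 : T → (ev O.P)^[m] ⁻¹' ball x r := fun t => ⟨σ t, by
      show (ev O.P)^[m] (σ t) ∈ ball x r
      rw [hσb t t.2]; exact hbT t t.2⟩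
    have hg1 : Continuous g1 := by
      apply L.continuous.comp
      exact (hb.domRestrict).subtype_mk _
    have hg2 : Continuous g2 := (hσ.domRestrict).subtype_mk _
    have h1 : g1 = g2 := by
      apply hcov.eq_of_comp_eq hg1 hg2 (a := ⟨w0, hw0⟩)
      · funext t
        apply Subtype.ext
        show (ev O.P)^[m] (L ⟨b t, hbT t t.2⟩ : ℂ) = (ev O.P)^[m] (σ t)
        rw [hL3, hσb t t.2]
      · apply Subtype.ext
        show (L ⟨b w0, _⟩ : ℂ) = σ w0
        rw [← hGy _ (hbT w0 hw0), h0]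
    have h2 := congrArg Subtype.val (congrFun h1 ⟨w, hw⟩)
    rw [hGy _ (hbT w hw)]
    exact h2

/-- only finitely many components of a given generation -/
theorem finite_gen (N : ℕ) : {U : Set ℂ | ∃ n ≤ N, O.IsCopy n U}.Finite := by
  have h1 : ∀ n, {U : Set ℂ | O.IsCopy n U}.Finite := by
    intro n
    apply ((fiber_finite (O := O) n O.ω).image (fun z => connectedComponentIn O.bas z)).subset
    intro U hU
    have h0 : (0:ℂ) ∈ closedBall (0:ℂ) 1 := mem_closedBall_self zero_le_one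
    refine ⟨O.sec n U 0, ?_, ?_⟩
    · show (ev O.P)^[n] (O.sec n U 0) = O.ω
      rw [IsCopy.iter_sec hU h0, O.β_zero]
    · exact IsCopy.eq_comp hU ((IsCopy.sec_mem_iff hU h0).mpr (mem_ball_self one_pos))
  have h2 : {U : Set ℂ | ∃ n ≤ N, O.IsCopy n U} = ⋃ n ∈ Finset.range (N + 1), {U | O.IsCopy n U} := by
    ext U
    simp only [mem_iUnion, Finset.mem_range]
    constructor
    · rintro ⟨n, hn, hU⟩; exact ⟨n, by omega, hU⟩
    · rintro ⟨n, hn, hU⟩; exact ⟨n, by omega, hU⟩
  rw [h2]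
  exact Set.Finite.biUnion (Finset.finite_toSet _) fun n _ => h1 n

/-- Shrinking near a boundary point with a neighbourhood free of critical values of the
iterates. -/
theorem shrink_at {v : ℂ} (hv : ‖v‖ = 1) {ρ : ℝ} (hρ : 0 < ρ)
    (hcrit : ∀ (m : ℕ) (z : ℂ), (ev O.P)^[m] z ∈ ball (O.β v) ρ → deriv ((ev O.P)^[m]) z ≠ 0) :
    ∃ δ > 0, ∀ ε > 0, {U : Set ℂ | ∃ n, O.IsCopy n U ∧ ∃ x ∈ closedBall (0:ℂ) 1 ∩ ball v δ,
      ∃ y ∈ closedBall (0:ℂ) 1 ∩ ball v δ, ε ≤ dist (O.sec n U x) (O.sec n U y)}.Finite := by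
  have hvb : v ∈ closedBall (0:ℂ) 1 := by rw [mem_closedBall_zero_iff, hv]
  obtain ⟨δ, hδ, hδ2⟩ := Metric.continuousWithinAt_iff.mp (O.β_cont v hvb) (ρ / 4) (by linarith)
  refine ⟨δ, hδ, fun ε hε => ?_⟩
  by_contra hinf
  have hinf' : Set.Infinite {U : Set ℂ | ∃ n, O.IsCopy n U ∧ ∃ x ∈ closedBall (0:ℂ) 1 ∩ ball v δ,
      ∃ y ∈ closedBall (0:ℂ) 1 ∩ ball v δ, ε ≤ dist (O.sec n U x) (O.sec n U y)} := hinf
  obtain ⟨C0, c0, K⟩ := Pool.Agent.W746.LD.exists_KC
  have hC0 : 0 < C0 := lt_of_lt_of_le one_pos K.one_le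
  obtain ⟨R, hR, hesc⟩ := esc_radius O.two_le_degree
  set R2 := max R (‖O.β v‖ + ρ) with hR2
  have hR2R : R ≤ R2 := le_max_left _ _
  have hR20 : 0 < R2 := by linarith
  set M := 2 * R2 with hM
  have hM0 : 0 < M := by linarith
  set η := 2 * ε / (C0 * ρ) with hη
  have hη0 : 0 < η := by positivity
  set c := η ^ 2 * ρ ^ 2 / (16 * M) with hc
  have hc0 : 0 < c := by positivity
  -- the main estimate for one component
  have key : ∀ (n : ℕ) (U : Set ℂ), O.IsCopy n U → (∃ x ∈ closedBall (0:ℂ) 1 ∩ ball v δ,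
      ∃ y ∈ closedBall (0:ℂ) 1 ∩ ball v δ, ε ≤ dist (O.sec n U x) (O.sec n U y)) →
      ∀ z ∈ ball (O.sec n U v) c, (ev O.P)^[n] z ∈ ball (O.β v) ρ := by
    rintro n U hU ⟨x, hx, y, hy, hxy⟩
    have hz0 : (ev O.P)^[n] (O.sec n U v) ∈ ball (O.β v) ρ := by
      rw [hU.iter_sec hvb]; exact mem_ball_self hρ
    obtain ⟨G, hGc, hGf, hG0, hGd, hGu⟩ := exists_branch (hcrit n) hz0
    rw [hU.iter_sec hvb] at hG0
    have hsec : ∀ w ∈ closedBall (0:ℂ) 1 ∩ ball v δ, G (O.β w) = O.sec n U w := by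
      apply hGu (closedBall (0:ℂ) 1 ∩ ball v δ) O.β (O.sec n U)
        (((convex_closedBall _ _).inter (convex_ball _ _)).isPreconnected)
        (O.β_cont.mono inter_subset_left) (hU.sec_cont.mono inter_subset_left)
      · intro w hw
        exact ball_subset_ball (by linarith) (hδ2 hw.1 hw.2)
      · intro w hw
        exact hU.iter_sec hw.1
      · exact ⟨hvb, mem_ball_self hδ⟩
      · exact hG0
    have hGinj : InjOn G (ball (O.β v) ρ) := fun a ha b hb hab => by
      rw [← hGf a ha, ← hGf b hb, hab]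
    have huniv : Pool.Agent.W746.LD.Univ G (O.β v) ρ := ⟨hGd, hGinj⟩
    have hlip : ∀ w ∈ closedBall (0:ℂ) 1 ∩ ball v δ,
        dist (O.sec n U w) (G (O.β v)) ≤ C0 * ‖deriv G (O.β v)‖ * (ρ / 4) := by
      intro w hw
      have h1 : ‖O.β w - O.β v‖ ≤ ρ / 4 := by
        rw [← dist_eq_norm]; exact (hδ2 hw.1 hw.2).le
      have h2 := K.lip hρ huniv h1
      rw [← hsec w hw, dist_eq_norm]
      refine h2.trans ?_
      gcongr
    have h1 := hlip x hx
    have h2 := hlip y hy
    have h3 := dist_triangle_right (O.sec n U x) (O.sec n U y) (G (O.β v))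
    have h4 : η ≤ ‖deriv G (O.β v)‖ := by
      rw [hη, div_le_iff₀ (by positivity)]
      nlinarith
    have hne : deriv G (O.β v) ≠ 0 := by
      intro h; rw [h, norm_zero] at h4; linarith
    have hbdG : ∀ y ∈ ball (O.β v) ρ, ‖G y‖ ≤ R2 := by
      intro y hy
      by_contra hcon
      push Not at hcon
      have h5 := esc_iter (R := ‖G y‖) (by linarith) (fun z hz => hesc z (by linarith)) le_rfl n
      rw [hGf y hy] at h5
      have h6 : ‖y‖ < ‖O.β v‖ + ρ := by
        rw [mem_ball, dist_eq_norm] at hy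
        have := norm_add_le (y - O.β v) (O.β v)
        rw [sub_add_cancel] at this
        linarith
      have h7 : ‖O.β v‖ + ρ ≤ R2 := le_max_right _ _
      have h8 : (1:ℝ) ≤ 2 ^ n := one_le_pow₀ (by norm_num)
      nlinarith
    have h5 := quant_open hρ hM0 hGd (by
      intro z hz
      rw [dist_eq_norm]
      have h6 := hbdG z hz
      have h7 := hbdG _ (mem_ball_self hρ)
      have h8 := norm_sub_le (G z) (G (O.β v))
      rw [hM]; linarith) hne
    intro z hz
    have h6 : ball (O.sec n U v) c ⊆ G '' ball (O.β v) ρ := by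
      rw [← hG0]
      refine (ball_subset_ball ?_).trans h5
      rw [hc]; gcongr
    obtain ⟨y', hy', hy2⟩ := h6 hz
    rw [← hy2, hGf y' hy']
    exact hy'
  -- a sequence of components
  let e := hinf'.natEmbedding
  set V : ℕ → Set ℂ := fun j => (e j : Set ℂ) with hV
  have hVinj : Function.Injective V := fun i j hij => e.injective (Subtype.ext hij)
  choose n hn hx using fun j => (e j).2
  obtain ⟨RK, hRK⟩ := filledJulia_bdd O.two_le_degree
  have hsecK : ∀ j, O.sec (n j) (V j) v ∈ closedBall (0:ℂ) RK := fun j => by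
    rw [mem_closedBall_zero_iff]
    exact hRK _ (closure_sub_filled (hn j) ((hn j).sec_mem hvb))
  obtain ⟨q, -, φ, hφ, hlim⟩ := (isCompact_closedBall (0:ℂ) RK).tendsto_subseq hsecK
  obtain ⟨N, hN⟩ := eventually_atTop.mp (hlim.eventually (ball_mem_nhds q (show 0 < c / 4 by linarith)))
  -- an escaping point near `q`
  have hopen := iter_isOpenMap (O := O) (n (φ N)) _
    (isOpen_ball (x := O.sec (n (φ N)) (V (φ N)) v) (ε := c / 4))
  have hmem : O.β v ∈ (ev O.P)^[n (φ N)] '' ball (O.sec (n (φ N)) (V (φ N)) v) (c / 4) :=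
    ⟨_, mem_ball_self (by linarith), (hn _).iter_sec hvb⟩
  obtain ⟨δ', hδ', hδs⟩ := Metric.isOpen_iff.mp hopen _ hmem
  have hvB : O.β v ∉ O.B := by
    intro h2
    have h3 := O.coord_mem_ball h2
    rw [O.coord_β hvb, mem_ball_zero_iff, hv] at h3
    exact lt_irrefl _ h3
  obtain ⟨y, hy, hyd⟩ := exists_escaping (O.β_mem_closure hvb) hvB hδ'
  obtain ⟨t, ht, hty⟩ := hδs (mem_ball.mpr hyd)
  have htK : t ∉ filledJulia O.P := fun hK => hy (by rw [← hty]; exact mem_filled_iter hK _)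
  have htq : dist t q < c / 2 := by
    have h1 := hN N le_rfl
    simp only [Function.comp_apply] at h1
    rw [mem_ball] at ht
    have h2 := dist_triangle t (O.sec (n (φ N)) (V (φ N)) v) q
    linarith
  rw [filledJulia_iff hR hesc] at htK
  push Not at htK
  obtain ⟨n0, hn0⟩ := htK
  obtain ⟨k0, hk0⟩ := pow_unbounded_of_one_lt R2 (show (1:ℝ) < 2 by norm_num)
  -- large generations
  have hgen : ∀ᶠ j in atTop, n0 + k0 < n (φ j) := by
    have h1 := (finite_gen (O := O) (n0 + k0)).preimage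
      ((hVinj.comp hφ.injective).injOn (s := (V ∘ φ) ⁻¹' {U | ∃ n ≤ n0 + k0, O.IsCopy n U}))
    rw [← Nat.cofinite_eq_atTop]
    filter_upwards [h1.compl_mem_cofinite] with j hj
    by_contra hcon
    exact hj ⟨n (φ j), by omega, hn _⟩
  obtain ⟨N', hN'⟩ := eventually_atTop.mp hgen
  set j := max N N' with hj
  have h1 := hN' j (le_max_right _ _)
  have h2 := hN j (le_max_left _ _)
  simp only [Function.comp_apply] at h2
  have h3 : t ∈ ball (O.sec (n (φ j)) (V (φ j)) v) c := by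
    rw [mem_ball]
    have h4 := dist_triangle_right t (O.sec (n (φ j)) (V (φ j)) v) q
    linarith
  have h4 := key _ _ (hn (φ j)) (hx _) t h3
  obtain ⟨i, hi⟩ := Nat.exists_eq_add_of_lt h1
  rw [hi, show n0 + k0 + i + 1 = (k0 + (i + 1)) + n0 by ring, Function.iterate_add_apply] at h4
  have h5 := esc_iter hR hesc hn0.le (k0 + (i + 1))
  have h6 : (2:ℝ) ^ k0 ≤ 2 ^ (k0 + (i + 1)) := pow_le_pow_right₀ (by norm_num) (by omega)
  have h7 : (1:ℝ) * 2 ^ (k0 + (i + 1)) ≤ R * 2 ^ (k0 + (i + 1)) := by gcongr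
  rw [mem_ball, dist_eq_norm] at h4
  have h8 : ‖(ev O.P)^[k0 + (i + 1)] ((ev O.P)^[n0] t)‖ < ‖O.β v‖ + ρ := by
    have := norm_add_le ((ev O.P)^[k0 + (i + 1)] ((ev O.P)^[n0] t) - O.β v) (O.β v)
    rw [sub_add_cancel] at this
    linarith
  have h9 : ‖O.β v‖ + ρ ≤ R2 := le_max_right _ _
  linarith

/-- local shrinking at all boundary points implies that the components form a null family -/
theorem null_of_shrink (h : ∀ v : ℂ, ‖v‖ = 1 → ∃ δ > 0, ∀ ε > 0,
    {U : Set ℂ | ∃ n, O.IsCopy n U ∧ ∃ x ∈ closedBall (0:ℂ) 1 ∩ ball v δ,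
      ∃ y ∈ closedBall (0:ℂ) 1 ∩ ball v δ, ε ≤ dist (O.sec n U x) (O.sec n U y)}.Finite) :
    O.Null := by
  choose! δ hδ hfin using h
  obtain ⟨t, ht, hcov⟩ := (isCompact_sphere (0:ℂ) 1).elim_nhds_subcover (fun v => ball v (δ v))
    (fun v hv => ball_mem_nhds v (hδ v (by rwa [mem_sphere_zero_iff_norm] at hv)))
  have ht1 : ∀ v ∈ t, ‖v‖ = 1 := fun v hv => by
    have := ht v hv; rwa [mem_sphere_zero_iff_norm] at this
  -- the rest is in a smaller disc
  obtain ⟨ρ1, hρ1, hrest⟩ : ∃ ρ1 < (1:ℝ), ∀ w ∈ closedBall (0:ℂ) 1,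
      (∀ v ∈ t, w ∉ ball v (δ v)) → ‖w‖ ≤ ρ1 := by
    set C : Set ℂ := closedBall (0:ℂ) 1 \ ⋃ v ∈ t, ball v (δ v) with hC
    have hCc : IsCompact C := (isCompact_closedBall _ _).diff
      (isOpen_biUnion fun v _ => isOpen_ball)
    rcases C.eq_empty_or_nonempty with h | h
    · refine ⟨0, by norm_num, fun w hw hw2 => ?_⟩
      exfalso
      have : w ∈ C := ⟨hw, by simpa using hw2⟩
      rw [h] at this; exact this
    · obtain ⟨w0, hw0, hmax⟩ := hCc.exists_isMaxOn h (f := fun w => ‖w‖) continuous_norm.continuousOn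
      refine ⟨‖w0‖, ?_, fun w hw hw2 => hmax ⟨hw, by simpa using hw2⟩⟩
      have h1 := hw0.1
      rw [mem_closedBall_zero_iff] at h1
      apply lt_of_le_of_ne h1
      intro h2
      exact hw0.2 (hcov (by rwa [mem_sphere_zero_iff_norm]))
  -- a disc which meets all the small discs
  obtain ⟨ρ2, hρ2, hmeet⟩ : ∃ ρ2 < (1:ℝ), ∀ v ∈ t, ∃ w ∈ closedBall (0:ℂ) 1 ∩ ball v (δ v),
      ‖w‖ ≤ ρ2 := by
    have h1 : ∀ v ∈ t, ∃ w ∈ closedBall (0:ℂ) 1 ∩ ball v (δ v), ‖w‖ < 1 := by
      intro v hv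
      have hv1 := ht1 v hv
      have hd := hδ v hv1
      set s : ℝ := 1 - min (δ v / 2) (1 / 2) with hs
      have hm : 0 < min (δ v / 2) (1 / 2) := lt_min (by linarith) (by norm_num)
      have hm2 : min (δ v / 2) (1 / 2) ≤ 1 / 2 := min_le_right _ _
      have hm3 : min (δ v / 2) (1 / 2) ≤ δ v / 2 := min_le_left _ _
      have hs0 : 0 ≤ s := by linarith
      have hn : ‖(s:ℂ) * v‖ = s := by
        rw [norm_mul, hv1, mul_one, Complex.norm_real, Real.norm_of_nonneg hs0]
      refine ⟨(s:ℂ) * v, ⟨?_, ?_⟩, ?_⟩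
      · rw [mem_closedBall_zero_iff, hn]; linarith
      · rw [mem_ball, dist_eq_norm]
        have h2 : (s:ℂ) * v - v = -((min (δ v / 2) (1 / 2) : ℝ) : ℂ) * v := by
          rw [hs]; push_cast; ring
        rw [h2, norm_mul, norm_neg, hv1, mul_one, Complex.norm_real, Real.norm_of_nonneg hm.le]
        linarith
      · rw [hn]; linarith
    choose! w hw hw1 using h1
    rcases t.eq_empty_or_nonempty with he | hne
    · exact ⟨0, by norm_num, fun v hv => by rw [he] at hv; simp at hv⟩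
    · obtain ⟨v0, hv0, hmax⟩ := t.exists_max_image (fun v => ‖w v‖) hne
      exact ⟨‖w v0‖, hw1 v0 hv0, fun v hv => ⟨w v, hw v hv, hmax v hv⟩⟩
  intro ε hε
  have hF1 := finite_core (O := O) (ρ := max (max ρ1 ρ2) 0)
    (max_lt (max_lt hρ1 hρ2) one_pos) (ε := ε / 8) (by linarith)
  have hF2 : (⋃ v ∈ t, {U : Set ℂ | ∃ n, O.IsCopy n U ∧ ∃ x ∈ closedBall (0:ℂ) 1 ∩ ball v (δ v),
      ∃ y ∈ closedBall (0:ℂ) 1 ∩ ball v (δ v), ε / 8 ≤ dist (O.sec n U x) (O.sec n U y)}).Finite :=
    Set.Finite.biUnion t.finite_toSet fun v hv => hfin v (ht1 v hv) (ε / 8) (by linarith)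
  apply (hF1.union hF2).subset
  rintro U ⟨⟨n, hU⟩, hdiam⟩
  by_contra hcon
  rw [mem_union, not_or] at hcon
  obtain ⟨hc1, hc2⟩ := hcon
  have hcore : ∀ x ∈ closedBall (0:ℂ) (max (max ρ1 ρ2) 0), dist (O.sec n U x) (O.sec n U 0) < ε / 8 := by
    intro x hx
    by_contra h1
    push Not at h1
    exact hc1 ⟨n, hU, x, hx, 0, mem_closedBall_self (le_max_right _ _), h1⟩
  have hall : ∀ w ∈ closedBall (0:ℂ) 1, dist (O.sec n U w) (O.sec n U 0) < ε / 4 := by
    intro w hw
    by_cases hwt : ∀ v ∈ t, w ∉ ball v (δ v)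
    · have h1 := hcore w (by
        rw [mem_closedBall_zero_iff]
        exact (hrest w hw hwt).trans ((le_max_left _ _).trans (le_max_left _ _)))
      linarith
    · push Not at hwt
      obtain ⟨v, hv, hwv⟩ := hwt
      obtain ⟨y, hy, hy2⟩ := hmeet v hv
      have h1 : dist (O.sec n U w) (O.sec n U y) < ε / 8 := by
        by_contra h1
        push Not at h1
        exact hc2 (mem_iUnion₂.mpr ⟨v, hv, n, hU, w, ⟨hw, hwv⟩, y, hy, h1⟩)
      have h2 := hcore y (by
        rw [mem_closedBall_zero_iff]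
        exact hy2.trans ((le_max_right _ _).trans (le_max_left _ _)))
      have h3 := dist_triangle (O.sec n U w) (O.sec n U y) (O.sec n U 0)
      linarith
  have h3 : Metric.diam U ≤ ε / 2 := by
    apply Metric.diam_le_of_forall_dist_le (by linarith)
    intro x hx y hy
    rw [← hU.sec_coord (subset_closure hx), ← hU.sec_coord (subset_closure hy)]
    have h4 := hall _ (hU.coord_mem (subset_closure hx))
    have h5 := hall _ (hU.coord_mem (subset_closure hy))
    have h6 := dist_triangle_right (O.sec n U (O.coord ((ev O.P)^[n] x)))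
      (O.sec n U (O.coord ((ev O.P)^[n] y))) (O.sec n U 0)
    linarith
  linarith

end Outer

end Pool.Agent.Helper620_Tuning
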