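import Pool.Agent.Helper620_Tuning.Basic

/-!
# Tuning: the components of the basin
-/

set_option autoImplicit false

open Polynomial Set Filter Topology Metric

namespace Pool.Agent.Helper620_Tuning

namespace Outer

variable (O : Outer)

theorem B_eq_component {z : ℂ} (hz : z ∈ O.B) : O.B = connectedComponentIn O.bas z :=
  connectedComponentIn_eq hz

/-- a connected subset of the basin which meets `B` lies in `B` -/
theorem sub_B {S : Set ℂ} (hS : IsPreconnected S) (hS2 : S ⊆ O.bas) {z : ℂ} (hz : z ∈ S)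
    (hz2 : z ∈ O.B) : S ⊆ O.B := by
  rw [O.B_eq_component hz2]
  exact hS.subset_connectedComponentIn hz hS2

theorem isCopy_B : O.IsCopy 0 O.B :=
  ⟨O.ω, by simpa using O.ω_mem, by simp, rfl⟩

section copy

variable {O} {n : ℕ} {U : Set ℂ} (hU : O.IsCopy n U)

include hU

theorem IsCopy.sub_bas : U ⊆ O.bas := by
  obtain ⟨z, -, -, rfl⟩ := hU; exact connectedComponentIn_subset _ _

theorem IsCopy.isPreconnected : IsPreconnected U := by
  obtain ⟨z, -, -, rfl⟩ := hU; exact isPreconnected_connectedComponentIn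

theorem IsCopy.isOpen : IsOpen U := by
  obtain ⟨z, -, -, rfl⟩ := hU; exact O.isOpen_bas.connectedComponentIn

theorem IsCopy.nonempty : U.Nonempty := by
  obtain ⟨z, hz, -, rfl⟩ := hU
  exact ⟨z, mem_connectedComponentIn (O.mem_bas_iff.mpr ⟨n, hz⟩)⟩

/-- a connected subset of the basin which meets `U` lies in `U` -/
theorem IsCopy.sub {S : Set ℂ} (hS : IsPreconnected S) (hS2 : S ⊆ O.bas) {z : ℂ} (hz : z ∈ S)
    (hz2 : z ∈ U) : S ⊆ U := by
  obtain ⟨z0, -, -, rfl⟩ := hU
  rw [connectedComponentIn_eq hz2]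
  exact hS.subset_connectedComponentIn hz hS2

theorem IsCopy.iter_mem {z : ℂ} (hz : z ∈ U) : (ev O.P)^[n] z ∈ O.B := by
  have h1 := hU.isPreconnected
  have h2 := hU.sub_bas
  obtain ⟨z0, hz0, h0, rfl⟩ := hU
  have h3 : IsPreconnected ((ev O.P)^[n] '' connectedComponentIn O.bas z0) :=
    h1.image _ (ev_iter_cont _ n).continuousOn
  have h4 : (ev O.P)^[n] '' connectedComponentIn O.bas z0 ⊆ O.bas := by
    rintro _ ⟨y, hy, rfl⟩
    exact O.iter_mem_bas (h2 hy) n
  have h5 : z0 ∈ connectedComponentIn O.bas z0 :=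
    mem_connectedComponentIn (O.mem_bas_iff.mpr ⟨n, hz0⟩)
  exact O.sub_B h3 h4 (mem_image_of_mem _ h5) hz0 (mem_image_of_mem _ hz)

theorem IsCopy.iter_notMem {z : ℂ} (hz : z ∈ U) {m : ℕ} (hm : m < n) : (ev O.P)^[m] z ∉ O.B := by
  have h1 := hU.isPreconnected
  have h2 := hU.sub_bas
  obtain ⟨z0, hz0, h0, rfl⟩ := hU
  intro hcon
  have h3 : IsPreconnected ((ev O.P)^[m] '' connectedComponentIn O.bas z0) :=
    h1.image _ (ev_iter_cont _ m).continuousOn
  have h4 : (ev O.P)^[m] '' connectedComponentIn O.bas z0 ⊆ O.bas := by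
    rintro _ ⟨y, hy, rfl⟩
    exact O.iter_mem_bas (h2 hy) m
  have h5 : z0 ∈ connectedComponentIn O.bas z0 :=
    mem_connectedComponentIn (O.mem_bas_iff.mpr ⟨n, hz0⟩)
  exact h0 m hm (O.sub_B h3 h4 (mem_image_of_mem _ hz) hcon (mem_image_of_mem _ h5))

/-- the generation is determined by the component -/
theorem IsCopy.unique {n' : ℕ} (hU' : O.IsCopy n' U) : n = n' := by
  obtain ⟨z, hz⟩ := hU.nonempty
  rcases lt_trichotomy n n' with h | h | h
  · exact absurd (hU.iter_mem hz) (hU'.iter_notMem hz h)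
  · exact h
  · exact absurd (hU'.iter_mem hz) (hU.iter_notMem hz h)

theorem IsCopy.closure_inter {z : ℂ} (hz : z ∈ closure U) (hz2 : z ∈ O.bas) : z ∈ U := by
  have h1 : IsOpen (connectedComponentIn O.bas z) := O.isOpen_bas.connectedComponentIn
  have h2 : z ∈ connectedComponentIn O.bas z := mem_connectedComponentIn hz2
  obtain ⟨y, hy1, hy2⟩ := mem_closure_iff.mp hz _ h1 h2
  exact hU.sub isPreconnected_connectedComponentIn (connectedComponentIn_subset _ _) hy1 hy2 h2

theorem IsCopy.isCompact_closure : IsCompact (closure U) := by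
  obtain ⟨R, hR⟩ := filledJulia_bdd O.two_le_degree
  apply Metric.isCompact_of_isClosed_isBounded isClosed_closure
  apply Bornology.IsBounded.closure
  apply (isBounded_closedBall (x := (0:ℂ)) (r := R)).subset
  intro z hz
  rw [mem_closedBall_zero_iff]
  exact hR z (O.bas_sub_filled (hU.sub_bas hz))

theorem IsCopy.iter_closure {z : ℂ} (hz : z ∈ closure U) : (ev O.P)^[n] z ∈ closure O.B := by
  have h1 : MapsTo (ev O.P)^[n] U O.B := fun y hy => hU.iter_mem hy
  exact h1.closure (ev_iter_cont _ n) hz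

theorem IsCopy.mem_iff {z : ℂ} (hz : z ∈ closure U) : z ∈ U ↔ (ev O.P)^[n] z ∈ O.B := by
  constructor
  · exact fun h => hU.iter_mem h
  · intro h
    exact hU.closure_inter hz (O.mem_bas_iff.mpr ⟨n, h⟩)

/-- no critical points of the iterate -/
theorem IsCopy.deriv_ne {z : ℂ} (hz : z ∈ U) : deriv (ev O.P)^[n] z ≠ 0 := by
  have h1 : ∀ m, m ≤ n → deriv (ev O.P)^[m] z ≠ 0 := by
    intro m
    induction m with
    | zero =>
      intro _
      simp
    | succ m ih =>
      intro hm
      rw [Function.iterate_succ']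
      rw [deriv_comp z ((ev_diff O.P) _) ((ev_iter_diff O.P m) z)]
      refine mul_ne_zero ?_ (ih (by omega))
      intro h2
      have h3 : O.P.derivative.eval ((ev O.P)^[m] z) = 0 := by
        have : deriv (ev O.P) ((ev O.P)^[m] z) = O.P.derivative.eval ((ev O.P)^[m] z) := by
          unfold ev
          exact O.P.deriv
        rw [← this]; exact h2
      have h4 := O.critical _ h3 (O.iter_mem_bas (hU.sub_bas hz) m)
      have h5 := hU.iter_notMem hz (m := m) (by omega)
      rw [h4] at h5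
      exact h5 O.ω_mem
  exact h1 n le_rfl

omit hU in
theorem fiber_finite (m : ℕ) (y : ℂ) : ((ev O.P)^[m] ⁻¹' {y}).Finite := by
  set Q : ℂ[X] := (fun q : ℂ[X] => O.P.comp q)^[m] X with hQ
  have h1 : (Q - C y) ≠ 0 := by
    intro h
    have h2 : Q.natDegree = 0 := by
      rw [sub_eq_zero.mp h]; simp
    rw [hQ, iter_natDegree] at h2
    have h3 := O.two_le_degree
    have : 0 < O.P.natDegree ^ m := pow_pos (by omega) _
    omega
  apply ((Q - C y).roots.toFinset.finite_toSet).subset
  intro z hz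
  simp only [mem_preimage, mem_singleton_iff] at hz
  simp only [Finset.mem_coe, Multiset.mem_toFinset]
  rw [mem_roots h1]
  simp [← hz, ev_iter_eq, ← hQ]

end copy

end Outer

end Pool.Agent.Helper620_Tuning
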