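import Pool.Agent.Helper620_Tuning.Copy

/-!
# Tuning: the iterate is injective on every component of the basin
-/

set_option autoImplicit false

open Polynomial Set Filter Topology Metric

namespace Pool.Agent.Helper620_Tuning

namespace Outer

variable {O : Outer} {n : ℕ} {U : Set ℂ} (hU : O.IsCopy n U)

include hU

theorem IsCopy.isOpenMap_iter {A : Set ℂ} (hA : IsOpen A) : IsOpen ((ev O.P)^[n] '' A) := by
  have h1 : AnalyticOnNhd ℂ ((ev O.P)^[n]) univ :=
    (ev_iter_diff O.P n).differentiableOn.analyticOnNhd isOpen_univ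
  rcases h1.is_constant_or_isOpen isPreconnected_univ with ⟨w, hw⟩ | h
  · exfalso
    obtain ⟨z, hz⟩ := hU.nonempty
    apply hU.deriv_ne hz
    have : (ev O.P)^[n] = fun _ => w := by
      funext y; exact hw y (mem_univ _)
    rw [this]; simp
  · exact h A (subset_univ _) hA

/-- The iterate, as a map from `U` to `B`. -/
def gmap : U → O.B := MapsTo.restrict ((ev O.P)^[n]) U O.B (fun _ hz => hU.iter_mem hz)

theorem gmap_val (z : U) : ((gmap hU z : O.B) : ℂ) = (ev O.P)^[n] z := rfl

theorem gmap_continuous : Continuous (gmap hU) :=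
  ((ev_iter_cont O.P n).comp continuous_subtype_val).subtype_mk _

theorem gmap_closed : IsClosedMap (gmap hU) := by
  intro A hA
  obtain ⟨C, hC, rfl⟩ := isClosed_induced_iff.mp hA
  have h1 : IsClosed ((ev O.P)^[n] '' (C ∩ closure U)) :=
    ((hU.isCompact_closure.inter_left hC).image (ev_iter_cont _ n)).isClosed
  rw [isClosed_induced_iff]
  refine ⟨_, h1, ?_⟩
  ext ⟨b, hb⟩
  constructor
  · rintro ⟨x, ⟨hx1, hx2⟩, hx3⟩
    dsimp only at hx3
    have hx4 : x ∈ U := (hU.mem_iff hx2).mpr (by rw [hx3]; exact hb)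
    exact ⟨⟨x, hx4⟩, hx1, Subtype.ext hx3⟩
  · rintro ⟨x, hx1, hx2⟩
    refine ⟨x, ⟨hx1, subset_closure x.2⟩, ?_⟩
    rw [← gmap_val hU, hx2]

theorem exists_local (z : ℂ) (hz : z ∈ U) :
    ∃ N : Set ℂ, IsOpen N ∧ z ∈ N ∧ InjOn ((ev O.P)^[n]) N := by
  have h1 : HasStrictDerivAt ((ev O.P)^[n]) (deriv ((ev O.P)^[n]) z) z :=
    ((ev_iter_diff O.P n).differentiableOn.analyticOnNhd isOpen_univ z (mem_univ _)).hasStrictDerivAt
  have h2 := h1.hasStrictFDerivAt_equiv (hU.deriv_ne hz)
  refine ⟨(h2.toOpenPartialHomeomorph _).source, (h2.toOpenPartialHomeomorph _).open_source,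
    h2.mem_toOpenPartialHomeomorph_source, ?_⟩
  exact (h2.toOpenPartialHomeomorph _).injOn

theorem gmap_local : IsLocalHomeomorph (gmap hU) := by
  rw [isLocalHomeomorph_iff_isOpenEmbedding_restrict]
  intro x
  obtain ⟨N, hN1, hN2, hN3⟩ := exists_local hU x x.2
  refine ⟨Subtype.val ⁻¹' N, (hN1.preimage continuous_subtype_val).mem_nhds hN2, ?_⟩
  apply IsOpenEmbedding.of_continuous_injective_isOpenMap
  · exact (gmap_continuous hU).comp continuous_subtype_val
  · rintro ⟨a, ha⟩ ⟨b, hb⟩ hab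
    have h1 : (ev O.P)^[n] a = (ev O.P)^[n] b := congrArg Subtype.val hab
    have h2 := hN3 ha hb h1
    exact Subtype.ext (Subtype.ext h2)
  · intro A hA
    have h1 : IsOpen (Subtype.val '' (Subtype.val '' A) : Set ℂ) := by
      apply hU.isOpen.isOpenMap_subtype_val
      exact (hN1.preimage continuous_subtype_val).isOpenMap_subtype_val _ hA
    have h2 := hU.isOpenMap_iter h1
    rw [isOpen_induced_iff]
    refine ⟨_, h2, ?_⟩
    ext ⟨b, hb⟩
    constructor
    · rintro ⟨y, ⟨y', ⟨y'', hy, rfl⟩, rfl⟩, hy3⟩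
      exact ⟨y'', hy, Subtype.ext hy3⟩
    · rintro ⟨y, hy, hy2⟩
      refine ⟨y, ⟨y, ⟨y, hy, rfl⟩, rfl⟩, ?_⟩
      have := congrArg Subtype.val hy2
      exact this

theorem gmap_cover : IsCoveringMap (gmap hU) := by
  rw [isCoveringMap_iff_isCoveringMapOn_univ]
  apply (gmap_closed hU).isCoveringMapOn_of_isLocalHomeomorphOn
  · intro b _
    have h1 := fiber_finite (O := O) n (b : ℂ)
    have h2 : (gmap hU ⁻¹' {b}) ⊆ Subtype.val ⁻¹' ((ev O.P)^[n] ⁻¹' {(b:ℂ)}) := by
      intro x hx
      simp only [mem_preimage, mem_singleton_iff] at hx ⊢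
      rw [← hx]; rfl
    exact (h1.preimage Subtype.val_injective.injOn).subset h2
  · rw [preimage_univ]
    exact (gmap_local hU).isLocalHomeomorphOn

/-- The iterate is a bijection of `U` onto `B`. -/
theorem gmap_bijective : Function.Bijective (gmap hU) := by
  classical
  have : ContractibleSpace (ball (0:ℂ) 1) :=
    (convex_ball (0:ℂ) 1).contractibleSpace ⟨0, mem_ball_self one_pos⟩
  have : LocallyPathConnectedSpace (ball (0:ℂ) 1) := isOpen_ball.locallyPathConnectedSpace
  have : PreconnectedSpace U := Subtype.preconnectedSpace hU.isPreconnected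
  -- the map `β` on the open ball
  let b : C(ball (0:ℂ) 1, O.B) := ⟨fun w => ⟨O.β w, O.β_mem w.2⟩, by
    apply Continuous.subtype_mk
    exact (O.β_cont.mono ball_subset_closedBall).domRestrict⟩
  -- its inverse
  let c : O.B → ball (0:ℂ) 1 := fun z => ⟨O.coord z, O.coord_mem_ball z.2⟩
  have hc : Continuous c := by
    apply Continuous.subtype_mk
    exact (O.coord_cont.mono subset_closure).domRestrict
  have hbc : ∀ z, b (c z) = z := fun z => Subtype.ext (O.β_coord (subset_closure z.2))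
  obtain ⟨z0, hz0⟩ := hU.nonempty
  obtain ⟨L, ⟨hL1, hL2⟩, -⟩ := (gmap_cover hU).existsUnique_continuousMap_lifts b
    (c (gmap hU ⟨z0, hz0⟩)) ⟨z0, hz0⟩ (hbc _).symm
  have hL3 : ∀ w, gmap hU (L w) = b w := fun w => congrFun hL2 w
  have h1 : (fun z : U => L (c (gmap hU z))) = id := by
    apply (gmap_cover hU).eq_of_comp_eq (L.continuous.comp (hc.comp (gmap_continuous hU)))
      continuous_id (a := ⟨z0, hz0⟩)
    · funext z
      simp only [Function.comp_apply, id]
      rw [hL3, hbc]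
    · exact hL1
  constructor
  · intro x y hxy
    have h2 := congrFun h1 x
    have h3 := congrFun h1 y
    simp only [id] at h2 h3
    rw [← h2, ← h3, hxy]
  · intro z
    exact ⟨L (c z), by rw [hL3, hbc]⟩

theorem IsCopy.injOn : InjOn ((ev O.P)^[n]) U := by
  intro x hx y hy hxy
  have := (gmap_bijective hU).1 (a₁ := ⟨x, hx⟩) (a₂ := ⟨y, hy⟩) (Subtype.ext hxy)
  exact congrArg Subtype.val this

theorem IsCopy.surjOn : SurjOn ((ev O.P)^[n]) U O.B := by
  intro z hz
  obtain ⟨x, hx⟩ := (gmap_bijective hU).2 ⟨z, hz⟩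
  exact ⟨x, x.2, congrArg Subtype.val hx⟩

end Outer

end Pool.Agent.Helper620_Tuning
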