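import Mathlib

/-!
# Tuning of a polynomial at a superattracting cycle: definitions

`Outer` collects the data of the polynomial `P₁` with its superattracting cycle, `Inner d` the data
of the polynomial `P₂`, `tmap` is the modified map, `Rel` says that two points lie on one external
ray of one copy of the dynamical plane of `P₂`, and `TunedIsPolynomial` says that the tuned map is
topologically conjugate to a polynomial of the same degree as `P₁`.
-/

set_option autoImplicit false

open Polynomial Set Filter Topology Metric

namespace Pool.Agent.Helper620_Tuning

/-- The map `z ↦ P z` of the plane. -/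
def ev (P : ℂ[X]) : ℂ → ℂ := fun z => P.eval z

/-- The filled Julia set of `P`: the points with bounded forward orbit. -/
def filledJulia (P : ℂ[X]) : Set ℂ := {z | ∃ M : ℝ, ∀ n : ℕ, ‖(ev P)^[n] z‖ ≤ M}

/-- The Julia set of `P`: the frontier of the filled Julia set. -/
def julia (P : ℂ[X]) : Set ℂ := frontier (filledJulia P)

/-- The basin of attraction of the cycle of the periodic point `ω` of period `k`: the points `z`
such that `P^(k n + j) (z)` converges to `ω` for `n → ∞`, for some `j`. -/
def basin (P : ℂ[X]) (ω : ℂ) (k : ℕ) : Set ℂ :=
  {z | ∃ j : ℕ, Tendsto (fun n : ℕ => (ev P)^[k * n + j] z) atTop (𝓝 ω)}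

/-- The immediate basin of `ω`: the component of the basin which contains `ω`. -/
def immediate (P : ℂ[X]) (ω : ℂ) (k : ℕ) : Set ℂ := connectedComponentIn (basin P ω k) ω

/-- The data of the polynomial `P₁`: a polynomial `P` of degree at least two with connected Julia
set, a critical point `ω` of local degree `d ≥ 2` which is periodic of period `k`, such that the
basin of the cycle of `ω` contains no critical point other than `ω`, and a homeomorphism `β` of the
closed unit disc onto the closure of the immediate basin `B` of `ω`, holomorphic on the open disc,
which conjugates `w ↦ w ^ d` to `P^k` (one of the `d - 1` possible choices). The point `β u` of the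
boundary of `B`, `|u| = 1`, has internal angle `arg u`. -/
structure Outer where
  /-- the polynomial `P₁` -/
  P : ℂ[X]
  /-- the periodic critical point -/
  ω : ℂ
  /-- its period -/
  k : ℕ
  /-- its local degree -/
  d : ℕ
  two_le_degree : 2 ≤ P.natDegree
  connected : IsConnected (julia P)
  two_le_d : 2 ≤ d
  local_degree : (P - C (P.eval ω)).rootMultiplicity ω = d
  k_pos : 0 < k
  period : Function.minimalPeriod (ev P) ω = k
  critical : ∀ c, P.derivative.eval c = 0 → c ∈ basin P ω k → c = ω
  /-- the internal coordinate -/
  β : ℂ → ℂ
  β_cont : ContinuousOn β (closedBall 0 1)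
  β_inj : InjOn β (closedBall 0 1)
  β_ball : β '' ball 0 1 = immediate P ω k
  β_closedBall : β '' closedBall 0 1 = closure (immediate P ω k)
  β_diff : DifferentiableOn ℂ β (ball 0 1)
  β_conj : ∀ w ∈ closedBall (0 : ℂ) 1, (ev P)^[k] (β w) = β (w ^ d)

/-- The data of the polynomial `P₂`: a polynomial `P` of degree `d` with exactly one critical point
`c` and with connected and locally connected Julia set, and a Böttcher parametrisation `ψ` of the
complement of its filled Julia set, that is, a biholomorphic map from `{|w| > 1}` onto this
complement which conjugates `w ↦ w ^ d` to `P` (one of the `d - 1` possible choices), with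
`ψ w / w → a` for `w → ∞`. The external ray of angle `arg u`, `|u| = 1`, is
`{ψ (r u) | r > 1}`; it leaves every compact set in the direction `a u`. -/
structure Inner (d : ℕ) where
  /-- the polynomial `P₂` -/
  P : ℂ[X]
  degree : P.natDegree = d
  /-- the critical point -/
  c : ℂ
  critical : ∀ z, P.derivative.eval z = 0 ↔ z = c
  connected : IsConnected (julia P)
  locally_connected : LocallyConnectedSpace (julia P)
  /-- the Böttcher parametrisation -/
  ψ : ℂ → ℂ
  /-- its derivative at infinity -/
  a : ℂ
  ψ_diff : DifferentiableOn ℂ ψ {w | 1 < ‖w‖}
  ψ_inj : InjOn ψ {w | 1 < ‖w‖}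
  ψ_image : ψ '' {w | 1 < ‖w‖} = (filledJulia P)ᶜ
  ψ_conj : ∀ w, 1 < ‖w‖ → P.eval (ψ w) = ψ (w ^ d)
  a_ne : a ≠ 0
  ψ_lim : Tendsto (fun w => ψ w / w) (Bornology.cobounded ℂ) (𝓝 a)

namespace Inner

variable {d : ℕ} (I : Inner d)

/-- The plane of `P₂`, compactified by the circle of directions at infinity, is identified with the
closed unit disc: the point `v` of the plane becomes the point `κ v` of the open unit disc, and the
direction `a u` at infinity, `|u| = 1`, becomes the point `u` of the unit circle. -/
noncomputable def κ (v : ℂ) : ℂ := (v / I.a) / (1 + ‖v / I.a‖ : ℝ)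

/-- The inverse of `κ` on the open unit disc. -/
noncomputable def κinv (w : ℂ) : ℂ := I.a * (w / (1 - ‖w‖ : ℝ))

/-- The closed external ray of angle `arg u` in the compactified plane (the closed unit disc). Its
end at infinity is the point `u`. -/
noncomputable def closedRay (u : ℂ) : Set ℂ := closure ((fun r : ℝ => I.κ (I.ψ (r * u))) '' Ioi 1)

/-- The map `P₂` of the compactified plane (the closed unit disc). -/
noncomputable def disc (w : ℂ) : ℂ := if ‖w‖ < 1 then I.κ (I.P.eval (I.κinv w)) else w ^ d

end Inner

namespace Outer

variable (O : Outer)

/-- The basin of the cycle of `ω`. -/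
def bas : Set ℂ := basin O.P O.ω O.k

/-- The immediate basin of `ω`. -/
def B : Set ℂ := immediate O.P O.ω O.k

/-- `U` is a component of the basin, and `n` is the least number with `P^n (U) = B`: the points `z`
of `U` satisfy `P^n (z) ∈ B` and `P^m (z) ∉ B` for `m < n`. -/
def IsCopy (n : ℕ) (U : Set ℂ) : Prop :=
  ∃ z, (ev O.P)^[n] z ∈ O.B ∧ (∀ m < n, (ev O.P)^[m] z ∉ O.B) ∧ U = connectedComponentIn O.bas z

/-- The internal coordinate on the closure of `B`, the inverse of `β`. -/
noncomputable def coord (z : ℂ) : ℂ := Function.invFunOn O.β (closedBall 0 1) z

/-- The components of the basin form a null family: only finitely many of them have diameter at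
least `ε`, for every `ε > 0`. -/
def Null : Prop := ∀ ε > 0, {U : Set ℂ | (∃ n, O.IsCopy n U) ∧ ε ≤ Metric.diam U}.Finite

end Outer

/-- The modified map on the modified plane. The modified plane is identified with the plane, by the
identification of the compactified plane of `P₂` with the closed unit disc and of the latter with
the closure of `B` by the internal coordinate. Outside the closure of `B` the modified map is `P₁`;
on the closure of `B` it is `P₂` as a map from the modified `B` to the modified `P₁ (B)`, where the
latter is identified with the modified `B` by `P₁^(k-1)`. (On the boundary of `B` this is `P₁`.) -/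
noncomputable def tmap (O : Outer) (I : Inner O.d) (z : ℂ) : ℂ :=
  open Classical in
  if z ∈ closure O.B then
    Function.invFunOn ((ev O.P)^[O.k - 1]) (closure (ev O.P '' O.B)) (O.β (I.disc (O.coord z)))
  else ev O.P z

/-- `z` and `z'` lie on the same closed external ray of the copy of the compactified plane of `P₂`
which replaces a component `U` of the basin of the cycle of `ω` (the point `z` of the closure of `U`
has the coordinate of `P^n (z)`). -/
def Rel (O : Outer) (I : Inner O.d) (z z' : ℂ) : Prop :=
  ∃ n U, O.IsCopy n U ∧ z ∈ closure U ∧ z' ∈ closure U ∧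
    ∃ u : ℂ, ‖u‖ = 1 ∧ O.coord ((ev O.P)^[n] z) ∈ I.closedRay u ∧
      O.coord ((ev O.P)^[n] z') ∈ I.closedRay u

/-- The tuned map: the map induced by `tmap O I` on the quotient space in which every closed
external ray of every copy is collapsed to a point. This says that it is topologically conjugate
to the polynomial map `Q`. -/
def TunedConj (O : Outer) (I : Inner O.d) (Q : ℂ[X]) : Prop :=
  ∃ h : Quot (Rel O I) ≃ₜ ℂ, ∀ z, h (Quot.mk _ (tmap O I z)) = Q.eval (h (Quot.mk _ z))

/-- The tuned map is topologically conjugate to a polynomial of the same degree as `P₁`. -/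
def TunedIsPolynomial (O : Outer) (I : Inner O.d) : Prop :=
  ∃ Q : ℂ[X], Q.natDegree = O.P.natDegree ∧ TunedConj O I Q

end Pool.Agent.Helper620_Tuning
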