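import Pool.Agent.Helper620_Tuning.Cover

/-!
# Tuning: the closures of the components of the basin are closed discs
-/

set_option autoImplicit false

open Polynomial Set Filter Topology Metric

namespace Pool.Agent.Helper620_Tuning

namespace Outer

variable {O : Outer} {n : ℕ} {U : Set ℂ} (hU : O.IsCopy n U)

include hU

theorem IsCopy.exists_lift : ∃ L : ℂ → ℂ, ContinuousOn L (ball 0 1) ∧
    (∀ w ∈ ball (0:ℂ) 1, L w ∈ U ∧ (ev O.P)^[n] (L w) = O.β w) ∧
    ∀ z ∈ U, L (O.coord ((ev O.P)^[n] z)) = z := by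
  classical
  let e : U ≃ O.B := Equiv.ofBijective _ (gmap_bijective hU)
  have he : ∀ z, e z = gmap hU z := fun z => rfl
  have hopen : IsOpenMap (gmap hU) := (gmap_local hU).isOpenMap
  have hinv : Continuous e.symm := by
    have := (Equiv.continuous_symm_iff e).mpr hopen
    exact this
  refine ⟨fun w => if hw : w ∈ ball (0:ℂ) 1 then (e.symm ⟨O.β w, O.β_mem hw⟩ : ℂ) else 0, ?_, ?_, ?_⟩
  · rw [continuousOn_iff_continuous_domRestrict]
    have h1 : Continuous fun w : ball (0:ℂ) 1 => (e.symm ⟨O.β w, O.β_mem w.2⟩ : ℂ) := by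
      refine continuous_subtype_val.comp (hinv.comp ?_)
      apply Continuous.subtype_mk
      exact (O.β_cont.mono ball_subset_closedBall).domRestrict
    convert h1 using 1
    funext w
    have := w.2
    simp only [Set.domRestrict_apply]
    rw [dif_pos this]
  · intro w hw
    simp only [dif_pos hw]
    refine ⟨(e.symm ⟨O.β w, O.β_mem hw⟩).2, ?_⟩
    have := e.apply_symm_apply ⟨O.β w, O.β_mem hw⟩
    exact congrArg Subtype.val this
  · intro z hz
    have h1 := O.coord_mem_ball (hU.iter_mem hz)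
    simp only [dif_pos h1]
    have h2 : (⟨O.β (O.coord ((ev O.P)^[n] z)), O.β_mem h1⟩ : O.B) = e ⟨z, hz⟩ :=
      Subtype.ext (O.β_coord (subset_closure (hU.iter_mem hz)))
    rw [h2, e.symm_apply_apply]

theorem IsCopy.injOn_closure : InjOn ((ev O.P)^[n]) (closure U) := by
  intro x hx x' hx' hxx
  by_contra hne
  set F := (ev O.P)^[n] with hF
  have hFc : Continuous F := ev_iter_cont O.P n
  by_cases hB : F x ∈ O.B
  · have h1 : x ∈ U := (hU.mem_iff hx).mpr hB
    have h2 : x' ∈ U := (hU.mem_iff hx').mpr (by rw [← hF, ← hxx]; exact hB)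
    exact hne (hU.injOn h1 h2 hxx)
  · set y := F x with hy
    have hyc : y ∈ closure O.B := hU.iter_closure hx
    set u := O.coord y with hu
    have hu1 : u ∈ closedBall (0:ℂ) 1 := O.coord_mem hyc
    -- a small circle around `x` which does not meet the fibre
    have hfin : (F ⁻¹' {y}).Finite := fiber_finite (O := O) n y
    obtain ⟨η, hη, hη2⟩ : ∃ η > 0, (∀ z, F z = y → dist z x ≠ η) ∧ η < dist x' x := by
      have h1 : ((fun z => dist z x) '' (F ⁻¹' {y})).Finite := hfin.image _
      have h2 : (Ioo 0 (dist x' x) \ ((fun z => dist z x) '' (F ⁻¹' {y}))).Nonempty := by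
        apply ((Ioo_infinite (dist_pos.mpr (Ne.symm hne))).sdiff h1).nonempty
      obtain ⟨η, ⟨h3, h4⟩, h5⟩ := h2
      refine ⟨η, h3, fun z hz h6 => h5 ⟨z, hz, h6⟩, h4⟩
    obtain ⟨hη2, hη3⟩ := hη2
    obtain ⟨ε, hε, hε2⟩ : ∃ ε > 0, ∀ z ∈ sphere x η, ε ≤ dist (F z) y := by
      rcases (sphere x η).eq_empty_or_nonempty with h | h
      · exact ⟨1, one_pos, by rw [h]; simp⟩
      · obtain ⟨z0, hz0, hmin⟩ := (isCompact_sphere x η).exists_isMinOn h
          (f := fun z => dist (F z) y) (by fun_prop)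
        refine ⟨dist (F z0) y, dist_pos.mpr ?_, fun z hz => hmin hz⟩
        intro h1
        exact hη2 z0 h1 hz0
    -- the half disc at `u`
    obtain ⟨δ, hδ, hδ2⟩ : ∃ δ > 0, ∀ w ∈ closedBall (0:ℂ) 1, dist w u < δ → dist (O.β w) y < ε := by
      have h1 := Metric.continuousWithinAt_iff.mp (O.β_cont u hu1) ε hε
      obtain ⟨δ, hδ, h2⟩ := h1
      refine ⟨δ, hδ, fun w hw hw2 => ?_⟩
      have := h2 hw hw2
      rwa [hu, O.β_coord hyc] at this
    obtain ⟨L, hL1, hL2, hL3⟩ := hU.exists_lift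
    set S := L '' (ball (0:ℂ) 1 ∩ ball u δ) with hS
    have hSc : IsPreconnected S := by
      apply IsPreconnected.image _ _ (hL1.mono inter_subset_left)
      exact ((convex_ball _ _).inter (convex_ball _ _)).isPreconnected
    have hSF : ∀ z ∈ S, dist (F z) y < ε := by
      rintro _ ⟨w, ⟨hw1, hw2⟩, rfl⟩
      have h := (hL2 w hw1).2
      rw [← hF] at h
      rw [h]
      exact hδ2 w (ball_subset_closedBall hw1) hw2
    -- points of `S` near a point of the closure with value `y`
    have key : ∀ t ∈ closure U, F t = y → ∀ V ∈ 𝓝 t, (V ∩ S).Nonempty := by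
      intro t ht hty V hV
      have h1 : Tendsto (fun z => O.coord (F z)) (𝓝[U] t) (𝓝 u) := by
        have h2 : ContinuousWithinAt O.coord (closure O.B) (F t) := O.coord_cont (F t) (hU.iter_closure ht)
        have h3 : Tendsto F (𝓝[U] t) (𝓝[closure O.B] (F t)) := by
          apply tendsto_nhdsWithin_iff.mpr
          refine ⟨(hFc.tendsto t).mono_left nhdsWithin_le_nhds, ?_⟩
          filter_upwards [self_mem_nhdsWithin] with z hz
          exact subset_closure (hU.iter_mem hz)
        have h4 := h2.tendsto.comp h3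
        rw [hty] at h4
        exact h4
      have h5 : ∀ᶠ z in 𝓝[U] t, O.coord (F z) ∈ ball u δ := h1.eventually (ball_mem_nhds u hδ)
      have h6 : ∀ᶠ z in 𝓝[U] t, z ∈ V := mem_nhdsWithin_of_mem_nhds hV
      have h7 : ∀ᶠ z in 𝓝[U] t, z ∈ U := self_mem_nhdsWithin
      have : (𝓝[U] t).NeBot := mem_closure_iff_nhdsWithin_neBot.mp ht
      obtain ⟨z, hz5, hz6, hz7⟩ := (h5.and (h6.and h7)).exists
      refine ⟨z, hz6, O.coord (F z), ⟨O.coord_mem_ball (hU.iter_mem hz7), hz5⟩, hL3 z hz7⟩
    obtain ⟨p, hp1, hp2⟩ := key x hx rfl (ball x η) (ball_mem_nhds x hη)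
    obtain ⟨q, hq1, hq2⟩ := key x' hx' hxx.symm {z | η < dist z x}
      ((isOpen_lt continuous_const (by fun_prop)).mem_nhds hη3)
    have h8 : (S ∩ (ball x η ∩ {z | η < dist z x})).Nonempty := by
      apply hSc (ball x η) {z | η < dist z x} isOpen_ball (isOpen_lt continuous_const (by fun_prop))
      · intro z hz
        rcases lt_trichotomy (dist z x) η with h | h | h
        · exact Or.inl h
        · exact absurd (hε2 z h) (not_le.mpr (hSF z hz))
        · exact Or.inr h
      · exact ⟨p, hp2, hp1⟩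
      · exact ⟨q, hq2, hq1⟩
    obtain ⟨z, -, h9, h10⟩ := h8
    exact absurd (mem_ball.mp h9) (not_lt.mpr (le_of_lt h10))

theorem IsCopy.surjOn_closure : SurjOn ((ev O.P)^[n]) (closure U) (closure O.B) := by
  apply closure_minimal (hU.surjOn.trans (image_mono subset_closure))
  exact (hU.isCompact_closure.image (ev_iter_cont _ n)).isClosed

/-- the coordinate of a point of the closure of the copy -/
theorem IsCopy.coord_mem {z : ℂ} (hz : z ∈ closure U) :
    O.coord ((ev O.P)^[n] z) ∈ closedBall (0:ℂ) 1 := O.coord_mem (hU.iter_closure hz)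

theorem IsCopy.coord_injOn : InjOn (fun z => O.coord ((ev O.P)^[n] z)) (closure U) := by
  intro x hx y hy hxy
  apply hU.injOn_closure hx hy
  have h1 := O.β_coord (hU.iter_closure hx)
  have h2 := O.β_coord (hU.iter_closure hy)
  dsimp only at hxy
  rw [← h1, ← h2, hxy]

theorem IsCopy.coord_cont : ContinuousOn (fun z => O.coord ((ev O.P)^[n] z)) (closure U) :=
  O.coord_cont.comp (ev_iter_cont _ n).continuousOn (fun _ hz => hU.iter_closure hz)

omit hU in
/-- The inverse of the coordinate on the closure of the copy. -/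
noncomputable def sec (O : Outer) (n : ℕ) (U : Set ℂ) : ℂ → ℂ :=
  Function.invFunOn (fun z => O.coord ((ev O.P)^[n] z)) (closure U)

theorem IsCopy.exists_coord {w : ℂ} (hw : w ∈ closedBall (0:ℂ) 1) :
    ∃ z ∈ closure U, O.coord ((ev O.P)^[n] z) = w := by
  obtain ⟨z, hz, hz2⟩ := hU.surjOn_closure (O.β_mem_closure hw)
  exact ⟨z, hz, by rw [hz2, O.coord_β hw]⟩

theorem IsCopy.sec_mem {w : ℂ} (hw : w ∈ closedBall (0:ℂ) 1) : O.sec n U w ∈ closure U :=
  Function.invFunOn_mem (hU.exists_coord hw)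

theorem IsCopy.coord_sec {w : ℂ} (hw : w ∈ closedBall (0:ℂ) 1) :
    O.coord ((ev O.P)^[n] (O.sec n U w)) = w :=
  Function.invFunOn_eq (f := fun z => O.coord ((ev O.P)^[n] z)) (hU.exists_coord hw)

theorem IsCopy.iter_sec {w : ℂ} (hw : w ∈ closedBall (0:ℂ) 1) :
    (ev O.P)^[n] (O.sec n U w) = O.β w := by
  rw [← O.β_coord (hU.iter_closure (hU.sec_mem hw)), hU.coord_sec hw]

theorem IsCopy.sec_coord {z : ℂ} (hz : z ∈ closure U) :
    O.sec n U (O.coord ((ev O.P)^[n] z)) = z :=
  hU.coord_injOn (hU.sec_mem (hU.coord_mem hz)) hz (hU.coord_sec (hU.coord_mem hz))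

theorem IsCopy.sec_injOn : InjOn (O.sec n U) (closedBall 0 1) := by
  intro x hx y hy hxy
  rw [← hU.coord_sec hx, ← hU.coord_sec hy, hxy]

theorem IsCopy.sec_cont : ContinuousOn (O.sec n U) (closedBall 0 1) := by
  rw [continuousOn_iff_isClosed]
  intro t ht
  refine ⟨(fun z => O.coord ((ev O.P)^[n] z)) '' (t ∩ closure U), ?_, ?_⟩
  · have : IsCompact (t ∩ closure U) := hU.isCompact_closure.inter_left ht
    exact (this.image_of_continuousOn (hU.coord_cont.mono inter_subset_right)).isClosed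
  · ext w
    constructor
    · rintro ⟨h1, h2⟩
      exact ⟨⟨O.sec n U w, ⟨h1, hU.sec_mem h2⟩, hU.coord_sec h2⟩, h2⟩
    · rintro ⟨⟨z, ⟨h1, h2⟩, rfl⟩, h3⟩
      refine ⟨?_, h3⟩
      show O.sec n U (O.coord ((ev O.P)^[n] z)) ∈ t
      rwa [hU.sec_coord h2]

theorem IsCopy.sec_mem_iff {w : ℂ} (hw : w ∈ closedBall (0:ℂ) 1) :
    O.sec n U w ∈ U ↔ w ∈ ball (0:ℂ) 1 := by
  rw [hU.mem_iff (hU.sec_mem hw), hU.iter_sec hw]
  constructor
  · intro h
    have := O.coord_mem_ball h
    rwa [O.coord_β hw] at this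
  · exact fun h => O.β_mem h

theorem IsCopy.coord_mem_ball_iff {z : ℂ} (hz : z ∈ closure U) :
    O.coord ((ev O.P)^[n] z) ∈ ball (0:ℂ) 1 ↔ z ∈ U := by
  rw [← hU.sec_mem_iff (hU.coord_mem hz), hU.sec_coord hz]

theorem IsCopy.sec_image : O.sec n U '' ball 0 1 = U := by
  ext z
  constructor
  · rintro ⟨w, hw, rfl⟩
    exact (hU.sec_mem_iff (ball_subset_closedBall hw)).mpr hw
  · intro hz
    exact ⟨_, (hU.coord_mem_ball_iff (subset_closure hz)).mpr hz, hU.sec_coord (subset_closure hz)⟩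

/-- the inverse of the coordinate is holomorphic in the open disc -/
theorem IsCopy.sec_diff : DifferentiableOn ℂ (O.sec n U) (ball 0 1) := by
  intro w hw
  have hw1 := ball_subset_closedBall hw
  apply DifferentiableAt.differentiableWithinAt
  have h1 : HasStrictDerivAt ((ev O.P)^[n]) (deriv ((ev O.P)^[n]) (O.sec n U w)) (O.sec n U w) :=
    ((ev_iter_diff O.P n).differentiableOn.analyticOnNhd isOpen_univ _ (mem_univ _)).hasStrictDerivAt
  have h2 : ContinuousAt (O.sec n U) w :=
    (hU.sec_cont w hw1).continuousAt (closedBall_mem_nhds_of_mem hw)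
  -- local inverse of the iterate
  have h3 := (hU.deriv_ne ((hU.sec_mem_iff hw1).mpr hw))
  have h4 := h1.hasStrictFDerivAt_equiv h3
  set e := h4.toOpenPartialHomeomorph _ with he
  have hes : O.sec n U w ∈ e.source := h4.mem_toOpenPartialHomeomorph_source
  have hef : ∀ z, e z = (ev O.P)^[n] z := fun z => rfl
  have h5 : ∀ᶠ x in 𝓝 w, O.sec n U x = e.symm (O.β x) := by
    have h6 : ∀ᶠ x in 𝓝 w, O.sec n U x ∈ e.source := h2.eventually (e.open_source.mem_nhds hes)
    filter_upwards [h6, isOpen_ball.mem_nhds hw] with x hx hx2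
    rw [← hU.iter_sec (ball_subset_closedBall hx2), ← hef, e.left_inv hx]
  refine DifferentiableAt.congr_of_eventuallyEq ?_ h5
  have h7 : DifferentiableAt ℂ O.β w := (O.β_diff w hw).differentiableAt (isOpen_ball.mem_nhds hw)
  have h8 : DifferentiableAt ℂ e.symm (O.β w) := by
    have h9 := h1.to_localInverse h3
    have h10 : (ev O.P)^[n] (O.sec n U w) = O.β w := hU.iter_sec hw1
    rw [h10] at h9
    exact h9.hasDerivAt.differentiableAt
  exact h8.comp w h7

end Outer

end Pool.Agent.Helper620_Tuning
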