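import Mathlib

/-!
# Topological lemmas
-/

set_option autoImplicit false

open Set Filter Topology Metric

namespace Pool.Agent.Helper620_Tuning

/-- Two points of a compact set in different components are separated by open sets which cover the
compact set. -/
theorem conn_sep {K : Set ℂ} (hK : IsCompact K) {p x : ℂ} (hp : p ∈ K) (hx : x ∈ K)
    (h : x ∉ connectedComponentIn K p) :
    ∃ G1 G2 : Set ℂ, IsOpen G1 ∧ IsOpen G2 ∧ Disjoint G1 G2 ∧ K ⊆ G1 ∪ G2 ∧ p ∈ G1 ∧ x ∈ G2 := by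
  have : CompactSpace K := isCompact_iff_compactSpace.mp hK
  rw [connectedComponentIn_eq_image hp] at h
  have h1 : (⟨x, hx⟩ : K) ∉ connectedComponent (⟨p, hp⟩ : K) := fun h2 => h ⟨_, h2, rfl⟩
  rw [connectedComponent_eq_iInter_isClopen, mem_iInter] at h1
  push Not at h1
  obtain ⟨⟨s, hs, hps⟩, hxs⟩ := h1
  have h2 : IsCompact (Subtype.val '' s : Set ℂ) := hs.1.isCompact.image continuous_subtype_val
  have h3 : IsCompact (Subtype.val '' sᶜ : Set ℂ) :=
    hs.compl.1.isCompact.image continuous_subtype_val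
  have h4 : Disjoint (Subtype.val '' s : Set ℂ) (Subtype.val '' sᶜ) := by
    rw [Set.disjoint_left]
    rintro _ ⟨a, ha, rfl⟩ ⟨b, hb, hab⟩
    have : b = a := Subtype.ext hab
    rw [this] at hb
    exact hb ha
  obtain ⟨G1, G2, hG1, hG2, h5, h6, h7⟩ := SeparatedNhds.of_isCompact_isCompact h2 h3 h4
  refine ⟨G1, G2, hG1, hG2, h7, ?_, h5 ⟨_, hps, rfl⟩, h6 ⟨_, hxs, rfl⟩⟩
  intro y hy
  by_cases hys : (⟨y, hy⟩ : K) ∈ s
  · exact Or.inl (h5 ⟨_, hys, rfl⟩)
  · exact Or.inr (h6 ⟨_, hys, rfl⟩)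

/-- Boundary bumping. -/
theorem bump {C : Set ℂ} (hC : IsCompact C) (hc : IsPreconnected C) {y z : ℂ} {r : ℝ} (hr : 0 < r)
    (hy : y ∈ C) (hz : z ∈ C) (hzr : r < dist z y) :
    ∃ S ⊆ C ∩ closedBall y r, IsPreconnected S ∧ ∃ a ∈ S, ∃ b ∈ S, a ≠ b := by
  by_contra hcon
  push Not at hcon
  set X : Set ℂ := C ∩ closedBall y r with hX
  have hXc : IsCompact X := hC.inter_right isClosed_closedBall
  have : CompactSpace X := isCompact_iff_compactSpace.mp hXc
  have : TotallyDisconnectedSpace X := by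
    refine ⟨?_⟩
    intro t _ ht
    have h1 : IsPreconnected (Subtype.val '' t : Set ℂ) :=
      ht.image _ continuous_subtype_val.continuousOn
    have h2 := hcon (Subtype.val '' t) (by rintro _ ⟨a, -, rfl⟩; exact a.2) h1
    intro a ha b hb
    exact Subtype.ext (h2 a ⟨a, ha, rfl⟩ b ⟨b, hb, rfl⟩)
  have hyX : y ∈ X := ⟨hy, mem_closedBall_self hr.le⟩
  obtain ⟨V, hV, hyV, hVsub⟩ := compact_exists_isClopen_in_isOpen (X := X) (x := ⟨y, hyX⟩)
    (U := Subtype.val ⁻¹' ball y r) (isOpen_ball.preimage continuous_subtype_val)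
    (mem_ball_self hr)
  have h2 : IsClosed (Subtype.val '' V : Set ℂ) :=
    (hV.1.isCompact.image continuous_subtype_val).isClosed
  have h3 : IsClosed (Subtype.val '' Vᶜ ∪ (C \ ball y r) : Set ℂ) :=
    (hV.compl.1.isCompact.image continuous_subtype_val).isClosed.union
      (hC.isClosed.sdiff isOpen_ball)
  obtain ⟨w, hw, hw1, hw2⟩ := isPreconnected_closed_iff.mp hc _ _ h2 h3 (by
    intro w hw
    by_cases hwb : w ∈ ball y r
    · have hwX : w ∈ X := ⟨hw, ball_subset_closedBall hwb⟩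
      by_cases hwV : (⟨w, hwX⟩ : X) ∈ V
      · exact Or.inl ⟨_, hwV, rfl⟩
      · exact Or.inr (Or.inl ⟨_, hwV, rfl⟩)
    · exact Or.inr (Or.inr ⟨hw, hwb⟩)) ⟨y, hy, _, hyV, rfl⟩
    ⟨z, hz, Or.inr ⟨hz, by rw [mem_ball]; exact not_lt.mpr hzr.le⟩⟩
  obtain ⟨a, ha, rfl⟩ := hw1
  rcases hw2 with ⟨b, hb, hab⟩ | ⟨_, hb⟩
  · rw [Subtype.ext hab] at hb
    exact hb ha
  · exact hb (hVsub ha)

/-- A nondegenerate connected subset of the circle is mapped onto the circle by an iterate of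
`w ↦ w ^ d`. -/
theorem circle_expand {T : Set ℂ} (hT : IsPreconnected T) (hT1 : ∀ w ∈ T, ‖w‖ = 1) {a b : ℂ}
    (ha : a ∈ T) (hb : b ∈ T) (hab : a ≠ b) {d : ℕ} (hd : 2 ≤ d) :
    ∃ N : ℕ, ∀ v : ℂ, ‖v‖ = 1 → ∃ u ∈ T, u ^ (d ^ N) = v := by
  by_cases hfull : ∀ v : ℂ, ‖v‖ = 1 → v ∈ T
  · exact ⟨0, fun v hv => ⟨v, hfull v hv, by simp⟩⟩
  push Not at hfull
  obtain ⟨u0, hu0, hu0T⟩ := hfull
  set c : ℂ := -u0 with hc
  have hcn : ‖c‖ = 1 := by rw [hc, norm_neg, hu0]
  have hc0 : c ≠ 0 := by intro h; rw [h, norm_zero] at hcn; norm_num at hcn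
  set g : ℂ → ℝ := fun w => Complex.arg (w / c) with hg
  have hgw : ∀ w : ℂ, ‖w‖ = 1 → w = c * Complex.exp (g w * Complex.I) := by
    intro w hw
    have h1 := Complex.norm_mul_exp_arg_mul_I (w / c)
    rw [norm_div, hw, hcn, div_one, Complex.ofReal_one, one_mul] at h1
    rw [hg]
    dsimp only
    rw [h1, mul_div_cancel₀ _ hc0]
  have hgc : ContinuousOn g T := by
    intro w hw
    have h1 : w / c ∈ Complex.slitPlane := by
      rw [Complex.mem_slitPlane_iff_arg]
      constructor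
      · intro harg
        apply hu0T
        have h2 := hgw w (hT1 w hw)
        rw [hg] at h2
        dsimp only at h2
        rw [harg, Complex.exp_pi_mul_I] at h2
        rw [hc, neg_mul_neg, mul_one] at h2
        rwa [← h2]
      · intro h
        rw [div_eq_zero_iff] at h
        rcases h with h | h
        · have := hT1 w hw
          rw [h, norm_zero] at this; norm_num at this
        · exact hc0 h
    have h2 : ContinuousAt g w := by
      have h3 := Complex.continuousAt_arg h1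
      exact h3.comp (f := fun w => w / c) (continuousAt_id.div_const c)
    exact h2.continuousWithinAt
  have hne : g a ≠ g b := by
    intro h
    apply hab
    rw [hgw a (hT1 a ha), hgw b (hT1 b hb), h]
  -- the interval between the two values
  obtain ⟨s, t, hst, hI⟩ : ∃ s t : ℝ, s < t ∧ ∀ x ∈ Icc s t, ∃ w ∈ T, g w = x := by
    have h1 := (hT.image g hgc).ordConnected
    rcases lt_or_gt_of_ne hne with h | h
    · exact ⟨g a, g b, h, fun x hx => h1.out ⟨a, ha, rfl⟩ ⟨b, hb, rfl⟩ hx⟩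
    · exact ⟨g b, g a, h, fun x hx => h1.out ⟨b, hb, rfl⟩ ⟨a, ha, rfl⟩ hx⟩
  obtain ⟨N, hN⟩ := pow_unbounded_of_one_lt (2 * Real.pi / (t - s)) (show (1:ℝ) < d by
    exact_mod_cast (by omega : 1 < d))
  refine ⟨N, fun v hv => ?_⟩
  set m : ℕ := d ^ N with hm
  have hm0 : (0:ℝ) < m := by
    rw [hm]; push_cast
    have : (0:ℝ) < d := by exact_mod_cast (by omega : 0 < d)
    positivity
  have hN' : 2 * Real.pi < (t - s) * m := by
    rw [div_lt_iff₀ (by linarith)] at hN
    rw [hm]; push_cast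
    linarith
  -- angle of the target
  set τ : ℝ := Complex.arg (v / c ^ m) with hτ
  have hvτ : v = c ^ m * Complex.exp (τ * Complex.I) := by
    have h1 := Complex.norm_mul_exp_arg_mul_I (v / c ^ m)
    rw [norm_div, hv, norm_pow, hcn, one_pow, div_one, Complex.ofReal_one, one_mul] at h1
    rw [hτ, h1, mul_div_cancel₀ _ (pow_ne_zero _ hc0)]
  set l : ℤ := ⌈(m * s - τ) / (2 * Real.pi)⌉ with hl
  have hpi := Real.pi_pos
  have h1 : m * s ≤ τ + 2 * Real.pi * l := by
    have := Int.le_ceil ((m * s - τ) / (2 * Real.pi))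
    rw [← hl, div_le_iff₀ (by linarith)] at this
    linarith
  have h2 : τ + 2 * Real.pi * l ≤ m * t := by
    have := Int.ceil_lt_add_one ((m * s - τ) / (2 * Real.pi))
    rw [← hl] at this
    have h3 : (l:ℝ) * (2 * Real.pi) < ((m * s - τ) / (2 * Real.pi) + 1) * (2 * Real.pi) := by
      gcongr
    rw [add_mul, div_mul_cancel₀ _ (by positivity), one_mul] at h3
    nlinarith
  set x : ℝ := (τ + 2 * Real.pi * l) / m with hx
  have hxI : x ∈ Icc s t := by
    rw [hx]
    constructor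
    · rw [le_div_iff₀ hm0]; linarith
    · rw [div_le_iff₀ hm0]; linarith
  obtain ⟨w, hw, hwx⟩ := hI x hxI
  refine ⟨w, hw, ?_⟩
  rw [hgw w (hT1 w hw), mul_pow, ← Complex.exp_nat_mul, hvτ, hwx]
  congr 1
  have h3 : (m : ℂ) * ((x : ℂ) * Complex.I) = τ * Complex.I + l * (2 * Real.pi * Complex.I) := by
    rw [hx]
    have : (m : ℂ) ≠ 0 := by exact_mod_cast hm0.ne'
    push_cast
    field_simp
  rw [h3, Complex.exp_add, Complex.exp_int_mul_two_pi_mul_I, mul_one]

end Pool.Agent.Helper620_Tuning
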