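import Pool.Agent.Helper620_Tuning.Next
import Pool.Agent.Helper620_Tuning.Topo
import Pool.Agent.Helper620_Tuning.FixedInner

/-!
# Tuning: facts for arbitrary `P₂`
-/

set_option autoImplicit false

open Polynomial Set Filter Topology Metric

namespace Pool.Agent.Helper620_Tuning

namespace Inner

variable {d : ℕ} (I : Inner d)

theorem disc_sphere {w : ℂ} (hw : ‖w‖ = 1) : I.disc w = w ^ d := by
  unfold disc
  rw [if_neg (by rw [hw]; exact lt_irrefl _)]

/-- every closed ray meets a fixed compact subset of the open disc -/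
theorem exists_core : ∃ ρ : ℝ, 0 ≤ ρ ∧ ρ < 1 ∧ ∀ u : ℂ, ‖u‖ = 1 →
    ∃ w ∈ closedBall (0:ℂ) ρ, w ∈ I.closedRay u := by
  have h1 : ContinuousOn (fun u : ℂ => I.ψ ((2:ℝ) * u) / I.a) (sphere (0:ℂ) 1) := by
    apply ContinuousOn.div_const
    apply I.ψ_diff.continuousOn.comp (by fun_prop)
    intro u hu
    rw [mem_sphere_zero_iff_norm] at hu
    show 1 < ‖((2:ℝ):ℂ) * u‖
    rw [norm_mul, hu]; norm_num
  obtain ⟨M, hM⟩ := (isCompact_sphere (0:ℂ) 1).exists_bound_of_continuousOn h1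
  have hM0 : 0 ≤ max M 0 := le_max_right _ _
  refine ⟨max M 0 / (1 + max M 0), by positivity, by rw [div_lt_one (by positivity)]; linarith,
    fun u hu => ⟨I.κ (I.ψ ((2:ℝ) * u)), ?_, I.mem_closedRay (by norm_num)⟩⟩
  rw [mem_closedBall_zero_iff, κ_norm]
  have h2 : ‖I.ψ ((2:ℝ) * u) / I.a‖ ≤ max M 0 :=
    (hM u (by rwa [mem_sphere_zero_iff_norm])).trans (le_max_left _ _)
  have h3 : (0:ℝ) ≤ ‖I.ψ ((2:ℝ) * u) / I.a‖ := norm_nonneg _
  rw [div_le_div_iff₀ (by positivity) (by positivity)]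
  nlinarith

/-- the end at infinity of a ray -/
theorem end_mem {u : ℂ} (hu : ‖u‖ = 1) : u ∈ I.closedRay u := by
  have hu0 : u ≠ 0 := by intro h; rw [h, norm_zero] at hu; norm_num at hu
  have hlim : Tendsto (fun r : ℝ => (r:ℂ) * u) atTop (Bornology.cobounded ℂ) := by
    rw [← tendsto_norm_atTop_iff_cobounded]
    refine tendsto_id.congr' ?_
    filter_upwards [eventually_gt_atTop 0] with r hr
    rw [norm_mul, hu, Complex.norm_real, Real.norm_of_nonneg hr.le, mul_one]; rfl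
  have h1 : Tendsto (fun r : ℝ => I.ψ (r * u) / (r * u) / I.a) atTop (𝓝 1) := by
    have := (I.ψ_lim.comp hlim).div_const I.a
    rwa [div_self I.a_ne] at this
  have h2 : Tendsto (fun r : ℝ => r⁻¹) atTop (𝓝 0) := tendsto_inv_atTop_zero
  -- `κ (ψ (r u)) = u q / (r⁻¹ + |q|)` with `q = ψ (r u) / (r u a)`
  have h3 : Tendsto (fun r : ℝ => u * (I.ψ (r * u) / (r * u) / I.a) /
      ((r⁻¹ + ‖I.ψ (r * u) / (r * u) / I.a‖ : ℝ) : ℂ)) atTop (𝓝 (u * 1 / ((0 + ‖(1:ℂ)‖ : ℝ) : ℂ))) := by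
    apply Tendsto.div (tendsto_const_nhds.mul h1)
    · exact (Complex.continuous_ofReal.tendsto _).comp (h2.add h1.norm)
    · norm_num
  have h4 : u * 1 / ((0 + ‖(1:ℂ)‖ : ℝ) : ℂ) = u := by simp
  rw [h4] at h3
  apply mem_closure_of_tendsto h3
  filter_upwards [eventually_gt_atTop 1] with r hr
  refine ⟨r, hr, ?_⟩
  dsimp only
  have hr0 : 0 < r := by linarith
  have hrc : (r:ℂ) ≠ 0 := by exact_mod_cast hr0.ne'
  have h5 : I.ψ (r * u) / I.a = r * (u * (I.ψ (r * u) / (r * u) / I.a)) := by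
    have := I.a_ne
    field_simp
  unfold κ
  rw [h5, norm_mul, norm_mul u, hu, one_mul, Complex.norm_real, Real.norm_of_nonneg hr0.le]
  have h7 : 1 + r * ‖I.ψ (r * u) / (r * u) / I.a‖ =
      r * (r⁻¹ + ‖I.ψ (r * u) / (r * u) / I.a‖) := by field_simp
  rw [h7, Complex.ofReal_mul, mul_div_mul_left _ _ hrc]

/-- all points near the circle lie on closed rays -/
theorem exists_ray (hd : 2 ≤ d) : ∃ ρ : ℝ, ρ < 1 ∧ ∀ w : ℂ, ‖w‖ ≤ 1 → ρ < ‖w‖ →
    ∃ u : ℂ, ‖u‖ = 1 ∧ w ∈ I.closedRay u := by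
  obtain ⟨R, hR⟩ := filledJulia_bdd (P := I.P) (by rw [I.degree]; exact hd)
  set R' := max R 1 with hR'
  have hR0 : 0 < R' := lt_of_lt_of_le one_pos (le_max_right _ _)
  have ha : 0 < ‖I.a‖ := norm_pos_iff.mpr I.a_ne
  refine ⟨R' / (‖I.a‖ + R'), by rw [div_lt_one (by positivity)]; linarith, fun w hw hw2 => ?_⟩
  rcases hw.lt_or_eq with h | h
  · have h1 : 0 < 1 - ‖w‖ := by linarith
    have h2 : R < ‖I.κinv w‖ := by
      unfold κinv
      rw [norm_mul, norm_div, Complex.norm_real, Real.norm_of_nonneg h1.le]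
      refine lt_of_le_of_lt (le_max_left R 1) ?_
      rw [← hR', ← mul_div_assoc, lt_div_iff₀ h1]
      rw [div_lt_iff₀ (by positivity)] at hw2
      nlinarith
    have h3 : I.κinv w ∈ (filledJulia I.P)ᶜ := fun hcon => absurd (hR _ hcon) (not_le.mpr h2)
    rw [← I.ψ_image] at h3
    obtain ⟨y, hy, hy2⟩ := h3
    have hy1 : 1 < ‖y‖ := hy
    have hy0 : ((‖y‖ : ℝ) : ℂ) ≠ 0 := by exact_mod_cast (by linarith : (0:ℝ) < ‖y‖).ne'
    refine ⟨y / (‖y‖ : ℝ), ?_, ?_⟩
    · rw [norm_div, Complex.norm_real, Real.norm_of_nonneg (norm_nonneg _), div_self]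
      exact_mod_cast hy0
    · have h4 := I.mem_closedRay (u := y / (‖y‖ : ℝ)) hy1
      rwa [mul_div_cancel₀ _ hy0, hy2, I.κ_κinv h] at h4
  · exact ⟨w, h, I.end_mem h⟩

end Inner

namespace Outer

variable {O : Outer}

/-- points of `B` converge to `ω` -/
theorem tendsto_B {z : ℂ} (hz : z ∈ O.B) :
    Tendsto (fun m : ℕ => (ev O.P)^[O.k * m] z) atTop (𝓝 O.ω) := by
  have h1 := O.coord_mem_ball hz
  have h2 := O.β_coord (subset_closure hz)
  have h3 : ∀ m, (ev O.P)^[O.k * m] z = O.β ((O.coord z) ^ (O.d ^ m)) := by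
    intro m
    rw [← O.β_iter (ball_subset_closedBall h1) m, h2]
  simp_rw [h3]
  rw [← O.β_zero]
  have h4 : Tendsto (fun m : ℕ => (O.coord z) ^ (O.d ^ m)) atTop (𝓝 0) := by
    have h5 : Tendsto (fun m : ℕ => O.d ^ m) atTop atTop :=
      tendsto_pow_atTop_atTop_of_one_lt (by have := O.two_le_d; omega)
    exact (tendsto_pow_atTop_nhds_zero_of_norm_lt_one (by rwa [mem_ball_zero_iff] at h1)).comp h5
  have h6 : ContinuousAt O.β 0 :=
    (O.β_cont 0 (mem_closedBall_self zero_le_one)).continuousAt (closedBall_mem_nhds 0 one_pos)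
  exact h6.tendsto.comp h4

/-- escaping points accumulate at every boundary point of `B` -/
theorem exists_escaping {x : ℂ} (hx : x ∈ closure O.B) (hx2 : x ∉ O.B) {ε : ℝ} (hε : 0 < ε) :
    ∃ y ∉ filledJulia O.P, dist y x < ε := by
  by_contra hcon
  push Not at hcon
  obtain ⟨R, hR, hesc⟩ := esc_radius O.two_le_degree
  have hsub : ∀ z ∈ ball x ε, z ∈ filledJulia O.P := by
    intro z hz
    by_contra h
    exact absurd (hcon z h) (not_le.mpr hz)
  have hR0 : 0 < R := by linarith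
  have hbd : ∀ z ∈ ball x ε, ∀ n, ‖(ev O.P)^[n] z‖ ≤ R := fun z hz =>
    (filledJulia_iff hR hesc z).mp (hsub z hz)
  have hxε : x ∈ ball x ε := mem_ball_self hε
  have hlip : ∀ m : ℕ, ∀ z ∈ ball x ε,
      dist ((ev O.P)^[O.k * m] z) ((ev O.P)^[O.k * m] x) ≤ 2 * R / ε * dist z x := by
    intro m z hz
    apply Complex.dist_le_div_mul_dist_of_mapsTo_ball (ev_iter_diff _ _).differentiableOn _ hz
    intro y hy
    rw [mem_closedBall, dist_eq_norm]
    have h1 := hbd y hy (O.k * m)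
    have h2 := hbd x hxε (O.k * m)
    have h3 := norm_sub_le ((ev O.P)^[O.k * m] y) ((ev O.P)^[O.k * m] x)
    linarith
  have hlim : Tendsto (fun m : ℕ => (ev O.P)^[O.k * m] x) atTop (𝓝 O.ω) := by
    rw [Metric.tendsto_atTop]
    intro δ hδ
    obtain ⟨z, hzB, hz⟩ := Metric.mem_closure_iff.mp hx (min ε (δ * ε / (4 * R))) (by positivity)
    rw [dist_comm] at hz
    have hz1 : z ∈ ball x ε := lt_of_lt_of_le hz (min_le_left _ _)
    have hz2 : dist z x < δ * ε / (4 * R) := lt_of_lt_of_le hz (min_le_right _ _)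
    obtain ⟨N, hN⟩ := Metric.tendsto_atTop.mp (tendsto_B hzB) (δ / 2) (by linarith)
    refine ⟨N, fun m hm => ?_⟩
    have h1 := hlip m z hz1
    have h2 := hN m hm
    have h3 : 2 * R / ε * dist z x < δ / 2 := by
      have h4 : 2 * R / ε * dist z x < 2 * R / ε * (δ * ε / (4 * R)) := by
        apply mul_lt_mul_of_pos_left hz2; positivity
      have h5 : 2 * R / ε * (δ * ε / (4 * R)) = δ / 2 := by field_simp; norm_num
      linarith
    have h4 := dist_triangle ((ev O.P)^[O.k * m] x) ((ev O.P)^[O.k * m] z) O.ω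
    rw [dist_comm ((ev O.P)^[O.k * m] x) ((ev O.P)^[O.k * m] z)] at h4
    linarith
  have hxb : x ∈ O.bas := ⟨0, by simpa using hlim⟩
  exact hx2 (O.isCopy_B.closure_inter hx hxb)

theorem closure_sub_filled {n : ℕ} {U : Set ℂ} (hU : O.IsCopy n U) :
    closure U ⊆ filledJulia O.P :=
  closure_minimal (fun _ hz => O.bas_sub_filled (hU.sub_bas hz)) (filledJulia_closed O.two_le_degree)

theorem iter_mem_filled {z : ℂ} {n : ℕ} (h : (ev O.P)^[n] z ∈ filledJulia O.P) :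
    z ∈ filledJulia O.P := by
  obtain ⟨R, hR, hesc⟩ := esc_radius O.two_le_degree
  obtain ⟨M, hM⟩ := h
  by_contra hcon
  rw [filledJulia_iff hR hesc] at hcon
  push Not at hcon
  obtain ⟨m, hm⟩ := hcon
  obtain ⟨q, hq⟩ := pow_unbounded_of_one_lt (M + R) (show (1:ℝ) < 2 by norm_num)
  have h1 := esc_iter hR hesc hm.le (q + n)
  rw [← Function.iterate_add_apply] at h1
  have h2 := hM (q + m)
  rw [← Function.iterate_add_apply, show q + m + n = q + n + m by ring] at h2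
  have h6 : (2:ℝ) ^ q ≤ 2 ^ (q + n) := pow_le_pow_right₀ (by norm_num) (by omega)
  have h7 : (1:ℝ) * 2 ^ (q + n) ≤ R * 2 ^ (q + n) := by gcongr
  linarith

/-- off the closures of the copies the relation is trivial -/
theorem mem_closure_of_mk {I : Inner O.d} {y z : ℂ}
    (h : Quot.mk (Rel O I) y = Quot.mk (Rel O I) z) (hyz : y ≠ z) :
    (∃ U, (∃ n, O.IsCopy n U) ∧ y ∈ closure U) ∧ (∃ U, (∃ n, O.IsCopy n U) ∧ z ∈ closure U) := by
  have h1 := Quot.eqvGen_exact h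
  have h2 : y = z ∨ ((∃ U, (∃ n, O.IsCopy n U) ∧ y ∈ closure U) ∧
      (∃ U, (∃ n, O.IsCopy n U) ∧ z ∈ closure U)) := by
    clear h hyz
    induction h1 with
    | rel a b hab =>
      obtain ⟨n, U, hU, ha, hb, -⟩ := hab
      exact Or.inr ⟨⟨U, ⟨n, hU⟩, ha⟩, ⟨U, ⟨n, hU⟩, hb⟩⟩
    | refl a => exact Or.inl rfl
    | symm a b _ ih =>
      rcases ih with h | ⟨h, h'⟩
      · exact Or.inl h.symm
      · exact Or.inr ⟨h', h⟩
    | trans a b c _ _ ih1 ih2 =>
      rcases ih1 with h | ⟨h, h'⟩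
      · rw [h]; exact ih2
      · rcases ih2 with g | ⟨g, g'⟩
        · rw [← g]; exact Or.inr ⟨h, h'⟩
        · exact Or.inr ⟨h, g'⟩
  exact h2.resolve_left hyz

/-- escaping points form classes of their own -/
theorem mk_escaping {I : Inner O.d} {y z : ℂ} (hy : y ∉ filledJulia O.P)
    (h : Quot.mk (Rel O I) y = Quot.mk (Rel O I) z) : y = z := by
  by_contra hyz
  obtain ⟨⟨U, ⟨n, hU⟩, hyU⟩, -⟩ := mem_closure_of_mk h hyz
  exact hy (closure_sub_filled hU hyU)

/-- the modified map is `P₁` off `B` -/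
theorem tmap_eq (I : Inner O.d) {z : ℂ} (hz : z ∉ O.B) : tmap O I z = ev O.P z := by
  by_cases hzc : z ∈ closure O.B
  · have h1 := O.coord_mem_sphere hzc hz
    have h2 := I.disc_sphere h1
    have h3 : ‖I.disc (O.coord z)‖ ≤ 1 := by rw [h2, norm_pow, h1, one_pow]
    obtain ⟨h4, h5⟩ := tmap_closure I hzc h3
    have hk := O.k_pos
    have h6 : ev O.P z ∈ closure O.B1 := by
      rw [← image_B]
      have h2 : MapsTo (ev O.P) O.B (ev O.P '' O.B) := mapsTo_image _ _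
      exact h2.closure (ev_cont _) hzc
    apply isCopy_B1.injOn_closure h4 h6
    rw [h5, h2, ← Function.iterate_succ_apply, Nat.succ_eq_add_one, Nat.sub_add_cancel hk,
      ← O.β_conj _ (O.coord_mem hzc), O.β_coord hzc]
  · exact tmap_off I hzc

theorem countable_copies : {U : Set ℂ | ∃ n, O.IsCopy n U}.Countable := by
  apply Set.PairwiseDisjoint.countable_of_isOpen (s := id)
  · rintro U ⟨n, hU⟩ V ⟨m, hV⟩ hUV
    rw [Function.onFun, id, id, Set.disjoint_left]
    intro z hz1 hz2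
    exact hUV (hU.eq_of_inter hV hz1 hz2)
  · rintro U ⟨n, hU⟩; exact hU.isOpen
  · rintro U ⟨n, hU⟩; exact hU.nonempty

end Outer

end Pool.Agent.Helper620_Tuning
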