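import Pool.Agent.Helper620_Tuning.General

/-!
# If the tuned map is conjugate to a polynomial, the components of the basin shrink
-/

set_option autoImplicit false

open Polynomial Set Filter Topology Metric

namespace Pool.Agent.Helper620_Tuning

namespace Outer

variable {O : Outer}

theorem lim_notMem_bas {V : ℕ → Set ℂ} {n : ℕ → ℕ} (hV : Function.Injective V)
    (hn : ∀ j, O.IsCopy (n j) (V j)) {y : ℕ → ℂ} {φ : ℕ → ℕ} (hφ : StrictMono φ)
    (hy : ∀ j, y j ∈ closure (V (φ j))) {z : ℂ} (hz : Tendsto y atTop (𝓝 z)) : z ∉ O.bas := by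
  intro hb
  obtain ⟨m, hW⟩ := exists_copy hb
  have h1 := hz.eventually (hW.isOpen.mem_nhds (mem_connectedComponentIn hb))
  obtain ⟨N, hN⟩ := eventually_atTop.mp h1
  have h2 : ∀ j ≥ N, V (φ j) = connectedComponentIn O.bas z := by
    intro j hj
    exact (hn _).eq_of_inter hW ((hn _).closure_inter (hy j) (hW.sub_bas (hN j hj))) (hN j hj)
  have h3 := (h2 N le_rfl).trans (h2 (N + 1) (by omega)).symm
  have h4 := hφ.injective (hV h3)
  omega

/-- If the components of the basin do not shrink there is a sequence of components whose compact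
parts shrink to a point `p` and with boundary points converging to another point `x`. -/
theorem exists_seq (hnull : ¬ O.Null) :
    ∃ (V : ℕ → Set ℂ) (n : ℕ → ℕ) (X : ℕ → ℂ) (x p : ℂ), Function.Injective V ∧
      (∀ j, O.IsCopy (n j) (V j)) ∧ (∀ j, X j ∈ closure (V j)) ∧ Tendsto X atTop (𝓝 x) ∧
      x ≠ p ∧ x ∉ O.bas ∧ p ∉ O.bas ∧ (∀ j, ‖O.coord ((ev O.P)^[n j] (X j))‖ = 1) ∧
      ∀ ρ : ℝ, ρ < 1 → ∀ w : ℕ → ℂ, (∀ j, w j ∈ closedBall (0:ℂ) ρ) →
        Tendsto (fun j => O.sec (n j) (V j) (w j)) atTop (𝓝 p) := by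
  unfold Null at hnull
  push Not at hnull
  obtain ⟨ε, hε, hinf⟩ := hnull
  have hinf' : {U : Set ℂ | (∃ n, O.IsCopy n U) ∧ ε ≤ Metric.diam U}.Infinite := hinf
  let e := hinf'.natEmbedding
  set V : ℕ → Set ℂ := fun j => (e j : Set ℂ) with hV
  have hVinj : Function.Injective V := fun i j hij => e.injective (Subtype.ext hij)
  have hV2 : ∀ j, (∃ n, O.IsCopy n (V j)) ∧ ε ≤ Metric.diam (V j) := fun j => (e j).2
  choose n hn using fun j => (hV2 j).1
  have hdiam : ∀ j, ε ≤ Metric.diam (V j) := fun j => (hV2 j).2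
  have hcore : ∀ ρ < (1:ℝ), ∀ δ > 0, ∀ᶠ j in atTop, ∀ x ∈ closedBall (0:ℂ) ρ,
      ∀ y ∈ closedBall (0:ℂ) ρ,
      dist (O.sec (n j) (V j) x) (O.sec (n j) (V j) y) < δ := by
    intro ρ hρ δ hδ
    have h1 := (finite_core (O := O) hρ hδ).preimage (hVinj.injOn (s := univ ∩ V ⁻¹'
      {U : Set ℂ | ∃ n, O.IsCopy n U ∧ ∃ x ∈ closedBall (0:ℂ) ρ, ∃ y ∈ closedBall (0:ℂ) ρ,
      δ ≤ dist (O.sec n U x) (O.sec n U y)})|>.mono (by simp))
    rw [← Nat.cofinite_eq_atTop]
    filter_upwards [h1.compl_mem_cofinite] with j hj x hx y hy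
    by_contra hcon
    push Not at hcon
    exact hj ⟨n j, hn j, x, hx, y, hy, hcon⟩
  have hfar : ∀ j, ∃ u : ℂ, ‖u‖ = 1 ∧
      ε / 4 ≤ dist (O.sec (n j) (V j) u) (O.sec (n j) (V j) 0) := by
    intro j
    by_contra hcon
    push Not at hcon
    have h1 : DiffContOnCl ℂ (fun w => O.sec (n j) (V j) w - O.sec (n j) (V j) 0)
        (ball (0:ℂ) 1) := by
      refine ⟨(hn j).sec_diff.sub_const _, ?_⟩
      rw [closure_ball _ one_ne_zero]
      exact (hn j).sec_cont.sub continuousOn_const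
    have h2 : ∀ w ∈ closedBall (0:ℂ) 1,
        dist (O.sec (n j) (V j) w) (O.sec (n j) (V j) 0) ≤ ε / 4 := by
      intro w hw
      rw [dist_eq_norm]
      apply Complex.norm_le_of_forall_mem_frontier_norm_le isBounded_ball h1
      · intro u hu
        rw [frontier_ball _ one_ne_zero, mem_sphere_zero_iff_norm] at hu
        rw [← dist_eq_norm]
        exact (hcon u hu).le
      · rwa [closure_ball _ one_ne_zero]
    have h3 : Metric.diam (V j) ≤ ε / 2 := by
      apply Metric.diam_le_of_forall_dist_le (by linarith)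
      intro x hx y hy
      rw [← (hn j).sec_coord (subset_closure hx), ← (hn j).sec_coord (subset_closure hy)]
      have h4 := h2 _ ((hn j).coord_mem (subset_closure hx))
      have h5 := h2 _ ((hn j).coord_mem (subset_closure hy))
      rw [dist_comm] at h5
      have h6 := dist_triangle (O.sec (n j) (V j) (O.coord ((ev O.P)^[n j] x)))
        (O.sec (n j) (V j) 0) (O.sec (n j) (V j) (O.coord ((ev O.P)^[n j] y)))
      linarith
    linarith [hdiam j]
  choose u hu1 hu2 using hfar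
  obtain ⟨R, hR⟩ := filledJulia_bdd O.two_le_degree
  have hbd : ∀ j, ∀ x ∈ closure (V j), x ∈ closedBall (0:ℂ) R := by
    intro j x hx
    have h2 : closure (V j) ⊆ closedBall (0:ℂ) R := by
      apply closure_minimal _ isClosed_closedBall
      intro y hy
      rw [mem_closedBall_zero_iff]
      exact hR y (O.bas_sub_filled ((hn j).sub_bas hy))
    exact h2 hx
  have h0b : (0:ℂ) ∈ closedBall (0:ℂ) 1 := mem_closedBall_self zero_le_one
  have hub : ∀ j, u j ∈ closedBall (0:ℂ) 1 := fun j => by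
    rw [mem_closedBall_zero_iff]; exact (hu1 j).le
  have hcomp : IsCompact (closedBall (0:ℂ) R ×ˢ closedBall (0:ℂ) R) :=
    (isCompact_closedBall _ _).prod (isCompact_closedBall _ _)
  obtain ⟨⟨x, p⟩, -, φ, hφ, hlim⟩ := hcomp.tendsto_subseq
    (x := fun j => (O.sec (n j) (V j) (u j), O.sec (n j) (V j) 0))
    (fun j => ⟨hbd j _ ((hn j).sec_mem (hub j)), hbd j _ ((hn j).sec_mem h0b)⟩)
  have hx : Tendsto (fun j => O.sec (n (φ j)) (V (φ j)) (u (φ j))) atTop (𝓝 x) :=
    (continuous_fst.tendsto _).comp hlim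
  have hp : Tendsto (fun j => O.sec (n (φ j)) (V (φ j)) 0) atTop (𝓝 p) :=
    (continuous_snd.tendsto _).comp hlim
  have hxp : ε / 4 ≤ dist x p := by
    apply ge_of_tendsto (hx.dist hp)
    exact Eventually.of_forall fun j => hu2 _
  refine ⟨fun j => V (φ j), fun j => n (φ j), fun j => O.sec (n (φ j)) (V (φ j)) (u (φ j)), x, p,
    hVinj.comp hφ.injective, fun j => hn _, fun j => (hn _).sec_mem (hub _), hx, ?_, ?_, ?_, ?_, ?_⟩
  · intro h
    rw [h, dist_self] at hxp
    linarith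
  · exact lim_notMem_bas hVinj hn hφ (fun j => (hn _).sec_mem (hub _)) hx
  · exact lim_notMem_bas hVinj hn hφ (fun j => (hn _).sec_mem h0b) hp
  · intro j
    dsimp only
    rw [(hn _).coord_sec (hub _), hu1]
  · intro ρ hρ w hw
    apply hp.congr_dist
    rw [Metric.tendsto_atTop]
    intro δ hδ
    obtain ⟨N, hN⟩ := eventually_atTop.mp
      (hφ.tendsto_atTop.eventually (hcore (max ρ 0) (max_lt hρ one_pos) δ hδ))
    refine ⟨N, fun j hj => ?_⟩
    rw [Real.dist_0_eq_abs, abs_of_nonneg dist_nonneg]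
    exact hN j hj 0 (mem_closedBall_self (le_max_right _ _)) _
      (closedBall_subset_closedBall (le_max_left _ _) (hw j))

variable (I : Inner O.d)

/-- every point of the closure of a copy is identified with a point of its compact part -/
theorem exists_core_point : ∃ ρ : ℝ, 0 ≤ ρ ∧ ρ < 1 ∧ ∀ (n : ℕ) (U : Set ℂ), O.IsCopy n U →
    ∀ y ∈ closure U, ∃ w ∈ closedBall (0:ℂ) ρ,
      Quot.mk (Rel O I) y = Quot.mk (Rel O I) (O.sec n U w) := by
  obtain ⟨ρ1, h10, h11, h12⟩ := I.exists_core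
  obtain ⟨ρ2, h21, h22⟩ := I.exists_ray O.two_le_d
  refine ⟨max ρ1 ρ2, le_max_of_le_left h10, max_lt h11 h21, fun n U hU y hy => ?_⟩
  have hw1 : ‖O.coord ((ev O.P)^[n] y)‖ ≤ 1 := by
    have := hU.coord_mem hy
    rwa [mem_closedBall_zero_iff] at this
  by_cases h : ‖O.coord ((ev O.P)^[n] y)‖ ≤ ρ2
  · refine ⟨O.coord ((ev O.P)^[n] y), ?_, by rw [hU.sec_coord hy]⟩
    rw [mem_closedBall_zero_iff]
    exact h.trans (le_max_right _ _)
  · push Not at h
    obtain ⟨u, hu, hu2⟩ := h22 _ hw1 h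
    obtain ⟨w, hw, hw2⟩ := h12 u hu
    have hwb : w ∈ closedBall (0:ℂ) 1 := closedBall_subset_closedBall h11.le hw
    refine ⟨w, closedBall_subset_closedBall (le_max_left _ _) hw, ?_⟩
    apply Quot.sound
    refine ⟨n, U, hU, hy, hU.sec_mem hwb, u, hu, hu2, ?_⟩
    rw [hU.coord_sec hwb]
    exact hw2

/-- the class of `p` contains a nondegenerate continuum off the basin -/
theorem exists_continuum [T2Space (Quot (Rel O I))] (hnull : ¬ O.Null) :
    ∃ (C : Set ℂ) (x p : ℂ), IsCompact C ∧ IsPreconnected C ∧ x ∈ C ∧ p ∈ C ∧ x ≠ p ∧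
      ∀ z ∈ C, z ∉ O.bas ∧ Quot.mk (Rel O I) z = Quot.mk (Rel O I) p := by
  obtain ⟨V, n, X, x, p, hV, hn, hX, hXx, hxp, hxb, hpb, hX1, hcore⟩ := exists_seq hnull
  obtain ⟨ρ, hρ0, hρ, hcp⟩ := exists_core_point (O := O) I
  -- limits of points of the closures are identified with `p`
  have key : ∀ (φ : ℕ → ℕ) (_ : StrictMono φ) (y : ℕ → ℂ) (_ : ∀ j, y j ∈ closure (V (φ j)))
      (z : ℂ) (_ : Tendsto y atTop (𝓝 z)), z ∉ O.bas ∧
      Quot.mk (Rel O I) z = Quot.mk (Rel O I) p := by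
    intro φ hφ y hy z hz
    refine ⟨lim_notMem_bas hV hn hφ hy hz, ?_⟩
    choose w hw hw2 using fun j => hcp (n (φ j)) (V (φ j)) (hn _) (y j) (hy j)
    -- extend the choice to a full sequence
    have h1 : Tendsto (fun j => O.sec (n (φ j)) (V (φ j)) (w j)) atTop (𝓝 p) := by
      classical
      let w' : ℕ → ℂ := fun i => if h : ∃ j, φ j = i then w h.choose else 0
      have hw' : ∀ i, w' i ∈ closedBall (0:ℂ) ρ := by
        intro i
        by_cases h : ∃ j, φ j = i
        · simp only [w', dif_pos h]; exact hw _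
        · simp only [w', dif_neg h]; exact mem_closedBall_self hρ0
      have h2 := (hcore ρ hρ w' hw').comp hφ.tendsto_atTop
      refine h2.congr fun j => ?_
      have h3 : ∃ j', φ j' = φ j := ⟨j, rfl⟩
      have h4 : h3.choose = j := hφ.injective h3.choose_spec
      simp only [Function.comp_apply, w', dif_pos h3, h4]
    have h2 : Tendsto (fun j => Quot.mk (Rel O I) (y j)) atTop (𝓝 (Quot.mk _ z)) :=
      (continuous_quot_mk.tendsto _).comp hz
    have h3 : Tendsto (fun j => Quot.mk (Rel O I) (O.sec (n (φ j)) (V (φ j)) (w j))) atTop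
        (𝓝 (Quot.mk _ p)) := (continuous_quot_mk.tendsto _).comp h1
    exact tendsto_nhds_unique (h2.congr fun j => hw2 j) h3
  obtain ⟨R, hR⟩ := filledJulia_bdd O.two_le_degree
  have hbd : ∀ j, ∀ x ∈ closure (V j), x ∈ closedBall (0:ℂ) R := by
    intro j x hx
    rw [mem_closedBall_zero_iff]
    exact hR x (closure_sub_filled (hn j) hx)
  set K : Set ℂ := {z | Quot.mk (Rel O I) z = Quot.mk (Rel O I) p} ∩ (O.bas)ᶜ ∩
    closedBall (0:ℂ) R with hK
  have hKc : IsCompact K := by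
    apply IsCompact.inter_left (isCompact_closedBall _ _)
    apply IsClosed.inter _ O.isOpen_bas.isClosed_compl
    exact isClosed_eq continuous_quot_mk continuous_const
  have h0b : (0:ℂ) ∈ closedBall (0:ℂ) ρ := mem_closedBall_self hρ0
  have hplim := hcore ρ hρ (fun _ => 0) (fun _ => h0b)
  have hsec0 : ∀ j, O.sec (n j) (V j) 0 ∈ closure (V j) := fun j =>
    (hn j).sec_mem (mem_closedBall_self zero_le_one)
  have hpK : p ∈ K := by
    refine ⟨⟨rfl, hpb⟩, ?_⟩
    exact isClosed_closedBall.mem_of_tendsto hplim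
      (Eventually.of_forall fun j => hbd j _ (hsec0 j))
  have hxK : x ∈ K := by
    refine ⟨⟨(key id strictMono_id X hX x hXx).2, hxb⟩, ?_⟩
    exact isClosed_closedBall.mem_of_tendsto hXx (Eventually.of_forall fun j => hbd j _ (hX j))
  have hxC : x ∈ connectedComponentIn K p := by
    by_contra hcon
    obtain ⟨G1, G2, hG1, hG2, hdis, hcov, hpG, hxG⟩ := conn_sep hKc hpK hxK hcon
    have h1 := hplim.eventually (hG1.mem_nhds hpG)
    have h2 := hXx.eventually (hG2.mem_nhds hxG)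
    obtain ⟨N, hN⟩ := eventually_atTop.mp (h1.and h2)
    have h3 : ∀ j, ∃ y ∈ closure (V (j + N)), y ∉ G1 ∪ G2 := by
      intro j
      by_contra hcon2
      push Not at hcon2
      have h4 := (hn (j + N)).isPreconnected.closure G1 G2 hG1 hG2 hcon2
        ⟨_, hsec0 _, (hN (j + N) (by omega)).1⟩ ⟨_, hX _, (hN (j + N) (by omega)).2⟩
      obtain ⟨z, -, hz1, hz2⟩ := h4
      exact Set.disjoint_left.mp hdis hz1 hz2
    choose y hy hyG using h3
    obtain ⟨z, hz, φ, hφ, hlim⟩ := (isCompact_closedBall (0:ℂ) R).tendsto_subseq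
      (fun j => hbd _ _ (hy j))
    have hφ' : StrictMono (fun j => φ j + N) := fun a b hab => by
      have := hφ hab
      show φ a + N < φ b + N
      omega
    have h4 := key (fun j => φ j + N) hφ' (y ∘ φ) (fun j => hy _) z hlim
    have h5 : z ∈ K := ⟨⟨h4.2, h4.1⟩, hz⟩
    have h6 : z ∉ G1 ∪ G2 := by
      have h7 : IsClosed (G1 ∪ G2)ᶜ := (hG1.union hG2).isClosed_compl
      exact h7.mem_of_tendsto hlim (Eventually.of_forall fun j => hyG _)
    exact h6 (hcov h5)
  have hCsub : connectedComponentIn K p ⊆ K := connectedComponentIn_subset _ _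
  have hCclosed : IsClosed (connectedComponentIn K p) := by
    apply isClosed_of_closure_subset
    apply IsPreconnected.subset_connectedComponentIn isPreconnected_connectedComponentIn.closure
      (subset_closure (mem_connectedComponentIn hpK))
    exact closure_minimal hCsub hKc.isClosed
  exact ⟨connectedComponentIn K p, x, p, hKc.of_isClosed_subset hCclosed hCsub,
    isPreconnected_connectedComponentIn, hxC, mem_connectedComponentIn hpK, hxp,
    fun z hz => ⟨(hCsub hz).1.2, (hCsub hz).1.1⟩⟩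

/-- a nondegenerate connected part of the boundary of a copy lies in one class -/
theorem exists_arc [T2Space (Quot (Rel O I))] (hnull : ¬ O.Null) :
    ∃ (n : ℕ) (U S : Set ℂ) (p : ℂ), O.IsCopy n U ∧ S ⊆ closure U ∧ IsPreconnected S ∧
      (∃ a ∈ S, ∃ b ∈ S, a ≠ b) ∧ p ∉ O.bas ∧
      ∀ z ∈ S, z ∉ O.bas ∧ Quot.mk (Rel O I) z = Quot.mk (Rel O I) p := by
  obtain ⟨C, x, p, hC, hCc, hx, hp, hxp, hall⟩ := exists_continuum I hnull
  have : CompactSpace C := isCompact_iff_compactSpace.mp hC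
  have : PreconnectedSpace C := Subtype.preconnectedSpace hCc
  have : Nonempty C := ⟨⟨x, hx⟩⟩
  have : Countable {U : Set ℂ | ∃ n, O.IsCopy n U} := countable_copies.to_subtype
  let f : Option {U : Set ℂ | ∃ n, O.IsCopy n U} → Set C := fun o =>
    match o with
    | none => {⟨p, hp⟩}
    | some U => Subtype.val ⁻¹' closure (U : Set ℂ)
  have hf1 : ∀ o, IsClosed (f o) := by
    intro o
    match o with
    | none => exact isClosed_singleton
    | some U => exact isClosed_closure.preimage continuous_subtype_val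
  have hf2 : ⋃ o, f o = univ := by
    rw [eq_univ_iff_forall]
    rintro ⟨z, hz⟩
    rw [mem_iUnion]
    by_cases hzp : z = p
    · exact ⟨none, by
        show (⟨z, hz⟩ : C) ∈ ({⟨p, hp⟩} : Set C)
        rw [mem_singleton_iff]; exact Subtype.ext hzp⟩
    · obtain ⟨⟨U, hU, hzU⟩, -⟩ := mem_closure_of_mk (hall z hz).2 hzp
      exact ⟨some ⟨U, hU⟩, hzU⟩
  obtain ⟨o, ⟨⟨y, hy⟩, hyo⟩⟩ := nonempty_interior_of_iUnion_of_closed hf1 hf2
  match o, hyo with
  | none, hyo =>
    exfalso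
    have h1 : interior ({⟨p, hp⟩} : Set C) = {⟨p, hp⟩} := by
      apply Subset.antisymm interior_subset
      intro z hz
      rw [mem_singleton_iff] at hz
      have h2 : (⟨y, hy⟩ : C) ∈ ({⟨p, hp⟩} : Set C) := interior_subset hyo
      rw [mem_singleton_iff] at h2
      rw [hz]
      show (⟨p, hp⟩ : C) ∈ interior (f none)
      rw [show (⟨p, hp⟩ : C) = ⟨y, hy⟩ from h2.symm]
      exact hyo
    have h2 : IsOpen ({⟨p, hp⟩} : Set C) := by rw [← h1]; exact isOpen_interior
    have h3 : IsClopen ({⟨p, hp⟩} : Set C) := ⟨isClosed_singleton, h2⟩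
    rcases isClopen_iff.mp h3 with h | h
    · exact absurd h (singleton_nonempty _).ne_empty
    · have h4 : (⟨x, hx⟩ : C) ∈ ({⟨p, hp⟩} : Set C) := by rw [h]; exact mem_univ _
      rw [mem_singleton_iff] at h4
      exact hxp (congrArg Subtype.val h4)
  | some ⟨U, ⟨n, hU⟩⟩, hyo =>
    obtain ⟨W, hW, hWo, hyW⟩ := mem_interior.mp hyo
    obtain ⟨G, hG, rfl⟩ := isOpen_induced_iff.mp hWo
    obtain ⟨r0, hr0, hr0G⟩ := Metric.isOpen_iff.mp hG y hyW
    obtain ⟨z, hz, hzy⟩ : ∃ z ∈ C, z ≠ y := by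
      by_cases h : x = y
      · exact ⟨p, hp, fun h2 => hxp (h.trans h2.symm)⟩
      · exact ⟨x, hx, h⟩
    have hzy' : 0 < dist z y := dist_pos.mpr hzy
    set r := min (r0 / 2) (dist z y / 2) with hr
    have hrpos : 0 < r := lt_min (by linarith) (by linarith)
    have hrz : r < dist z y := lt_of_le_of_lt (min_le_right _ _) (by linarith)
    have hrr : r < r0 := lt_of_le_of_lt (min_le_left _ _) (by linarith)
    obtain ⟨S, hS, hSc, hab⟩ := bump hC hCc hrpos hy hz hrz
    refine ⟨n, U, S, p, hU, ?_, hSc, hab, (hall p hp).1, fun s hs => hall s (hS hs).1⟩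
    intro s hs
    have h1 : s ∈ G := hr0G (closedBall_subset_ball hrr (hS hs).2)
    have h2 : (⟨s, (hS hs).1⟩ : C) ∈ Subtype.val ⁻¹' G := h1
    exact hW h2

theorem iter_isOpenMap (n : ℕ) : IsOpenMap ((ev O.P)^[n]) := by
  intro A hA
  have h1 : AnalyticOnNhd ℂ ((ev O.P)^[n]) univ :=
    (ev_iter_diff O.P n).differentiableOn.analyticOnNhd isOpen_univ
  rcases h1.is_constant_or_isOpen isPreconnected_univ with ⟨w, hw⟩ | h
  · exfalso
    have h2 := fiber_finite (O := O) n w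
    have h3 : (ev O.P)^[n] ⁻¹' {w} = univ := by
      rw [eq_univ_iff_forall]
      intro y; exact hw y (mem_univ _)
    rw [h3] at h2
    exact infinite_univ h2
  · exact h A (subset_univ _) hA

theorem mem_filled_iter {z : ℂ} (h : z ∈ filledJulia O.P) (n : ℕ) :
    (ev O.P)^[n] z ∈ filledJulia O.P := by
  obtain ⟨M, hM⟩ := h
  refine ⟨M, fun m => ?_⟩
  rw [← Function.iterate_add_apply]
  exact hM _

variable {I}

/-- the conjugacy on orbits which avoid `B` -/
theorem conj_iter {Q : ℂ[X]} {h : Quot (Rel O I) ≃ₜ ℂ}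
    (hconj : ∀ z, h (Quot.mk _ (tmap O I z)) = Q.eval (h (Quot.mk _ z))) {z : ℂ} (m : ℕ)
    (hz : ∀ i < m, (ev O.P)^[i] z ∉ O.B) :
    h (Quot.mk _ ((ev O.P)^[m] z)) = (ev Q)^[m] (h (Quot.mk _ z)) := by
  induction m with
  | zero => rfl
  | succ m ih =>
    rw [Function.iterate_succ_apply', Function.iterate_succ_apply',
      ← ih (fun i hi => hz i (by omega)), ← tmap_eq I (hz m (by omega)), hconj]
    rfl

theorem conj_iter_off {Q : ℂ[X]} {h : Quot (Rel O I) ≃ₜ ℂ}
    (hconj : ∀ z, h (Quot.mk _ (tmap O I z)) = Q.eval (h (Quot.mk _ z))) {z : ℂ} (m : ℕ)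
    (hz : z ∉ O.bas) :
    h (Quot.mk _ ((ev O.P)^[m] z)) = (ev Q)^[m] (h (Quot.mk _ z)) :=
  conj_iter hconj m fun i _ hB => iter_notMem_bas hz i (O.B_sub_bas hB)

/-- the whole boundary of `B` lies in one class -/
theorem boundary_const {Q : ℂ[X]} {h : Quot (Rel O I) ≃ₜ ℂ}
    (hconj : ∀ z, h (Quot.mk _ (tmap O I z)) = Q.eval (h (Quot.mk _ z))) (hnull : ¬ O.Null) :
    ∃ P0 : ℂ, ∀ v : ℂ, ‖v‖ = 1 → h (Quot.mk _ (O.β v)) = P0 := by
  have : T2Space (Quot (Rel O I)) := h.symm.t2Space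
  obtain ⟨n, U, S, p, hU, hSU, hSc, ⟨a, ha, b, hb, hab⟩, hpb, hall⟩ := exists_arc I hnull
  have hTc : IsPreconnected ((fun z => O.coord ((ev O.P)^[n] z)) '' S) :=
    hSc.image _ (hU.coord_cont.mono hSU)
  have hT1 : ∀ w ∈ (fun z => O.coord ((ev O.P)^[n] z)) '' S, ‖w‖ = 1 := by
    rintro _ ⟨s, hs, rfl⟩
    have h1 : (ev O.P)^[n] s ∈ closure O.B := hU.iter_closure (hSU hs)
    exact O.coord_mem_sphere h1 fun h2 => iter_notMem_bas (hall s hs).1 n (O.B_sub_bas h2)
  obtain ⟨N, hN⟩ := circle_expand hTc hT1 (mem_image_of_mem _ ha) (mem_image_of_mem _ hb)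
    (fun h => hab (hU.coord_injOn (hSU ha) (hSU hb) h)) O.two_le_d
  refine ⟨(ev Q)^[O.k * N + n] (h (Quot.mk _ p)), fun v hv => ?_⟩
  obtain ⟨_, ⟨s, hs, rfl⟩, hv2⟩ := hN v hv
  have h1 : (ev O.P)^[n] s ∈ closure O.B := hU.iter_closure (hSU hs)
  rw [← hv2]
  dsimp only
  rw [← O.β_iter (O.coord_mem h1), O.β_coord h1, ← Function.iterate_add_apply,
    conj_iter_off hconj _ (hall s hs).1, (hall s hs).2]

/-- If the tuned map is conjugate to a polynomial, the components of the basin form a null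
family. -/
theorem null_of_conj {Q : ℂ[X]} (hQ : TunedConj O I Q) : O.Null := by
  by_contra hnull
  obtain ⟨h, hconj⟩ := hQ
  obtain ⟨P0, hP0⟩ := boundary_const hconj hnull
  have hd := O.two_le_d
  have hk := O.k_pos
  set g : ℂ → ℂ := fun z => h (Quot.mk _ z) with hg
  have hgc : Continuous g := h.continuous.comp continuous_quot_mk
  have hβb : ∀ v : ℂ, ‖v‖ = 1 → O.β v ∈ closure O.B ∧ O.β v ∉ O.B := by
    intro v hv
    have h1 : v ∈ closedBall (0:ℂ) 1 := by rw [mem_closedBall_zero_iff, hv]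
    refine ⟨O.β_mem_closure h1, fun h2 => ?_⟩
    have h3 := O.coord_mem_ball h2
    rw [O.coord_β h1, mem_ball_zero_iff, hv] at h3
    exact lt_irrefl _ h3
  have hβbas : ∀ v : ℂ, ‖v‖ = 1 → O.β v ∉ O.bas := fun v hv hb =>
    (hβb v hv).2 (O.isCopy_B.closure_inter (hβb v hv).1 hb)
  have h11 : ‖(1:ℂ)‖ = 1 := norm_one
  have h1b : (1:ℂ) ∈ closedBall (0:ℂ) 1 := by rw [mem_closedBall_zero_iff, h11]
  -- escaping orbits
  have hesc_conj : ∀ y ∉ filledJulia O.P, ∀ m, g ((ev O.P)^[m] y) = (ev Q)^[m] (g y) := by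
    intro y hy m
    apply conj_iter hconj
    intro i _ hB
    exact hy (iter_mem_filled (O.bas_sub_filled (O.B_sub_bas hB)))
  set F : ℂ → ℂ := (ev Q)^[O.k] with hF
  have hFd : Differentiable ℂ F := ev_iter_diff Q O.k
  have hFP : F P0 = P0 := by
    have h2 := conj_iter_off hconj O.k (hβbas 1 h11)
    rw [O.β_conj 1 h1b, one_pow, hP0 1 h11] at h2
    exact h2.symm
  -- the derivative vanishes
  have hder : deriv F P0 = 0 := by
    by_contra hne
    have h1 : HasStrictDerivAt F (deriv F P0) P0 :=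
      (hFd.differentiableOn.analyticOnNhd isOpen_univ P0 (mem_univ _)).hasStrictDerivAt
    have h2 := h1.hasStrictFDerivAt_equiv hne
    set N := (h2.toOpenPartialHomeomorph _).source with hN
    have hNo : IsOpen N := (h2.toOpenPartialHomeomorph _).open_source
    have hPN : P0 ∈ N := h2.mem_toOpenPartialHomeomorph_source
    have hinj : InjOn F N := (h2.toOpenPartialHomeomorph _).injOn
    -- a second root of unity
    set u : ℂ := Complex.exp (2 * Real.pi * Complex.I / O.d) with hu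
    have hprim := Complex.isPrimitiveRoot_exp O.d (by omega : O.d ≠ 0)
    have hud : u ^ O.d = 1 := hprim.pow_eq_one
    have hu1 : u ≠ 1 := hprim.ne_one (by omega)
    have hun : ‖u‖ = 1 := by
      have h3 : ‖u‖ ^ O.d = 1 := by rw [← norm_pow, hud, norm_one]
      exact (pow_eq_one_iff_of_nonneg (norm_nonneg _) (by omega)).mp h3
    have hub : u ∈ closedBall (0:ℂ) 1 := by rw [mem_closedBall_zero_iff, hun]
    have hne2 : O.β 1 ≠ O.β u := fun h => hu1 (O.β_inj h1b hub h).symm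
    have hdist : 0 < dist (O.β 1) (O.β u) := dist_pos.mpr hne2
    -- small balls
    have h3 : g ⁻¹' N ∈ 𝓝 (O.β 1) := hgc.continuousAt.preimage_mem_nhds
      (by show N ∈ 𝓝 (g (O.β 1)); rw [show g (O.β 1) = P0 from hP0 1 h11]; exact hNo.mem_nhds hPN)
    have h4 : g ⁻¹' N ∈ 𝓝 (O.β u) := hgc.continuousAt.preimage_mem_nhds
      (by show N ∈ 𝓝 (g (O.β u)); rw [show g (O.β u) = P0 from hP0 u hun]; exact hNo.mem_nhds hPN)
    obtain ⟨r1, hr1, hr1s⟩ := Metric.mem_nhds_iff.mp h3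
    obtain ⟨r2, hr2, hr2s⟩ := Metric.mem_nhds_iff.mp h4
    set r := min (min r1 r2) (dist (O.β 1) (O.β u) / 2) with hr
    have hr0 : 0 < r := lt_min (lt_min hr1 hr2) (by linarith)
    have hrr1 : r ≤ r1 := (min_le_left _ _).trans (min_le_left _ _)
    have hrr2 : r ≤ r2 := (min_le_left _ _).trans (min_le_right _ _)
    have hrd : r ≤ dist (O.β 1) (O.β u) / 2 := min_le_right _ _
    have h5 : (ev O.P)^[O.k] '' ball (O.β 1) r ∈ 𝓝 (O.β 1) := by
      apply (iter_isOpenMap (O := O) O.k _ isOpen_ball).mem_nhds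
      refine ⟨O.β 1, mem_ball_self hr0, ?_⟩
      rw [O.β_conj 1 h1b, one_pow]
    have h6 : (ev O.P)^[O.k] '' ball (O.β u) r ∈ 𝓝 (O.β 1) := by
      apply (iter_isOpenMap (O := O) O.k _ isOpen_ball).mem_nhds
      refine ⟨O.β u, mem_ball_self hr0, ?_⟩
      rw [O.β_conj u hub, hud]
    obtain ⟨δ, hδ, hδs⟩ := Metric.mem_nhds_iff.mp (inter_mem h5 h6)
    obtain ⟨y, hy, hyd⟩ := exists_escaping (hβb 1 h11).1 (hβb 1 h11).2 hδ
    obtain ⟨⟨y1, hy1, hy1y⟩, ⟨y2, hy2, hy2y⟩⟩ := hδs (mem_ball.mpr hyd)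
    have hy1K : y1 ∉ filledJulia O.P := fun hK => hy (by
      rw [← hy1y]; exact mem_filled_iter hK _)
    have hy2K : y2 ∉ filledJulia O.P := fun hK => hy (by
      rw [← hy2y]; exact mem_filled_iter hK _)
    have hy12 : y1 ≠ y2 := by
      intro h7
      rw [h7] at hy1
      have h8 := dist_triangle (O.β 1) y2 (O.β u)
      rw [mem_ball, dist_comm] at hy1
      rw [mem_ball] at hy2
      linarith
    have hg1 : g y1 ∈ N := hr1s (ball_subset_ball hrr1 hy1)
    have hg2 : g y2 ∈ N := hr2s (ball_subset_ball hrr2 hy2)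
    have h7 : g y1 = g y2 := by
      apply hinj hg1 hg2
      rw [hF, ← hesc_conj y1 hy1K, ← hesc_conj y2 hy2K, hy1y, hy2y]
    exact hy12 (mk_escaping hy1K (h.injective h7))
  -- contraction near `P0`
  obtain ⟨r, hr, hcontr⟩ : ∃ r > 0, ∀ z ∈ ball P0 r, dist (F z) P0 ≤ 1 / 2 * dist z P0 := by
    have h1 : HasDerivAt F 0 P0 := by rw [← hder]; exact (hFd P0).hasDerivAt
    rw [hasDerivAt_iff_isLittleO] at h1
    have h2 := h1.def (show (0:ℝ) < 1 / 2 by norm_num)
    obtain ⟨r, hr, hrs⟩ := Metric.eventually_nhds_iff_ball.mp h2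
    refine ⟨r, hr, fun z hz => ?_⟩
    have h3 := hrs z hz
    rw [hFP] at h3
    simpa [dist_eq_norm] using h3
  have hiter : ∀ (m : ℕ) (z : ℂ), z ∈ ball P0 r → dist (F^[m] z) P0 ≤ (1 / 2) ^ m * r := by
    intro m
    induction m with
    | zero => intro z hz; simpa using (mem_ball.mp hz).le
    | succ m ih =>
      intro z hz
      rw [Function.iterate_succ_apply']
      have h1 := ih z hz
      have h2 : F^[m] z ∈ ball P0 r ∨ m = 0 := by
        rcases Nat.eq_zero_or_pos m with h | h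
        · exact Or.inr h
        · left
          rw [mem_ball]
          have h3 : ((1:ℝ) / 2) ^ m < 1 := pow_lt_one₀ (by norm_num) (by norm_num) h.ne'
          nlinarith
      have h3 : F^[m] z ∈ ball P0 r := by
        rcases h2 with h2 | h2
        · exact h2
        · rw [h2]; exact hz
      have h4 := hcontr _ h3
      rw [pow_succ]
      linarith
  -- a saturated open set
  obtain ⟨R, hR, hesc⟩ := esc_radius O.two_le_degree
  set G : Set ℂ := ball (0:ℂ) (R + 1) with hG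
  have hKG : ∀ z ∈ filledJulia O.P, z ∈ G := by
    intro z hz
    have h1 := (filledJulia_iff hR hesc z).mp hz 0
    rw [hG, mem_ball_zero_iff]
    simp only [Function.iterate_zero, id] at h1
    linarith
  have hsat : ∀ z z', z ∈ G → Quot.mk (Rel O I) z = Quot.mk (Rel O I) z' → z' ∈ G := by
    intro z z' hz hzz
    by_cases hz' : z' ∈ filledJulia O.P
    · exact hKG z' hz'
    · rw [mk_escaping hz' hzz.symm]; exact hz
  have hGo : IsOpen (Quot.mk (Rel O I) '' G) := by
    rw [← isQuotientMap_quot_mk.isOpen_preimage]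
    have h1 : Quot.mk (Rel O I) ⁻¹' (Quot.mk (Rel O I) '' G) = G := by
      ext z
      constructor
      · rintro ⟨z', hz', hz2⟩
        exact hsat z' z hz' hz2
      · intro hz; exact ⟨z, hz, rfl⟩
    rw [h1]; exact isOpen_ball
  have hGo2 : IsOpen (h '' (Quot.mk (Rel O I) '' G)) := h.isOpenMap _ hGo
  have hPG : P0 ∈ h '' (Quot.mk (Rel O I) '' G) := by
    refine ⟨_, ⟨O.β 1, ?_, rfl⟩, hP0 1 h11⟩
    exact hKG _ (closure_sub_filled O.isCopy_B (hβb 1 h11).1)
  -- an escaping point near the boundary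
  have h3 : g ⁻¹' ball P0 r ∈ 𝓝 (O.β 1) := hgc.continuousAt.preimage_mem_nhds
    (by show ball P0 r ∈ 𝓝 (g (O.β 1)); rw [show g (O.β 1) = P0 from hP0 1 h11]
        exact ball_mem_nhds _ hr)
  obtain ⟨δ, hδ, hδs⟩ := Metric.mem_nhds_iff.mp h3
  obtain ⟨y, hy, hyd⟩ := exists_escaping (hβb 1 h11).1 (hβb 1 h11).2 hδ
  have hgy : g y ∈ ball P0 r := hδs (mem_ball.mpr hyd)
  have hlim : Tendsto (fun m : ℕ => F^[m] (g y)) atTop (𝓝 P0) := by
    rw [tendsto_iff_dist_tendsto_zero]
    have h4 : Tendsto (fun m : ℕ => ((1:ℝ) / 2) ^ m * r) atTop (𝓝 (0 * r)) :=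
      (tendsto_pow_atTop_nhds_zero_of_lt_one (by norm_num) (by norm_num)).mul_const r
    rw [zero_mul] at h4
    exact squeeze_zero (fun _ => dist_nonneg) (fun m => hiter m _ hgy) h4
  obtain ⟨M, hM⟩ := eventually_atTop.mp (hlim.eventually (hGo2.mem_nhds hPG))
  -- the orbit of `y` escapes
  have hy' := hy
  rw [filledJulia_iff hR hesc] at hy'
  push Not at hy'
  obtain ⟨n0, hn0⟩ := hy'
  obtain ⟨q, hq⟩ := pow_unbounded_of_one_lt (R + 1) (show (1:ℝ) < 2 by norm_num)
  have h4 := hM (M + n0 + q) (by omega)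
  obtain ⟨_, ⟨z, hz, rfl⟩, hz2⟩ := h4
  have h5 : F^[M + n0 + q] (g y) = g ((ev O.P)^[O.k * (M + n0 + q)] y) := by
    rw [hesc_conj y hy, hF, ← Function.iterate_mul]
  rw [h5] at hz2
  have h6 := hsat _ _ hz (h.injective hz2)
  have h7 : n0 + q ≤ O.k * (M + n0 + q) := by
    have : M + n0 + q ≤ O.k * (M + n0 + q) := Nat.le_mul_of_pos_left _ hk
    omega
  obtain ⟨e, he⟩ := Nat.exists_eq_add_of_le h7
  rw [he, show n0 + q + e = (q + e) + n0 by ring, Function.iterate_add_apply, hG,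
    mem_ball_zero_iff] at h6
  have h8 := esc_iter hR hesc hn0.le (q + e)
  have h9 : (2:ℝ) ^ q ≤ 2 ^ (q + e) := pow_le_pow_right₀ (by norm_num) (by omega)
  have h10 : (1:ℝ) * 2 ^ (q + e) ≤ R * 2 ^ (q + e) := by gcongr
  linarith

end Outer

end Pool.Agent.Helper620_Tuning
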