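import Pool.Agent.Helper620_Tuning.Shrink

/-!
# Tuning: how `P₁` permutes the components of the basin
-/

set_option autoImplicit false

open Polynomial Set Filter Topology Metric

namespace Pool.Agent.Helper620_Tuning

namespace Outer

variable {O : Outer}

theorem exists_copy {z : ℂ} (hz : z ∈ O.bas) : ∃ n, O.IsCopy n (connectedComponentIn O.bas z) := by
  classical
  have h := O.mem_bas_iff.mp hz
  exact ⟨Nat.find h, z, Nat.find_spec h, fun m hm => Nat.find_min h hm, rfl⟩

theorem IsCopy.eq_comp {n : ℕ} {U : Set ℂ} (hU : O.IsCopy n U) {z : ℂ} (hz : z ∈ U) :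
    connectedComponentIn O.bas z = U := by
  have h1 : z ∈ connectedComponentIn O.bas z := mem_connectedComponentIn (hU.sub_bas hz)
  apply Subset.antisymm
  · exact hU.sub isPreconnected_connectedComponentIn (connectedComponentIn_subset _ _) h1 hz
  · exact hU.isPreconnected.subset_connectedComponentIn hz hU.sub_bas

theorem iter_notMem_bas {z : ℂ} (hz : z ∉ O.bas) (m : ℕ) : (ev O.P)^[m] z ∉ O.bas := by
  intro h
  apply hz
  rw [O.mem_bas_iff] at h ⊢
  obtain ⟨n, hn⟩ := h
  exact ⟨n + m, by rwa [Function.iterate_add_apply]⟩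

/-- the image of a component of positive generation -/
theorem IsCopy.next {n : ℕ} {U : Set ℂ} (hU : O.IsCopy (n + 1) U) {z : ℂ} (hz : z ∈ U) :
    O.IsCopy n (connectedComponentIn O.bas (ev O.P z)) := by
  refine ⟨ev O.P z, ?_, ?_, rfl⟩
  · rw [← Function.iterate_succ_apply]
    exact hU.iter_mem hz
  · intro m hm
    rw [← Function.iterate_succ_apply]
    exact hU.iter_notMem hz (by omega)

/-- the map from a component to the next one -/
theorem mapsTo_closure {n m : ℕ} {U V : Set ℂ} (hU : O.IsCopy n U) (hV : O.IsCopy m V) {z : ℂ}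
    (hz : z ∈ U) (hz2 : ev O.P z ∈ V) : MapsTo (ev O.P) (closure U) (closure V) := by
  apply MapsTo.closure _ (ev_cont _)
  intro y hy
  have h1 : IsPreconnected (ev O.P '' U) := hU.isPreconnected.image _ (ev_cont _).continuousOn
  have h2 : ev O.P '' U ⊆ O.bas := by
    rintro _ ⟨x, hx, rfl⟩
    exact O.iter_mem_bas (hU.sub_bas hx) 1
  exact hV.sub h1 h2 (mem_image_of_mem _ hz) hz2 (mem_image_of_mem _ hy)

theorem IsCopy.sec_next {n : ℕ} {U V : Set ℂ} (hU : O.IsCopy (n + 1) U) (hV : O.IsCopy n V) {z : ℂ}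
    (hz : z ∈ U) (hz2 : ev O.P z ∈ V) {w : ℂ} (hw : w ∈ closedBall (0:ℂ) 1) :
    ev O.P (O.sec (n + 1) U w) = O.sec n V w := by
  have h1 := mapsTo_closure hU hV hz hz2 (hU.sec_mem hw)
  rw [← hV.sec_coord h1, ← Function.iterate_succ_apply, hU.coord_sec hw]

theorem sec_zero {w : ℂ} (hw : w ∈ closedBall (0:ℂ) 1) : O.sec 0 O.B w = O.β w := by
  have := O.isCopy_B.iter_sec hw
  simpa using this

theorem iter_k_ω : (ev O.P)^[O.k] O.ω = O.ω := by
  rw [← O.period]; exact Function.isPeriodicPt_minimalPeriod _ _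

/-- the component of the critical value -/
def B1 (O : Outer) : Set ℂ := connectedComponentIn O.bas (ev O.P O.ω)

theorem isCopy_B1 : O.IsCopy (O.k - 1) O.B1 := by
  have hk := O.k_pos
  refine ⟨ev O.P O.ω, ?_, ?_, rfl⟩
  · rw [← Function.iterate_succ_apply, Nat.succ_eq_add_one, Nat.sub_add_cancel hk, iter_k_ω]
    exact O.ω_mem
  · intro m hm
    rw [← Function.iterate_succ_apply]
    intro h
    set p := (ev O.P)^[m + 1] O.ω with hp
    have h1 : (ev O.P)^[O.k] p = p := by
      rw [hp, ← Function.iterate_add_apply, Nat.add_comm, Function.iterate_add_apply, iter_k_ω]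
    have h2 := O.coord_mem_ball h
    have h2' := ball_subset_closedBall h2
    have h3 := O.β_coord (subset_closure h)
    rw [← h3, O.β_conj _ h2'] at h1
    have h4 : O.coord p ^ O.d ∈ closedBall (0:ℂ) 1 := by
      rw [mem_closedBall_zero_iff] at h2' ⊢
      rw [norm_pow]
      exact pow_le_one₀ (norm_nonneg _) h2'
    have h5 := O.β_inj h4 h2' h1
    have h6 : O.coord p = 0 := by
      by_contra hne
      have h6 : ‖O.coord p‖ ^ O.d = ‖O.coord p‖ := by rw [← norm_pow, h5]
      have h7 : 0 < ‖O.coord p‖ := norm_pos_iff.mpr hne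
      have h8 : ‖O.coord p‖ < 1 := by rwa [mem_ball_zero_iff] at h2
      have h9 : ‖O.coord p‖ ^ O.d ≤ ‖O.coord p‖ ^ 2 := pow_le_pow_of_le_one h7.le h8.le O.two_le_d
      nlinarith
    rw [h6, O.β_zero] at h3
    have h7 : Function.IsPeriodicPt (ev O.P) (m + 1) O.ω := by
      show (ev O.P)^[m + 1] O.ω = O.ω
      rw [← hp, ← h3]
    have h8 := h7.minimalPeriod_le (by omega)
    rw [O.period] at h8
    omega

theorem image_B : ev O.P '' O.B = O.B1 := by
  have hk := O.k_pos
  have hω : ev O.P O.ω ∈ O.B1 := mem_connectedComponentIn (O.iter_mem_bas O.ω_mem_bas 1)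
  have hsub : ev O.P '' O.B ⊆ O.B1 := by
    have h1 : IsPreconnected (ev O.P '' O.B) :=
      O.isPreconnected_B.image _ (ev_cont _).continuousOn
    have h2 : ev O.P '' O.B ⊆ O.bas := by
      rintro _ ⟨x, hx, rfl⟩
      exact O.iter_mem_bas (O.B_sub_bas hx) 1
    exact isCopy_B1.sub h1 h2 (mem_image_of_mem _ O.ω_mem) hω
  apply Subset.antisymm hsub
  intro y hy
  have h1 := isCopy_B1.iter_mem hy
  have h2 := O.coord_mem_ball h1
  obtain ⟨w, hw⟩ := IsAlgClosed.exists_pow_nat_eq (O.coord ((ev O.P)^[O.k - 1] y))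
    (n := O.d) (by have := O.two_le_d; omega)
  have hwb : w ∈ ball (0:ℂ) 1 := by
    rw [mem_ball_zero_iff] at h2 ⊢
    by_contra hcon
    push Not at hcon
    rw [← hw, norm_pow] at h2
    exact absurd h2 (not_lt.mpr (one_le_pow₀ hcon))
  have h3 := O.β_mem hwb
  have h4 : ev O.P (O.β w) ∈ O.B1 := hsub (mem_image_of_mem _ h3)
  refine ⟨O.β w, h3, isCopy_B1.injOn h4 hy ?_⟩
  rw [← Function.iterate_succ_apply, Nat.succ_eq_add_one, Nat.sub_add_cancel hk,
    O.β_conj _ (ball_subset_closedBall hwb), hw, O.β_coord (subset_closure h1)]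

theorem ev_β {w : ℂ} (hw : w ∈ closedBall (0:ℂ) 1) :
    ev O.P (O.β w) = O.sec (O.k - 1) O.B1 (w ^ O.d) := by
  have hk := O.k_pos
  have h1 : ev O.P (O.β w) ∈ closure O.B1 := by
    rw [← image_B]
    have h2 : MapsTo (ev O.P) O.B (ev O.P '' O.B) := mapsTo_image _ _
    exact h2.closure (ev_cont _) (O.β_mem_closure hw)
  have h4 : w ^ O.d ∈ closedBall (0:ℂ) 1 := by
    rw [mem_closedBall_zero_iff] at hw ⊢
    rw [norm_pow]
    exact pow_le_one₀ (norm_nonneg _) hw
  rw [← isCopy_B1.sec_coord h1]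
  congr 1
  rw [← Function.iterate_succ_apply, Nat.succ_eq_add_one, Nat.sub_add_cancel hk,
    O.β_conj _ hw, O.coord_β h4]

/-- the modified map on the closure of `B` -/
theorem tmap_closure (I : Inner O.d) {z : ℂ} (hz : z ∈ closure O.B)
    (hd : ‖I.disc (O.coord z)‖ ≤ 1) :
    tmap O I z ∈ closure O.B1 ∧ (ev O.P)^[O.k - 1] (tmap O I z) = O.β (I.disc (O.coord z)) := by
  have h1 : closure (ev O.P '' O.B) = closure O.B1 := by rw [image_B]
  have h2 : O.β (I.disc (O.coord z)) ∈ (ev O.P)^[O.k - 1] '' closure (ev O.P '' O.B) := by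
    rw [h1]
    exact isCopy_B1.surjOn_closure (O.β_mem_closure (by rwa [mem_closedBall_zero_iff]))
  unfold tmap
  rw [if_pos hz]
  refine ⟨?_, Function.invFunOn_eq h2⟩
  rw [← h1]
  exact Function.invFunOn_mem h2

theorem tmap_off (I : Inner O.d) {z : ℂ} (hz : z ∉ closure O.B) : tmap O I z = ev O.P z := by
  unfold tmap
  rw [if_neg hz]

end Outer

end Pool.Agent.Helper620_Tuning
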