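import Pool.Agent.Helper620_Tuning.Ext

/-!
# Tuning: compact parts of the components of the basin shrink
-/

set_option autoImplicit false

open Polynomial Set Filter Topology Metric

namespace Pool.Agent.Helper620_Tuning

/-- Quantitative open mapping theorem. -/
theorem quant_open {g : ℂ → ℂ} {w : ℂ} {r M : ℝ} (hr : 0 < r) (hM : 0 < M)
    (hg : DifferentiableOn ℂ g (ball w r)) (hb : ∀ z ∈ ball w r, dist (g z) (g w) ≤ M)
    (hne : deriv g w ≠ 0) :
    ball (g w) (‖deriv g w‖ ^ 2 * r ^ 2 / (16 * M)) ⊆ g '' ball w r := by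
  set a := ‖deriv g w‖ with ha
  have ha0 : 0 < a := norm_pos_iff.mpr hne
  have hwr : w ∈ ball w r := mem_ball_self hr
  have hh : DifferentiableOn ℂ (dslope g w) (ball w r) :=
    (Complex.differentiableOn_dslope (ball_mem_nhds w hr)).mpr hg
  have hbd : ∀ z ∈ ball w r, ‖dslope g w z‖ ≤ M / r := fun z hz =>
    Complex.norm_dslope_le_div_of_mapsTo_ball hg (fun y hy => mem_closedBall.mpr (hb y hy)) hz
  have ha1 : a ≤ M / r := by
    have := hbd w hwr
    rwa [dslope_same] at this
  have hmaps : MapsTo (dslope g w) (ball w r) (closedBall (dslope g w w) (2 * (M / r))) := by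
    intro z hz
    rw [mem_closedBall, dist_eq_norm]
    have h1 := hbd z hz
    have h2 := hbd w hwr
    have h3 := norm_sub_le (dslope g w z) (dslope g w w)
    linarith
  have hd : ∀ z ∈ ball w r, dist (dslope g w z) (dslope g w w) ≤ 2 * (M / r) / r * dist z w :=
    fun z hz => Complex.dist_le_div_mul_dist_of_mapsTo_ball hh hmaps hz
  set s := a * r ^ 2 / (4 * M) with hs
  have hs0 : 0 < s := by positivity
  have hsr : s < r := by
    rw [hs, div_lt_iff₀ (by positivity)]
    have h1 : a * r ≤ M := by rwa [le_div_iff₀ hr] at ha1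
    nlinarith
  have hsub : closedBall w s ⊆ ball w r := closedBall_subset_ball hsr
  have hlow : ∀ z ∈ sphere w s, s * a / 2 ≤ ‖g z - g w‖ := by
    intro z hz
    have hzs : dist z w = s := hz
    have hzr : z ∈ ball w r := hsub (sphere_subset_closedBall hz)
    have h1 := hd z hzr
    rw [hzs, dslope_same, dist_eq_norm] at h1
    have h2 : 2 * (M / r) / r * s = a / 2 := by
      rw [hs]; field_simp; norm_num
    rw [h2] at h1
    have h3 : a / 2 ≤ ‖dslope g w z‖ := by
      have h4 := norm_sub_norm_le (deriv g w) (dslope g w z)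
      rw [norm_sub_rev] at h4
      linarith
    have h5 : g z - g w = (z - w) * dslope g w z := by
      have := sub_smul_dslope g w z
      rw [smul_eq_mul] at this
      exact this.symm
    rw [h5, norm_mul, ← dist_eq_norm, hzs]
    nlinarith
  have hdc : DiffContOnCl ℂ g (ball w s) := by
    apply DifferentiableOn.diffContOnCl
    apply hg.mono
    rw [closure_ball _ hs0.ne']
    exact hsub
  have hfr : ∃ᶠ z in 𝓝 w, g z ≠ g w := by
    intro hcon
    have h1 : ∀ᶠ z in 𝓝 w, g z = g w := by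
      filter_upwards [hcon] with z hz
      exact not_not.mp hz
    apply hne
    have h2 : g =ᶠ[𝓝 w] fun _ => g w := h1
    rw [h2.deriv_eq]
    simp
  have := hdc.ball_subset_image_closedBall hs0 hlow hfr
  refine (Subset.trans ?_ this).trans (image_mono hsub)
  apply ball_subset_ball
  apply le_of_eq
  rw [hs]; field_simp; norm_num

namespace Outer

variable {O : Outer}

theorem IsCopy.eq_of_inter {n m : ℕ} {U V : Set ℂ} (hU : O.IsCopy n U) (hV : O.IsCopy m V) {z : ℂ}
    (h1 : z ∈ U) (h2 : z ∈ V) : U = V :=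
  Subset.antisymm (hV.sub hU.isPreconnected hU.sub_bas h1 h2)
    (hU.sub hV.isPreconnected hV.sub_bas h2 h1)

/-- only finitely many components contain a disc of given radius -/
theorem finite_inradius {c : ℝ} (hc : 0 < c) :
    {U : Set ℂ | (∃ n, O.IsCopy n U) ∧ ∃ p, ball p c ⊆ U}.Finite := by
  obtain ⟨R, hR⟩ := filledJulia_bdd O.two_le_degree
  obtain ⟨t, -, ht, hcov⟩ := (isCompact_closedBall (0:ℂ) R).finite_cover_balls hc
  have h1 : ∀ U : Set ℂ, ((∃ n, O.IsCopy n U) ∧ ∃ p, ball p c ⊆ U) → ∃ x ∈ t, x ∈ U := by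
    rintro U ⟨⟨n, hU⟩, p, hp⟩
    have h2 : p ∈ U := hp (mem_ball_self hc)
    have h3 : p ∈ closedBall (0:ℂ) R := by
      rw [mem_closedBall_zero_iff]
      exact hR p (O.bas_sub_filled (hU.sub_bas h2))
    obtain ⟨x, hx, hx2⟩ := mem_iUnion₂.mp (hcov h3)
    exact ⟨x, hx, hp (by rwa [mem_ball_comm])⟩
  classical
  choose! F hF using h1
  apply Set.Finite.of_injOn (f := F) (t := t) (fun U hU => (hF U hU).1) _ ht
  intro U hU V hV hUV
  obtain ⟨⟨n, hU1⟩, hU2⟩ := hU
  obtain ⟨⟨m, hV1⟩, hV2⟩ := hV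
  have h3 := (hF U ⟨⟨n, hU1⟩, hU2⟩).2
  have h4 := (hF V ⟨⟨m, hV1⟩, hV2⟩).2
  rw [← hUV] at h4
  exact hU1.eq_of_inter hV1 h3 h4

/-- Compact parts of the components shrink. -/
theorem finite_core {ρ : ℝ} (hρ : ρ < 1) {ε : ℝ} (hε : 0 < ε) :
    {U : Set ℂ | ∃ n, O.IsCopy n U ∧ ∃ x ∈ closedBall (0:ℂ) ρ, ∃ y ∈ closedBall (0:ℂ) ρ,
      ε ≤ dist (O.sec n U x) (O.sec n U y)}.Finite := by
  obtain ⟨R, hR⟩ := filledJulia_bdd O.two_le_degree
  set M := 2 * max R 1 with hM
  have hM0 : 0 < M := by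
    have : (1:ℝ) ≤ max R 1 := le_max_right _ _
    linarith
  set r := 1 - ρ with hr
  have hr0 : 0 < r := by linarith
  set η := ε / 4 with hη
  have hη0 : 0 < η := by linarith
  refine (finite_inradius (O := O) (c := η ^ 2 * r ^ 2 / (16 * M)) (by positivity)).subset ?_
  rintro U ⟨n, hU, x, hx, y, hy, hxy⟩
  refine ⟨⟨n, hU⟩, ?_⟩
  have hsub : ∀ w ∈ closedBall (0:ℂ) ρ, ball w r ⊆ ball (0:ℂ) 1 := by
    intro w hw z hz
    rw [mem_closedBall_zero_iff] at hw
    rw [mem_ball] at hz
    rw [mem_ball_zero_iff]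
    have h1 : ‖z‖ ≤ dist z w + ‖w‖ := by
      rw [dist_eq_norm]
      have := norm_add_le (z - w) w
      rwa [sub_add_cancel] at this
    linarith
  have hsec : ∀ w ∈ ball (0:ℂ) 1, ‖O.sec n U w‖ ≤ max R 1 := by
    intro w hw
    have h1 : O.sec n U w ∈ U := (hU.sec_mem_iff (ball_subset_closedBall hw)).mpr hw
    exact (hR _ (O.bas_sub_filled (hU.sub_bas h1))).trans (le_max_left _ _)
  by_contra hcon
  push Not at hcon
  have hder : ∀ w ∈ closedBall (0:ℂ) ρ, ‖deriv (O.sec n U) w‖ ≤ η := by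
    intro w hw
    by_contra h1
    push Not at h1
    have h2 : deriv (O.sec n U) w ≠ 0 := by
      intro h; rw [h, norm_zero] at h1; linarith
    have h3 := quant_open hr0 hM0 (hU.sec_diff.mono (hsub w hw)) (by
      intro z hz
      rw [dist_eq_norm]
      have h4 := hsec z (hsub w hw hz)
      have h5 := hsec w (hsub w hw (mem_ball_self hr0))
      have h6 := norm_sub_le (O.sec n U z) (O.sec n U w)
      rw [hM]; linarith) h2
    apply hcon (O.sec n U w)
    refine (Subset.trans (ball_subset_ball ?_) h3).trans ?_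
    · gcongr
    · refine (image_mono (hsub w hw)).trans ?_
      rw [hU.sec_image]
  have h1 : ‖O.sec n U y - O.sec n U x‖ ≤ η * ‖y - x‖ := by
    apply Convex.norm_image_sub_le_of_norm_deriv_le (s := closedBall (0:ℂ) ρ) _ hder
      (convex_closedBall _ _) hx hy
    intro z hz
    have hz1 : z ∈ ball (0:ℂ) 1 := closedBall_subset_ball hρ hz
    exact (hU.sec_diff z hz1).differentiableAt (isOpen_ball.mem_nhds hz1)
  rw [dist_eq_norm, norm_sub_rev] at hxy
  have h2 : ‖y - x‖ ≤ 2 := by
    rw [mem_closedBall_zero_iff] at hx hy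
    have := norm_sub_le y x
    linarith
  have h3 : η * ‖y - x‖ ≤ η * 2 := by gcongr
  linarith

end Outer

end Pool.Agent.Helper620_Tuning
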